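import Mathlib.Algebra.BigOperators.ModEq
import Mathlib.Topology.Sheaves.Presheaf
import Mathlib.Data.Int.Star
import Mathlib.Algebra.Order.Ring.Star
import Mathlib.Algebra.Order.Star.Real
import Mathlib.Analysis.Complex.ExponentialBounds
import Mathlib.Combinatorics.SimpleGraph.Basic
import Mathlib.Combinatorics.Pigeonhole
import Mathlib.RingTheory.PiTensorProduct
import Mathlib.NumberTheory.Harmonic.Bounds
import Pool.Agent.MP_a43263_nt.RG.Spec
import Pool.Agent.MP_a43263_nt.GT.Spec3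

-- ======== part 0: formerly Pool.Agent.MP_a43263_nt.G7.Spec
section MrgPart0

/-! PROJECT GT7, part B: prescribed quadratic symbols between the prime factors of the values
`x + e j * d`. Blueprint: `/team-store/G7_BLUEPRINT.md`. -/

set_option autoImplicit false

noncomputable section

namespace Pool.Agent.MP_a43263_nt.G7

open Finset Filter
open R2 (DOStmt SWStmt)
open RG (GStmt)
open _root_.Pool.Agent.MP_a43263_nt.GT (GTCStmt)

variable {n m : ℕ}

/-- words: one large prime `p 0` and `m` medium primes, in given classes, all symbols one -/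
def Wd (q : ℕ) (b : Fin (m + 1) → ℕ) (Y X : ℕ) : Finset (Fin (m + 1) → ℕ) :=
  (Fintype.piFinset fun _ => Icc 1 X).filter fun p => (∀ a, (p a).Prime ∧ p a ≡ b a [MOD q]) ∧
    Y ^ 2 < p 0 ∧ (∀ a : Fin m, Y < p a.succ ∧ p a.succ ≤ Y ^ 2) ∧
    (∀ a a', a < a' → jacobiSym (p a) (p a') = 1) ∧ ∏ a, p a ≤ X

/-- modulus, pattern, classes -/
structure Dat (n m : ℕ) where
  M : ℕ
  e : Fin n → ℕ
  b : Fin (m + 1) → ℕ

structure Dat.Ok (D : Dat n m) : Prop where
  two : 2 ≤ n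
  sev : m ≤ 7
  pos : 0 < D.M
  inj : Function.Injective D.e
  dv : ∀ j k, j ≠ k → (D.e j : ℤ) - D.e k ∣ D.M
  one : ∀ a, D.b a % 8 = 1
  cop : ∀ a, (D.b a).Coprime D.M

/-- the value of the form `j` -/
def vl (p : Fin n → Fin (m + 1) → ℕ) (j : Fin n) : ℕ := ∏ a, p j a

/-- medium slots -/
abbrev Sl (n m : ℕ) : Type := Fin n × Fin m

/-- the medium prime in a slot -/
def md (p : Fin n → Fin (m + 1) → ℕ) (u : Sl n m) : ℕ := p u.1 u.2.succ

open Classical in
/-- the tuples of words that are studied -/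
def TT (D : Dat n m) (Y X : ℕ) : Finset (Fin n → Fin (m + 1) → ℕ) :=
  (Fintype.piFinset fun _ => Wd (8 * D.M) D.b Y X).filter fun p =>
    (∃ x d : ℤ, ∀ j, (vl p j : ℤ) = x + D.e j * d) ∧ ∀ j k, j ≠ k → (vl p j).Coprime (vl p k)

/-- a product of symbols -/
def chr (st : Fin n → Fin n) (x : Sl n m → Sl n m → ℕ) (y : Sl n m → ℕ)
    (p : Fin n → Fin (m + 1) → ℕ) : ℤ :=
  (∏ u, ∏ v, jacobiSym (md p u) (md p v) ^ x u v) * ∏ u, jacobiSym (vl p (st u.1)) (md p u) ^ y u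

/-- the exponents of a character that oscillates in the slots `u` and `v` -/
structure Odc (st : Fin n → Fin n) (x : Sl n m → Sl n m → ℕ) (y : Sl n m → ℕ) (u v : Sl n m) :
    Prop where
  st : ∀ j, st j ≠ j
  diag : ∀ w w', w.1 = w'.1 → x w w' = 0
  ne : u.1 ≠ v.1
  odd : Odd (x u v + x v u + y u)

/-- Row MAP: reciprocals of the primes of a class in a window. -/
def MAPStmt : Prop := ∀ q b K : ℕ, 0 < q → b.Coprime q → 1 ≤ K → ∃ c : ℝ, 0 < c ∧
  ∀ᶠ Y : ℕ in atTop,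
    c ≤ ∑ p ∈ (Ioc (Y ^ K) (Y ^ (K + 1))).filter (fun p => p.Prime ∧ p ≡ b [MOD q]), (1 : ℝ) / p

/-- Row DEN: the products of words are dense. -/
def DENStmt : Prop := ∀ (m q K : ℕ) (b : Fin (m + 1) → ℕ), 0 < q → (∀ a, (b a).Coprime q) →
  ∃ (δ : ℝ) (K' : ℕ), 0 < δ ∧ ∀ᶠ Y : ℕ in atTop, ∃ X : ℕ, Y ^ K ≤ X ∧ X ≤ Y ^ K' ∧
    δ * X / Real.log X ≤ (((Wd q b Y X).image fun p => ∏ a, p a).card : ℝ)

/-- Row POS: there are many tuples. -/
def POSStmt : Prop := ∀ (n m : ℕ) (D : Dat n m) (K : ℕ), D.Ok → ∃ (c : ℝ) (K' : ℕ), 0 < c ∧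
  ∀ᶠ Y : ℕ in atTop, ∃ X : ℕ, Y ^ K ≤ X ∧ X ≤ Y ^ K' ∧
    c * (X : ℝ) ^ 2 / Real.log X ^ n ≤ ((TT D Y X).card : ℝ)

/-- Row KEY: the sum with the other medium primes of two forms frozen. -/
def KEYStmt : Prop := ∀ (n m : ℕ) (D : Dat n m), D.Ok → ∃ K T : ℕ, ∀ K' : ℕ, ∀ᶠ Y : ℕ in atTop,
  ∀ X : ℕ, Y ^ K ≤ X → X ≤ Y ^ K' →
  ∀ (st : Fin n → Fin n) (x : Sl n m → Sl n m → ℕ) (y : Sl n m → ℕ) (u v : Sl n m),
  Odc st x y u v → ∀ (cu cv : Fin m → ℕ) (N : ℕ), Y ≤ 2 * N → N ≤ Y ^ 2 →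
    |∑ p ∈ (TT D Y X).filter (fun p => (∀ a, a ≠ u.2 → md p (u.1, a) = cu a) ∧
        (∀ a, a ≠ v.2 → md p (v.1, a) = cv a) ∧ N < md p v ∧ md p v ≤ 2 * N),
      (chr st x y p : ℝ)| ≤
      (X : ℝ) ^ 2 / ((∏ a ∈ univ.erase u.2, (cu a : ℝ)) * ∏ a ∈ univ.erase v.2, (cv a : ℝ)) *
        (Y : ℝ) ^ (-(1 / 2 ^ T) : ℝ)

/-- Row OSC: oscillating characters cancel. -/
def OSCStmt : Prop := ∀ (n m : ℕ) (D : Dat n m), D.Ok → ∃ K : ℕ, ∀ (K' : ℕ) (ε : ℝ), 0 < ε →
  ∀ᶠ Y : ℕ in atTop, ∀ X : ℕ, Y ^ K ≤ X → X ≤ Y ^ K' →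
  ∀ (st : Fin n → Fin n) (x : Sl n m → Sl n m → ℕ) (y : Sl n m → ℕ) (u v : Sl n m),
  Odc st x y u v → |∑ p ∈ TT D Y X, (chr st x y p : ℝ)| ≤ ε * (X : ℝ) ^ 2 / Real.log X ^ n

/-- Row EQD, THE OUTPUT: every pattern of signs occurs, apart from one pair of forms. -/
def EQDStmt : Prop := ∀ (n m : ℕ) (D : Dat n m), D.Ok → ∀ (j₀ k₀ : Fin n), j₀ < k₀ →
  ∀ st : Fin n → Fin n, (∀ j, st j ≠ j) → ∀ (s : Sl n m → Sl n m → ℤ) (t : Sl n m → ℤ),
  (∀ u v, s u v = 1 ∨ s u v = -1) → (∀ u, t u = 1 ∨ t u = -1) → ∀ B : ℕ,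
  ∃ (p : Fin n → Fin (m + 1) → ℕ) (x d : ℤ),
    (∀ j a, (p j a).Prime ∧ B < p j a ∧ p j a ≡ D.b a [MOD 8 * D.M]) ∧
    (∀ j a a', a < a' → jacobiSym (p j a) (p j a') = 1) ∧
    (∀ j, (vl p j : ℤ) = x + D.e j * d) ∧ (∀ j k, j ≠ k → (vl p j).Coprime (vl p k)) ∧
    (∀ u v : Sl n m, u.1 < v.1 → ¬(u.1 = j₀ ∧ v.1 = k₀) → jacobiSym (md p u) (md p v) = s u v) ∧
    ∀ u : Sl n m, jacobiSym (vl p (st u.1)) (md p u) = t u

theorem eqd_of (sw : SWStmt) (dos : DOStmt) (gg : GStmt) (gtc : GTCStmt)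
    (map : SWStmt → MAPStmt) (den : DOStmt → MAPStmt → DENStmt)
    (pos : GTCStmt → DENStmt → POSStmt) (key : GStmt → KEYStmt) (osc : KEYStmt → OSCStmt)
    (eqd : POSStmt → OSCStmt → EQDStmt) : EQDStmt :=
  eqd (pos gtc (den dos (map sw))) (osc (key gg))

end Pool.Agent.MP_a43263_nt.G7

end
end MrgPart0

-- ======== part 1: formerly Pool.Agent.MP_a43263_nt.G7.Map
section MrgPart1

/-! PROJECT GT7, part B, row MAP: reciprocals of the primes of a class in a window. -/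

set_option autoImplicit false

noncomputable section

namespace Pool.Agent.MP_a43263_nt.G7

open Finset Filter
open R2 (SWStmt pri)

namespace Map

/-- the sum over a window -/
def win (q b u v : ℕ) (f : ℕ → ℝ) : ℝ :=
  ∑ p ∈ (Ioc u v).filter (fun p => p.Prime ∧ p ≡ b [MOD q]), f p

theorem win_add (q b : ℕ) {u v w : ℕ} (h : u ≤ v) (h' : v ≤ w) (f : ℕ → ℝ) :
    win q b u v f + win q b v w f = win q b u w f := by
  simp only [win, sum_filter]
  exact sum_Ioc_consecutive _ h h'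

theorem blk (sw : SWStmt) {q b : ℕ} (hq : 0 < q) (hb : b.Coprime q) : ∀ᶠ y : ℕ in atTop,
    ∀ L : ℝ, Real.log (2 * y) ≤ L → 1 / (4 * q.totient * L) ≤ win q b y (2 * y) fun p => 1 / p := by
  have ht : Tendsto (fun y : ℕ => 2 * (y : ℝ)) atTop atTop :=
    tendsto_natCast_atTop_atTop.const_mul_atTop two_pos
  filter_upwards [ht.eventually (sw 1 1),
    ht.eventually (Real.tendsto_log_atTop.eventually_ge_atTop (8 * (q : ℝ))),
    eventually_gt_atTop 0] with y h1 h2 h3 L hL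
  have y0 : (0 : ℝ) < y := Nat.cast_pos.2 h3
  have q0 : (0 : ℝ) < q := Nat.cast_pos.2 hq
  have t0 : (0 : ℝ) < q.totient := Nat.cast_pos.2 (Nat.totient_pos.2 hq)
  have t1 : (q.totient : ℝ) ≤ q := Nat.cast_le.2 (Nat.totient_le q)
  have h4 := h1 (2 * y : ℕ) q b (by positivity) (by push_cast; rfl) hq
    (by rw [pow_one]; linarith) hb
  have h5 := h1 y q b y0.le (by linarith) hq (by rw [pow_one]; linarith) hb
  rw [Nat.floor_natCast, pow_one, pri, filter_filter] at h4 h5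
  have h6 := win_add q b (Nat.zero_le y) (by omega : y ≤ 2 * y) fun p => Real.log p
  have h7 : 2 * y / Real.log (2 * y) ≤ 2 * y / (8 * q.totient) :=
    div_le_div_of_nonneg_left (by linarith) (by positivity) (by linarith)
  have h8 : win q b y (2 * y) (fun p => Real.log p) ≤
      2 * y * L * win q b y (2 * y) fun p => 1 / p := by
    rw [win, win, mul_sum]
    refine sum_le_sum fun p hp => ?_
    obtain ⟨k1, k2, -⟩ := mem_filter.1 hp
    have p0 : (0 : ℝ) < p := Nat.cast_pos.2 k2.pos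
    have p1 : (p : ℝ) ≤ 2 * y := by exact_mod_cast (mem_Ioc.1 k1).2
    have p2 : Real.log p ≤ L := (Real.log_le_log p0 p1).trans hL
    rw [mul_one_div, le_div_iff₀ p0, mul_comm (2 * (y : ℝ))]
    exact mul_le_mul p2 p1 p0.le (by linarith)
  have e1 : ((2 * y : ℕ) : ℝ) / q.totient = 8 * (2 * y / (8 * q.totient)) := by
    push_cast; field_simp
  have e2 : (y : ℝ) / q.totient = 4 * (2 * y / (8 * q.totient)) := by field_simp; ring
  have L0 : 0 < L := by linarith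
  have e3 : 2 * y * L * (1 / (4 * q.totient * L)) = 2 * (2 * y / (8 * q.totient)) := by
    field_simp; ring
  refine le_of_mul_le_mul_left (le_trans ?_ h8) (by positivity : 0 < 2 * (y : ℝ) * L)
  simp only [win] at h6 ⊢
  linarith [(abs_le.1 h4).1, (abs_le.1 h5).2]

end Map

open Map

theorem map : SWStmt → MAPStmt := by
  intro sw q b K hq hb hK
  have t0 : (0 : ℝ) < q.totient := Nat.cast_pos.2 (Nat.totient_pos.2 hq)
  obtain ⟨y0, h0⟩ := eventually_atTop.1 (blk sw hq hb)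
  refine ⟨1 / (8 * q.totient * (K + 1)), by positivity, ?_⟩
  filter_upwards [eventually_ge_atTop y0, eventually_ge_atTop 1,
    (Real.tendsto_log_atTop.comp tendsto_natCast_atTop_atTop).eventually_ge_atTop 2]
    with Y h1 h2 h3
  have h3' : 2 ≤ Real.log Y := h3
  have hp : ∀ n, 2 ^ n ≤ Y → 2 ^ n * Y ^ K ≤ Y ^ (K + 1) := fun n hn => by
    rw [pow_succ']; exact Nat.mul_le_mul_right _ hn
  have key : ∀ n : ℕ, 2 ^ n ≤ Y → n * (1 / (4 * q.totient * ((K + 1) * Real.log Y))) ≤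
      win q b (Y ^ K) (2 ^ n * Y ^ K) fun p => 1 / p := by
    intro n
    induction n with
    | zero => intro _; simp [win]
    | succ n ih =>
      intro hn
      have a1 : Y ^ K ≤ 2 ^ n * Y ^ K := Nat.le_mul_of_pos_left _ (by positivity)
      have a2 : 2 ^ (n + 1) * Y ^ K = 2 * (2 ^ n * Y ^ K) := by ring
      have a3 := h0 (2 ^ n * Y ^ K) (h1.trans ((Nat.le_self_pow (by omega) Y).trans a1))
        ((K + 1) * Real.log Y) (by
          have a4 : ((2 * (2 ^ n * Y ^ K) : ℕ) : ℝ) ≤ (Y ^ (K + 1) : ℕ) :=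
            Nat.cast_le.2 (a2 ▸ hp _ hn)
          have a5 := Real.log_le_log (by positivity) a4
          rw [Nat.cast_mul, Nat.cast_pow Y (K + 1), Real.log_pow] at a5
          exact_mod_cast a5)
      rw [a2, ← win_add q b a1 (by omega : _ ≤ 2 * (2 ^ n * Y ^ K)), Nat.cast_succ, add_mul, one_mul]
      exact add_le_add (ih ((Nat.pow_le_pow_right two_pos n.le_succ).trans hn)) a3
  have b1 : 2 ^ Nat.log 2 Y ≤ Y := Nat.pow_log_le_self 2 (by omega)
  have b2 : Real.log Y ≤ Nat.log 2 Y + 1 := by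
    have b3 : (Y : ℝ) ≤ 2 ^ (Nat.log 2 Y + 1) := by
      exact_mod_cast (Nat.lt_pow_succ_log_self one_lt_two Y).le
    have b4 := Real.log_le_log (Nat.cast_pos.2 h2) b3
    rw [Real.log_pow] at b4
    push_cast at b4
    have b5 : Real.log 2 ≤ 1 := by linarith [Real.log_two_lt_d9]
    nlinarith [Nat.cast_nonneg (α := ℝ) (Nat.log 2 Y)]
  have b6 : 1 / (8 * (q.totient : ℝ) * (K + 1)) =
      Real.log Y / 2 * (1 / (4 * q.totient * ((K + 1) * Real.log Y))) := by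
    have : Real.log Y ≠ 0 := by linarith
    field_simp; ring
  refine b6.trans_le (le_trans (mul_le_mul_of_nonneg_right (by linarith) (by positivity))
    ((key _ b1).trans ?_))
  exact sum_le_sum_of_subset_of_nonneg
    (filter_subset_filter _ (Ioc_subset_Ioc_right (hp _ b1))) fun _ _ _ => by positivity

end Pool.Agent.MP_a43263_nt.G7

end
end MrgPart1

-- ======== part 2: formerly Pool.Agent.MP_a43263_nt.G7.Den
section MrgPart2

/-! PROJECT GT7, part B, row DEN: the products of words are dense. -/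

set_option autoImplicit false
set_option linter.unusedSectionVars false

noncomputable section

namespace Pool.Agent.MP_a43263_nt.G7

open Finset Filter Function
open R2 (DOStmt SWStmt)

namespace Den

variable {ι : Type} [Fintype ι] [DecidableEq ι]

/-- the weight of a word -/
def w (p : ι → ℕ) : ℝ := ∏ a, (1 : ℝ) / p a

theorem w_nonneg (p : ι → ℕ) : 0 ≤ w p := prod_nonneg fun _ _ => by positivity

theorem w_update {p : ι → ℕ} {a : ι} (h : p a = 1) (x : ℕ) : w (update p a x) = w p * (1 / x) := by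
  rw [w, w, ← mul_prod_erase _ _ (mem_univ a), ← mul_prod_erase _ _ (mem_univ a), update_self, h,
    prod_congr rfl fun b hb => by rw [update_of_ne (ne_of_mem_erase hb)]]
  simp [mul_comm]

theorem split (I : ι → Finset ℕ) (a : ι) (f : (ι → ℕ) → ℝ) :
    ∑ p ∈ Fintype.piFinset I, f p =
      ∑ p ∈ Fintype.piFinset (update I a {1}), ∑ x ∈ I a, f (update p a x) := by
  rw [← sum_product']
  refine sum_nbij' (fun p => (update p a 1, p a)) (fun z => update z.1 a z.2) ?_ ?_ ?_ ?_ ?_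
  · intro p hp
    rw [Fintype.mem_piFinset] at hp
    refine mem_product.2 ⟨Fintype.mem_piFinset.2 fun b => ?_, hp a⟩
    by_cases e : b = a
    · subst e; simp
    · simpa [update_of_ne e] using hp b
  · intro z hz
    obtain ⟨h1, h2⟩ := mem_product.1 hz
    refine Fintype.mem_piFinset.2 fun b => ?_
    by_cases e : b = a
    · subst e; simpa using h2
    · simpa [update_of_ne e] using Fintype.mem_piFinset.1 h1 b
  · intro p _; simp
  · intro z hz
    have := Fintype.mem_piFinset.1 (mem_product.1 hz).1 a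
    simp only [update_self, mem_singleton] at this
    simp [← this]
  · intro p _; simp

theorem one_of {I : ι → Finset ℕ} {a : ι} {p : ι → ℕ}
    (h : p ∈ Fintype.piFinset (update I a {1})) : p a = 1 := by
  simpa using Fintype.mem_piFinset.1 h a

theorem mass (I : ι → Finset ℕ) :
    ∑ p ∈ Fintype.piFinset I, w p = ∏ a, ∑ x ∈ I a, (1 : ℝ) / x :=
  (prod_univ_sum I fun _ x => (1 : ℝ) / x).symm

theorem mass_le {I : ι → Finset ℕ} {Z : ℕ} (h : ∀ a, I a ⊆ Icc 1 Z) :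
    ∑ p ∈ Fintype.piFinset I, w p ≤ (1 + Real.log Z) ^ Fintype.card ι := by
  rw [mass, ← card_univ, ← prod_const]
  refine prod_le_prod (fun _ _ => sum_nonneg fun _ _ => by positivity) fun a _ =>
    (sum_le_sum_of_subset_of_nonneg (h a) fun _ _ _ => by positivity).trans ?_
  have := harmonic_le_one_add_log Z
  rw [harmonic_eq_sum_Icc] at this
  simpa using this

theorem upd_sub {I : ι → Finset ℕ} {Z : ℕ} (hZ : 1 ≤ Z) (h : ∀ a, I a ⊆ Icc 1 Z) (a b : ι) :
    update I a {1} b ⊆ Icc 1 Z := by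
  by_cases e : b = a
  · subst e; simpa using hZ
  · rw [update_of_ne e]; exact h b

variable {I : ι → Finset ℕ} {Y Z : ℕ}

theorem sub_of (h : ∀ a, I a ⊆ Ioc Y Z) (a : ι) : I a ⊆ Icc 1 Z := fun x hx => by
  have := mem_Ioc.1 (h a hx)
  exact mem_Icc.2 ⟨by omega, this.2⟩

theorem diag (hY : 1 ≤ Y) (hZ : 1 ≤ Z) (h : ∀ a, I a ⊆ Ioc Y Z) {a a' : ι} (e : a ≠ a') :
    ∑ p ∈ Fintype.piFinset I, w p * (if p a = p a' then 1 else 0) ≤
      (1 + Real.log Z) ^ Fintype.card ι * (1 / Y) := by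
  rw [split I a']
  refine le_trans ?_ (mul_le_mul_of_nonneg_right (mass_le (upd_sub hZ (sub_of h) a'))
    (by positivity))
  rw [sum_mul]
  refine sum_le_sum fun p hp => ?_
  simp only [w_update (one_of hp), update_self, update_of_ne e, mul_ite, mul_one, mul_zero,
    sum_ite_eq]
  split_ifs with h1
  · exact mul_le_mul_of_nonneg_left (one_div_le_one_div_of_le (by exact_mod_cast hY)
      (by exact_mod_cast (mem_Ioc.1 (h _ h1)).1.le)) (w_nonneg p)
  · exact mul_nonneg (w_nonneg p) (by positivity)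

theorem abs_jac (a : ℤ) (b : ℕ) : |(jacobiSym a b : ℝ)| ≤ 1 := by
  rcases jacobiSym.trichotomy a b with h | h | h <;> simp [h]

theorem abs_prod_jac {κ : Type} (s : Finset κ) (f g : κ → ℕ) :
    |∏ e ∈ s, (jacobiSym (f e) (g e) : ℝ)| ≤ 1 := by
  rw [abs_prod]
  exact prod_le_one (fun _ _ => abs_nonneg _) fun _ _ => abs_jac _ _

theorem osc [LinearOrder ι] {D : ℝ} (hZ : 1 ≤ Z) (h : ∀ a, I a ⊆ Ioc Y Z)
    (ho : ∀ a, ∀ x ∈ I a, Odd x)
    (hD : ∀ b : ℕ → ℝ, (∀ n, |b n| ≤ 1) → (∀ n, b n ≠ 0 → Odd n) →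
      ∑ m ∈ Ioc Y Z, (1 : ℝ) / m * |∑ n ∈ Ioc Y Z, b n * jacobiSym m n / n| ≤ D)
    {S : Finset (ι × ι)} (hS : ∀ e ∈ S, e.1 < e.2) (h0 : S.Nonempty) :
    |∑ p ∈ Fintype.piFinset I, w p * ∏ e ∈ S, (jacobiSym (p e.1) (p e.2) : ℝ)| ≤
      (1 + Real.log Z) ^ Fintype.card ι * D := by
  obtain ⟨⟨a, a'⟩, ha⟩ := h0
  have e : a ≠ a' := (hS _ ha).ne
  have hD0 : 0 ≤ D := le_trans (sum_nonneg fun _ _ => by positivity)
    (hD 0 (by simp) (by simp))
  rw [split I a', split _ a, update_of_ne e]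
  refine (abs_sum_le_sum_abs _ _).trans (le_trans ?_ (mul_le_mul_of_nonneg_right
    (mass_le (upd_sub hZ (upd_sub hZ (sub_of h) a') a)) hD0))
  rw [sum_mul]
  refine sum_le_sum fun p hp => ?_
  have h1 : p a = 1 := one_of hp
  have h2 : p a' = 1 := by simpa [update_of_ne e.symm] using Fintype.mem_piFinset.1 hp a'
  let Q : ι × ι → Prop := fun e => e.1 ≠ a' ∧ e.2 ≠ a'
  let α : ℕ → ℝ := fun m => ∏ e ∈ (S.erase (a, a')).filter Q,
    (jacobiSym (update p a m e.1) (update p a m e.2) : ℝ)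
  let β : ℕ → ℝ := fun n => ∏ e ∈ (S.erase (a, a')).filter (fun e => ¬Q e),
    (jacobiSym (update p a' n e.1) (update p a' n e.2) : ℝ)
  have key : ∀ m n : ℕ, ∏ e ∈ S, (jacobiSym (update (update p a m) a' n e.1)
      (update (update p a m) a' n e.2) : ℝ) = jacobiSym m n * (α m * β n) := fun m n => by
    rw [← mul_prod_erase _ _ ha, ← prod_filter_mul_prod_filter_not _ Q, update_self, update_of_ne e,
      update_self]
    congr 2
    · refine prod_congr rfl fun x hx => ?_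
      rw [update_of_ne (mem_filter.1 hx).2.1, update_of_ne (mem_filter.1 hx).2.2]
    · refine prod_congr rfl fun x hx => ?_
      obtain ⟨h3, h4⟩ := mem_filter.1 hx
      have h5 := hS x (mem_of_mem_erase h3)
      have h6 := hS _ ha
      have h7 : x.1 ≠ a ∧ x.2 ≠ a := by
        rcases not_and_or.1 h4 with h8 | h8 <;> rw [not_not] at h8
        · exact ⟨h8 ▸ e.symm, fun h9 => lt_asymm h6 (by rwa [h8, h9] at h5)⟩
        · exact ⟨fun h9 => ne_of_mem_erase h3 (Prod.ext h9 h8), h8 ▸ e.symm⟩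
      rw [update_comm e, update_of_ne h7.1, update_of_ne h7.2]
  have h3 := hD (fun n => if n ∈ I a' then β n else 0)
    (fun n => by
      split_ifs
      exacts [abs_prod_jac _ _ _, by simp])
    fun n hn => ho a' n (by_contra fun h' => hn (if_neg h'))
  refine le_trans ?_ (mul_le_mul_of_nonneg_left ((sum_le_sum_of_subset_of_nonneg (h a)
    fun _ _ _ => by positivity).trans h3) (w_nonneg p))
  rw [mul_sum]
  refine (abs_sum_le_sum_abs _ _).trans (sum_le_sum fun m _ => ?_)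
  have h4 : ∑ n ∈ I a', w (update (update p a m) a' n) * ∏ e ∈ S,
      (jacobiSym (update (update p a m) a' n e.1) (update (update p a m) a' n e.2) : ℝ) =
      α m * (w p * (1 / m * ∑ n ∈ Ioc Y Z, (if n ∈ I a' then β n else 0) * jacobiSym m n / n)) := by
    simp only [ite_mul, zero_mul, ite_div, zero_div, sum_ite_mem, inter_eq_right.2 (h a'), mul_sum]
    refine sum_congr rfl fun n _ => ?_
    rw [key, w_update (by rw [update_of_ne e.symm, h2]), w_update h1]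
    ring
  rw [h4, abs_mul, abs_mul, abs_mul, abs_of_nonneg (w_nonneg p),
    abs_of_nonneg (by positivity : (0 : ℝ) ≤ 1 / m)]
  exact mul_le_of_le_one_left (mul_nonneg (w_nonneg p) (by positivity)) (abs_prod_jac _ _ _)

theorem point (E : Finset (ι × ι)) (p : ι → ℕ) (hp : ∀ a, (p a).Prime) :
    (∏ e ∈ E, (1 + (jacobiSym (p e.1) (p e.2) : ℝ))) / 2 ^ E.card -
      ∑ e ∈ E, (if p e.1 = p e.2 then (1 : ℝ) else 0) ≤
      if ∀ e ∈ E, jacobiSym (p e.1) (p e.2) = 1 then 1 else 0 := by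
  have h1 : (∏ e ∈ E, (1 + (jacobiSym (p e.1) (p e.2) : ℝ))) / 2 ^ E.card ≤ 1 := by
    rw [div_le_one (by positivity), ← prod_const]
    refine prod_le_prod (fun e _ => ?_) fun e _ => ?_
    · linarith [(abs_le.1 (abs_jac (p e.1) (p e.2))).1]
    · linarith [(abs_le.1 (abs_jac (p e.1) (p e.2))).2]
  have h2 : ∀ e ∈ E, (0 : ℝ) ≤ if p e.1 = p e.2 then 1 else 0 := fun e _ => by positivity
  split_ifs with h
  · linarith [sum_nonneg h2]
  push Not at h
  obtain ⟨e, he, h⟩ := h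
  by_cases h3 : p e.1 = p e.2
  · have := single_le_sum h2 he
    rw [if_pos h3] at this
    linarith
  · have h4 : jacobiSym (p e.1) (p e.2) = -1 := (jacobiSym.eq_one_or_neg_one (by
      simpa using (Nat.coprime_primes (hp _) (hp _)).2 h3)).resolve_left h
    rw [prod_eq_zero he (by simp [h4]), zero_div]
    linarith [sum_nonneg h2]

/-- the mass of the words with trivial symbols -/
theorem good [LinearOrder ι] {D : ℝ} (hY : 2 ≤ Y) (hZ : 1 ≤ Z) (h : ∀ a, I a ⊆ Ioc Y Z)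
    (hp : ∀ a, ∀ x ∈ I a, x.Prime)
    (hD : ∀ b : ℕ → ℝ, (∀ n, |b n| ≤ 1) → (∀ n, b n ≠ 0 → Odd n) →
      ∑ m ∈ Ioc Y Z, (1 : ℝ) / m * |∑ n ∈ Ioc Y Z, b n * jacobiSym m n / n| ≤ D)
    {E : Finset (ι × ι)} (hE : ∀ e ∈ E, e.1 < e.2) :
    (∑ p ∈ Fintype.piFinset I, w p) / 2 ^ E.card -
      (1 + Real.log Z) ^ Fintype.card ι * (D + E.card * (1 / Y)) ≤
      ∑ p ∈ (Fintype.piFinset I).filter (fun p => ∀ e ∈ E, jacobiSym (p e.1) (p e.2) = 1), w p := by
  have hD0 : 0 ≤ D := le_trans (sum_nonneg fun _ _ => by positivity) (hD 0 (by simp) (by simp))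
  set M := (1 + Real.log Z) ^ Fintype.card ι
  have hM : 0 ≤ M := pow_nonneg (by linarith [Real.log_natCast_nonneg Z]) _
  have h1 : ∑ p ∈ Fintype.piFinset I, w p - 2 ^ E.card * (M * D) ≤
      ∑ p ∈ Fintype.piFinset I, w p * ∏ e ∈ E, (1 + (jacobiSym (p e.1) (p e.2) : ℝ)) := by
    simp only [prod_one_add, mul_sum]
    rw [sum_comm, ← add_sum_erase _ _ (empty_mem_powerset E)]
    simp only [prod_empty, mul_one]
    have h2 := card_nsmul_le_sum (E.powerset.erase ∅) _ (-(M * D)) fun S hS =>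
      (abs_le.1 (osc hZ h (fun a x hx => (hp a x hx).odd_of_ne_two (by
        have := (mem_Ioc.1 (h a hx)).1
        omega)) hD (fun e he => hE e (mem_powerset.1 (mem_of_mem_erase hS) he))
        (nonempty_iff_ne_empty.2 (ne_of_mem_erase hS)))).1
    have h3 : ((E.powerset.erase ∅).card : ℝ) ≤ 2 ^ E.card := by
      exact_mod_cast card_erase_le.trans (card_powerset E).le
    rw [nsmul_eq_mul] at h2
    nlinarith [mul_nonneg hM hD0]
  have h2 : ∑ p ∈ Fintype.piFinset I, w p * ∑ e ∈ E, (if p e.1 = p e.2 then (1 : ℝ) else 0) ≤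
      E.card * (M * (1 / Y)) := by
    simp only [mul_sum]
    rw [sum_comm, ← nsmul_eq_mul]
    exact sum_le_card_nsmul _ _ _ fun e he => diag (by omega) hZ h (hE e he).ne
  have h3 := sum_le_sum fun p (hp' : p ∈ Fintype.piFinset I) => mul_le_mul_of_nonneg_left
    (point E p fun a => hp a _ (Fintype.mem_piFinset.1 hp' a)) (w_nonneg p)
  simp only [mul_sub, sum_sub_distrib, ← mul_div_assoc, ← sum_div] at h3
  have h4 := div_le_div_of_nonneg_right h1 (by positivity : (0 : ℝ) ≤ 2 ^ E.card)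
  rw [sub_div, mul_div_cancel_left₀ _ (by positivity)] at h4
  rw [sum_filter]
  simp only [mul_ite, mul_one, mul_zero] at h3 h2
  nlinarith

theorem small (N : ℕ) {A ε : ℝ} (hA : 0 ≤ A) (hε : 0 < ε) :
    ∀ᶠ Y : ℕ in atTop, (1 + A * Real.log Y) ^ N * (Y : ℝ) ^ (-(1 / 8) : ℝ) ≤ ε := by
  have h1 := (isLittleO_log_rpow_rpow_atTop (N : ℝ) (by norm_num : (0 : ℝ) < 1 / 8)).bound
    (by positivity : 0 < ε / (1 + A) ^ N)
  filter_upwards [tendsto_natCast_atTop_atTop.eventually h1,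
    (Real.tendsto_log_atTop.comp tendsto_natCast_atTop_atTop).eventually_ge_atTop 1,
    eventually_gt_atTop 0] with Y h2 h3 h4
  have h5 : (0 : ℝ) < Y := by exact_mod_cast h4
  have h6 : (1 : ℝ) ≤ Real.log Y := h3
  rw [Real.norm_of_nonneg (by positivity), Real.norm_of_nonneg (by positivity), Real.rpow_natCast,
    div_mul_eq_mul_div, le_div_iff₀ (by positivity), ← mul_pow] at h2
  rw [Real.rpow_neg h5.le, ← div_eq_mul_inv, div_le_iff₀ (by positivity)]
  exact (pow_le_pow_left₀ (by positivity) (by nlinarith) N).trans h2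

theorem card_le {m : ℕ} (G : Finset (Fin m → ℕ)) (h : ∀ p ∈ G, ∀ a, (p a).Prime) :
    G.card ≤ m ^ m * (G.image fun p => ∏ a, p a).card := by
  refine card_le_mul_card_image _ _ fun l hl => ?_
  obtain ⟨p, hp, rfl⟩ := mem_image.1 hl
  refine (card_le_card (t := Fintype.piFinset fun _ => univ.image p) fun r hr =>
    Fintype.mem_piFinset.2 fun a => ?_).trans ?_
  · obtain ⟨h1, h2⟩ := mem_filter.1 hr
    obtain ⟨b, -, hb⟩ := (Prime.dvd_finsetProd_iff (h r h1 a).prime p).1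
      (h2 ▸ dvd_prod_of_mem r (mem_univ a))
    exact mem_image.2 ⟨b, mem_univ b, ((Nat.prime_dvd_prime_iff_eq (h r h1 a) (h p hp b)).1 hb).symm⟩
  · rw [Fintype.card_piFinset, prod_const, card_univ, Fintype.card_fin]
    exact Nat.pow_le_pow_left (card_image_le.trans (by simp)) _

end Den

open Den in
theorem den : DOStmt → MAPStmt → DENStmt := by
  classical
  rintro ⟨C, hC⟩ hM m q K b hq hb
  set L := max K 2 with hL
  let κ : Fin (m + 1) → ℕ := Fin.cases L fun _ => 1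
  have hκ : ∀ a, 1 ≤ κ a ∧ κ a ≤ L := fun a => by
    refine Fin.cases ?_ (fun _ => ?_) a <;> simp [κ] <;> omega
  choose c hc hc' using fun a => hM q (b a) (κ a) hq (hb a) (hκ a).1
  let E : Finset (Fin (m + 1) × Fin (m + 1)) := univ.filter fun e => e.1 < e.2
  set μ : ℝ := (∏ a, c a) / 2 ^ E.card / 2 with hμ
  have hμ0 : 0 < μ := by
    have := prod_pos fun a (_ : a ∈ univ) => hc a
    positivity
  set K' := (L + 1) * (m + 1) + 1 with hK'
  refine ⟨μ / (2 * (m + 1) ^ (m + 1) * (2 * K' + 1)), K', by positivity, ?_⟩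
  filter_upwards [eventually_all.2 hc', eventually_ge_atTop 3,
    small (m + 1 + C) (A := 2 * (L + 1)) (ε := μ / (C + E.card + 1)) (by positivity)
      (by positivity)] with Y h1 h2 h3
  set I := fun a => (Ioc (Y ^ κ a) (Y ^ (κ a + 1))).filter fun p => p.Prime ∧ p ≡ b a [MOD q]
  have hY : (3 : ℝ) ≤ Y := by exact_mod_cast h2
  have hlY : 1 ≤ Real.log Y := by
    rw [Real.le_log_iff_exp_le (by positivity)]
    linarith [Real.exp_one_lt_d9]
  have hI : ∀ a, I a ⊆ Ioc Y (Y ^ (L + 1)) := fun a x hx => by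
    obtain ⟨h4, h5⟩ := mem_Ioc.1 (mem_filter.1 hx).1
    exact mem_Ioc.2 ⟨(Nat.le_self_pow (by have := (hκ a).1; omega) Y).trans_lt h4,
      h5.trans (Nat.pow_le_pow_right (by omega) (by have := (hκ a).2; omega))⟩
  have h4 := good (by omega) (Nat.one_le_pow _ _ (by omega)) hI
    (fun a x hx => (mem_filter.1 hx).2.1)
    (fun β k1 k2 => hC Y _ Y _ β (by omega) (by omega) k1 k2) (E := E)
    fun e he => (mem_filter.1 he).2
  set G := (Fintype.piFinset I).filter fun p => ∀ e ∈ E, jacobiSym (p e.1) (p e.2) = 1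
  have h5 : μ ≤ ∑ p ∈ G, w p := by
    refine le_trans ?_ h4
    have k1 : ∏ a, c a ≤ ∑ p ∈ Fintype.piFinset I, w p := by
      rw [mass]
      exact prod_le_prod (fun a _ => (hc a).le) fun a _ => h1 a
    have k2 := div_le_div_of_nonneg_right k1 (by positivity : (0 : ℝ) ≤ 2 ^ E.card)
    rw [min_self, Fintype.card_fin, Nat.cast_pow, Real.log_pow]
    push_cast
    set t := (Y : ℝ) ^ (-(1 / 8) : ℝ)
    set u := ((L : ℝ) + 1) * Real.log Y with hu
    have k3 : 0 ≤ u := by positivity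
    have k4 : 1 / (Y : ℝ) ≤ (1 + u + u) ^ C * t := by
      rw [one_div, ← Real.rpow_neg_one]
      exact (Real.rpow_le_rpow_of_exponent_le (by linarith) (by norm_num)).trans
        (le_mul_of_one_le_left (by positivity) (one_le_pow₀ (by linarith)))
    have k5 : (1 + u) ^ (m + 1) ≤ (1 + u + u) ^ (m + 1) :=
      pow_le_pow_left₀ (by positivity) (by linarith) _
    rw [show 1 + 2 * ((L : ℝ) + 1) * Real.log Y = 1 + u + u by rw [hu]; ring, pow_add,
      le_div_iff₀ (by positivity)] at h3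
    have k6 : (1 + u) ^ (m + 1) * (C * (1 + u + u) ^ C * t + E.card * (1 / Y)) ≤
        (1 + u + u) ^ (m + 1) * ((1 + u + u) ^ C * t * (C + E.card + 1)) := by
      refine mul_le_mul k5 ?_ (by positivity) (by positivity)
      have k7 := mul_le_mul_of_nonneg_left k4 (Nat.cast_nonneg E.card)
      have k8 : 0 ≤ (1 + u + u) ^ C * t := by positivity
      nlinarith
    nlinarith
  have hG : ∀ p ∈ G, ∀ a, p a ∈ I a := fun p hp => Fintype.mem_piFinset.1 (mem_filter.1 hp).1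
  have hG1 : ∀ p ∈ G, ∀ a, p a ≤ ∏ a, p a := fun p hp a =>
    single_le_prod' (fun a _ => (mem_filter.1 (hG p hp a)).2.1.one_le) (mem_univ a)
  have hG2 : ∀ p ∈ G, Y ^ L < p 0 := fun p hp => (mem_Ioc.1 (mem_filter.1 (hG p hp 0)).1).1
  have hG3 : ∀ p ∈ G, 2 ^ Nat.clog 2 (∏ a, p a) ≤ 2 * ∏ a, p a := fun p hp => by
    have k1 : 1 < ∏ a, p a := (mem_filter.1 (hG p hp 0)).2.1.one_lt.trans_le (hG1 p hp 0)
    have k2 := Nat.pow_pred_clog_lt_self one_lt_two k1
    have k3 := Nat.clog_pos one_lt_two k1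
    rw [← Nat.succ_pred_eq_of_pos k3, pow_succ]
    omega
  have hT : ((range (Nat.log 2 (Y ^ K') + 1)).card : ℝ) ≤ (2 * K' + 1) * Real.log Y := by
    have k1 : ((2 ^ Nat.log 2 (Y ^ K') : ℕ) : ℝ) ≤ ((Y ^ K' : ℕ) : ℝ) :=
      Nat.cast_le.2 (Nat.pow_log_le_self 2 (by positivity))
    have k2 := Real.log_le_log (by positivity) k1
    rw [Nat.cast_pow, Nat.cast_pow, Real.log_pow, Real.log_pow, Nat.cast_ofNat] at k2
    rw [card_range]
    push_cast
    have k3 : (0 : ℝ) ≤ Nat.log 2 (Y ^ K') := Nat.cast_nonneg _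
    nlinarith [Real.log_two_gt_d9]
  obtain ⟨i, hi, h6⟩ := exists_le_sum_fiber_of_maps_to_of_nsmul_le_sum (s := G) (w := w)
    (t := range (Nat.log 2 (Y ^ K') + 1)) (f := fun p => Nat.clog 2 (∏ a, p a))
    (b := μ / ((2 * K' + 1) * Real.log Y)) (fun p hp => by
      refine mem_range.2 (Nat.lt_succ_of_le (Nat.le_log_of_pow_le one_lt_two
        ((hG3 p hp).trans ?_)))
      have k1 := prod_le_pow_card univ p (Y ^ (L + 1)) fun a _ => (mem_Ioc.1 (hI a (hG p hp a))).2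
      rw [card_univ, Fintype.card_fin, ← pow_mul] at k1
      rw [hK', pow_succ, mul_comm]
      exact Nat.mul_le_mul k1 (by omega)) nonempty_range_add_one (by
      rw [nsmul_eq_mul, ← mul_div_assoc, div_le_iff₀ (by positivity)]
      nlinarith [mul_le_mul h5 hT (Nat.cast_nonneg _) (hμ0.le.trans h5)])
  set F := G.filter fun p => Nat.clog 2 (∏ a, p a) = i
  have hF : ∀ p ∈ F, ∏ a, p a ≤ 2 ^ i := fun p hp =>
    (mem_filter.1 hp).2 ▸ Nat.le_pow_clog one_lt_two _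
  obtain ⟨p₀, hp₀⟩ : F.Nonempty := nonempty_iff_ne_empty.2 fun e => by
    rw [e, sum_empty] at h6
    exact absurd h6 (not_le.2 (by positivity))
  have hX : Y ^ L ≤ 2 ^ i := (hG2 _ (mem_filter.1 hp₀).1).le.trans
    ((hG1 _ (mem_filter.1 hp₀).1 0).trans (hF _ hp₀))
  have hW : F ⊆ Wd q b Y (2 ^ i) := fun p hp => by
    have k1 := (mem_filter.1 hp).1
    refine mem_filter.2 ⟨Fintype.mem_piFinset.2 fun a => mem_Icc.2
      ⟨(mem_filter.1 (hG p k1 a)).2.1.one_le, (hG1 p k1 a).trans (hF p hp)⟩,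
      fun a => (mem_filter.1 (hG p k1 a)).2,
      (Nat.pow_le_pow_right (by omega) (le_max_right K 2)).trans_lt (hG2 p k1), fun a => ?_,
      fun a a' k2 => (mem_filter.1 k1).2 (a, a') (mem_filter.2 ⟨mem_univ _, k2⟩), hF p hp⟩
    simpa [κ] using mem_Ioc.1 (mem_filter.1 (hG p k1 a.succ)).1
  refine ⟨2 ^ i, (Nat.pow_le_pow_right (by omega) (le_max_left K 2)).trans hX,
    Nat.pow_le_of_le_log (by positivity) (Nat.lt_succ_iff.1 (mem_range.1 hi)), ?_⟩
  have h7 : ∑ p ∈ F, w p ≤ F.card * (2 / ((2 ^ i : ℕ) : ℝ)) := by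
    rw [← nsmul_eq_mul]
    refine sum_le_card_nsmul _ _ _ fun p hp => ?_
    have k1 := hG3 p (mem_filter.1 hp).1
    rw [(mem_filter.1 hp).2] at k1
    have k2 : ((2 ^ i : ℕ) : ℝ) ≤ ((2 * ∏ a, p a : ℕ) : ℝ) := Nat.cast_le.2 k1
    have k3 : 0 < ∏ a, (p a : ℝ) := by
      push_cast at k2
      linarith [pow_pos (two_pos (α := ℝ)) i]
    rw [w, prod_div_distrib, prod_const_one, div_le_div_iff₀ k3 (by positivity)]
    push_cast at k2 ⊢
    linarith
  have h8 : (F.card : ℝ) ≤ (m + 1) ^ (m + 1) * ((Wd q b Y (2 ^ i)).image fun p => ∏ a, p a).card := by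
    exact_mod_cast (card_le_card hW).trans (card_le _ fun p hp a => ((mem_filter.1 hp).2.1 a).1)
  have h9 : Real.log Y ≤ Real.log (2 ^ i : ℕ) := Real.log_le_log (by positivity)
    (Nat.cast_le.2 ((Nat.le_self_pow (by omega) Y).trans hX))
  set X : ℝ := ((2 ^ i : ℕ) : ℝ)
  have hX0 : 0 < X := by positivity
  have h10 := h6.trans (h7.trans (mul_le_mul_of_nonneg_right h8 (by positivity)))
  refine (div_le_div_of_nonneg_left (by positivity) (by positivity) h9).trans ?_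
  calc _ = μ / ((2 * K' + 1) * Real.log Y) * (X / (2 * (m + 1) ^ (m + 1))) := by field_simp
    _ ≤ _ := mul_le_mul_of_nonneg_right h10 (by positivity)
    _ = _ := by field_simp

end Pool.Agent.MP_a43263_nt.G7

end
end MrgPart2

-- ======== part 3: formerly Pool.Agent.MP_a43263_nt.G7.KeyA
section MrgPart3

/-! PROJECT GT7, part B, module KEY: parametrisation of the tuples with frozen data. -/

set_option autoImplicit false

noncomputable section

namespace Pool.Agent.MP_a43263_nt.G7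

open Finset Filter

variable {n m : ℕ}

namespace KEY

section Word

variable {q Y X : ℕ} {b p : Fin (m + 1) → ℕ}

theorem wd_prime (h : p ∈ Wd q b Y X) (a : Fin (m + 1)) : (p a).Prime :=
  ((mem_filter.1 h).2.1 a).1

theorem wd_mod (h : p ∈ Wd q b Y X) (a : Fin (m + 1)) : p a ≡ b a [MOD q] :=
  ((mem_filter.1 h).2.1 a).2

theorem wd_med (h : p ∈ Wd q b Y X) (a : Fin m) : Y < p a.succ ∧ p a.succ ≤ Y ^ 2 :=
  (mem_filter.1 h).2.2.2.1 a

theorem wd_le (h : p ∈ Wd q b Y X) : ∏ a, p a ≤ X := (mem_filter.1 h).2.2.2.2.2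

theorem wd_lt (h : p ∈ Wd q b Y X) (a : Fin (m + 1)) : Y < p a := by
  refine Fin.cases ?_ (fun a => (wd_med h a).1) a
  exact (Nat.le_self_pow two_ne_zero Y).trans_lt (mem_filter.1 h).2.2.1

theorem wd_big (h : p ∈ Wd q b Y X) {t : ℕ} (ht : t.Prime) (hd : t ∣ ∏ a, p a) : Y < t := by
  obtain ⟨a, -, ha⟩ := ht.prime.exists_mem_finset_dvd hd
  rw [(Nat.prime_dvd_prime_iff_eq ht (wd_prime h a)).1 ha]
  exact wd_lt h a

theorem wd_cop (h : p ∈ Wd q b Y X) {a a' : Fin (m + 1)} (hne : a ≠ a') : (p a).Coprime (p a') := by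
  wlog hl : a < a' generalizing a a'
  · exact (this hne.symm (lt_of_le_of_ne (not_lt.1 hl) hne.symm)).symm
  have h1 := (mem_filter.1 h).2.2.2.2.1 a a' hl
  have : NeZero (p a') := ⟨(wd_prime h a').ne_zero⟩
  by_contra hc
  rw [jacobiSym.eq_zero_iff_not_coprime.2 (by simpa using hc)] at h1
  exact zero_ne_one h1

theorem wd_prod (h : p ∈ Wd q b Y X) : ∏ a, p a ≡ ∏ a, b a [MOD q] :=
  Nat.ModEq.prod fun a _ => wd_mod h a

end Word

open Classical in
theorem mem_TT {D : Dat n m} {Y X : ℕ} {p : Fin n → Fin (m + 1) → ℕ} : p ∈ TT D Y X ↔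
    (∀ j, p j ∈ Wd (8 * D.M) D.b Y X) ∧ (∃ x d : ℤ, ∀ j, (vl p j : ℤ) = x + D.e j * d) ∧
      ∀ j k, j ≠ k → (vl p j).Coprime (vl p k) := by
  rw [TT, mem_filter, Fintype.mem_piFinset]

/-- the frozen data -/
structure KD (n m : ℕ) where
  D : Dat n m
  Y : ℕ
  X : ℕ
  N : ℕ
  u : Sl n m
  v : Sl n m
  cu : Fin m → ℕ
  cv : Fin m → ℕ

namespace KD

variable (E : KD n m)

def wd : Finset (Fin (m + 1) → ℕ) := Wd (8 * E.D.M) E.D.b E.Y E.X

def S : Finset (Fin n → Fin (m + 1) → ℕ) :=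
  (TT E.D E.Y E.X).filter fun p => (∀ a, a ≠ E.u.2 → md p (E.u.1, a) = E.cu a) ∧
    (∀ a, a ≠ E.v.2 → md p (E.v.1, a) = E.cv a) ∧ E.N < md p E.v ∧ md p E.v ≤ 2 * E.N

def mg : ℕ := ∏ a ∈ univ.erase E.u.2, E.cu a

def mf : ℕ := ∏ a ∈ univ.erase E.v.2, E.cv a

def dl : ℤ := E.D.e E.u.1 - E.D.e E.v.1

def al (h : Fin n) : ℤ := (E.D.e E.u.1 - E.D.e h) * E.mf

def be (h : Fin n) : ℤ := (E.D.e h - E.D.e E.v.1) * E.mg

def mu (t : ℕ) (ω : Sl n m → ℕ) (w : Sl n m) : ℕ :=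
  if w = E.v then t else if w.1 = E.u.1 then E.cu w.2 else if w.1 = E.v.1 then E.cv w.2 else ω w

def om (p : Fin n → Fin (m + 1) → ℕ) (w : Sl n m) : ℕ :=
  if w.1 = E.u.1 ∨ w.1 = E.v.1 then 1 else md p w

def rr (p : Fin n → Fin (m + 1) → ℕ) : ℕ := p E.v.1 0

def qq (p : Fin n → Fin (m + 1) → ℕ) : ℕ := p E.u.1 0 * md p E.u

open Classical in
def W : Finset (Sl n m → ℕ) :=
  (Fintype.piFinset fun _ => Icc 1 (E.Y ^ 2)).filter fun ω =>
    (∀ w, ω w = 1 ∨ ((ω w).Prime ∧ E.Y < ω w ∧ ¬ω w ∣ E.mg)) ∧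
    (∀ w : Sl n m, w.1 = E.u.1 ∨ w.1 = E.v.1 → ω w = 1) ∧ ∀ w w', w ≠ w' → (ω w).Coprime (ω w')

def P : Finset ℕ := (Ioc E.Y (E.Y ^ 2)).filter fun s => s.Prime ∧ ¬s ∣ E.mf

def IA (r q s : ℕ) : Prop :=
  (Fin.cons (q / s) fun a => if a = E.u.2 then s else E.cu a : Fin (m + 1) → ℕ) ∈ E.wd ∧
    (E.mf * r).Coprime (E.mg * q)

def IP (t : ℕ) (ω : Sl n m → ℕ) (h : Fin n) (z : ℤ) : Prop :=
  ∃ c : ℕ, (Fin.cons c fun a => E.mu t ω (h, a) : Fin (m + 1) → ℕ) ∈ E.wd ∧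
    z = E.dl * (c * ∏ a, E.mu t ω (h, a) : ℕ)

structure Ok : Prop where
  sys : E.D.Ok
  ne : E.u.1 ≠ E.v.1
  hM : E.D.M ≤ E.Y
  hN : 0 < E.N

variable {E} {p : Fin n → Fin (m + 1) → ℕ}

theorem Ok.nd (hE : E.Ok) {t : ℕ} (ht : E.Y < t) {j k : Fin n} (h : j ≠ k) :
    ¬(t : ℤ) ∣ (E.D.e j : ℤ) - E.D.e k := fun hd => by
  have := Nat.le_of_dvd hE.sys.pos (Int.natCast_dvd_natCast.1 (hd.trans (hE.sys.dv j k h)))
  have := hE.hM
  omega

theorem Ok.dl_ne (hE : E.Ok) : E.dl ≠ 0 :=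
  sub_ne_zero.2 fun h => hE.ne (hE.sys.inj (by exact_mod_cast h))

theorem S_wd (h : p ∈ E.S) (j : Fin n) : p j ∈ E.wd :=
  (mem_TT.1 (mem_filter.1 h).1).1 j

theorem S_lin (h : p ∈ E.S) : ∃ x d : ℤ, ∀ j, (vl p j : ℤ) = x + E.D.e j * d :=
  (mem_TT.1 (mem_filter.1 h).1).2.1

theorem S_cop (h : p ∈ E.S) {j k : Fin n} (hne : j ≠ k) : (vl p j).Coprime (vl p k) :=
  (mem_TT.1 (mem_filter.1 h).1).2.2 j k hne

theorem md_dvd (p : Fin n → Fin (m + 1) → ℕ) (w : Sl n m) : md p w ∣ vl p w.1 :=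
  dvd_prod_of_mem _ (mem_univ _)

theorem md_prime (h : p ∈ E.S) (w : Sl n m) : (md p w).Prime := wd_prime (S_wd h _) _

theorem md_lt (h : p ∈ E.S) (w : Sl n m) : E.Y < md p w ∧ md p w ≤ E.Y ^ 2 := wd_med (S_wd h _) _

theorem md_cop (h : p ∈ E.S) {w w' : Sl n m} (hne : w ≠ w') : (md p w).Coprime (md p w') := by
  by_cases h1 : w.1 = w'.1
  · have := wd_cop (S_wd h w.1) (a := w.2.succ) (a' := w'.2.succ)
      fun e => hne (Prod.ext h1 (Fin.succ_injective _ e))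
    rwa [md, md, ← h1]
  · exact ((S_cop h h1).of_dvd_left (md_dvd p w)).of_dvd_right (md_dvd p w')

theorem md_u (h : p ∈ E.S) {w : Sl n m} (h1 : w ≠ E.u) (h2 : w.1 = E.u.1) : md p w = E.cu w.2 := by
  rw [← (mem_filter.1 h).2.1 w.2 fun e => h1 (Prod.ext h2 e), ← h2]

theorem md_v (h : p ∈ E.S) {w : Sl n m} (h1 : w ≠ E.v) (h2 : w.1 = E.v.1) : md p w = E.cv w.2 := by
  rw [← (mem_filter.1 h).2.2.1 w.2 fun e => h1 (Prod.ext h2 e), ← h2]

theorem md_eq (h : p ∈ E.S) {w : Sl n m} (h1 : w ≠ E.u) : md p w = E.mu (md p E.v) (E.om p) w := by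
  unfold mu
  split_ifs with a1 a2 a3
  · rw [a1]
  · exact md_u h h1 a2
  · exact md_v h a1 a3
  · rw [om, if_neg (by tauto)]

theorem vl_eq (p : Fin n → Fin (m + 1) → ℕ) (w : Sl n m) :
    vl p w.1 = p w.1 0 * (md p w * ∏ a ∈ univ.erase w.2, md p (w.1, a)) := by
  rw [vl, Fin.prod_univ_succ, mul_prod_erase univ (fun a => md p (w.1, a)) (mem_univ w.2)]
  rfl

theorem mg_eq (h : p ∈ E.S) : E.mg = ∏ a ∈ univ.erase E.u.2, md p (E.u.1, a) :=
  prod_congr rfl fun a ha => ((mem_filter.1 h).2.1 a (ne_of_mem_erase ha)).symm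

theorem mf_eq (h : p ∈ E.S) : E.mf = ∏ a ∈ univ.erase E.v.2, md p (E.v.1, a) :=
  prod_congr rfl fun a ha => ((mem_filter.1 h).2.2.1 a (ne_of_mem_erase ha)).symm

theorem vl_u (h : p ∈ E.S) : vl p E.u.1 = E.mg * E.qq p := by
  rw [vl_eq, ← mg_eq h, qq]
  ring

theorem vl_v (h : p ∈ E.S) : vl p E.v.1 = md p E.v * (E.mf * E.rr p) := by
  rw [vl_eq, ← mf_eq h, rr]
  ring

theorem vl_lin (h : p ∈ E.S) (j : Fin n) :
    E.al j * md p E.v * E.rr p + E.be j * E.qq p = E.dl * vl p j := by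
  obtain ⟨x, d, hx⟩ := S_lin h
  have h1 := hx E.u.1
  have h2 := hx E.v.1
  rw [vl_u h] at h1
  rw [vl_v h] at h2
  push_cast at h1 h2
  rw [al, be, dl, hx j]
  linear_combination ((E.D.e E.u.1 : ℤ) - E.D.e j) * h2 + ((E.D.e j : ℤ) - E.D.e E.v.1) * h1

theorem vl_pos (h : p ∈ E.S) (j : Fin n) : 0 < vl p j :=
  prod_pos fun a _ => (wd_prime (S_wd h j) a).pos

theorem word_eq (h : p ∈ E.S) {j : Fin n} (hj : j ≠ E.u.1) :
    (Fin.cons (p j 0) fun a => E.mu (md p E.v) (E.om p) (j, a) : Fin (m + 1) → ℕ) = p j := by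
  funext a
  refine Fin.cases rfl (fun a => ?_) a
  exact (md_eq h (w := (j, a)) fun e => hj (congrArg Prod.fst e)).symm

theorem word_u (h : p ∈ E.S) : (Fin.cons (E.qq p / md p E.u)
    fun a => if a = E.u.2 then md p E.u else E.cu a : Fin (m + 1) → ℕ) = p E.u.1 := by
  funext a
  refine Fin.cases (Nat.mul_div_cancel _ (md_prime h _).pos) (fun a => ?_) a
  rw [Fin.cons_succ]
  split_ifs with h1
  · rw [h1]
    rfl
  · exact ((mem_filter.1 h).2.1 a h1).symm

theorem S_IP (h : p ∈ E.S) {j : Fin n} (hj : j ≠ E.u.1) :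
    E.IP (md p E.v) (E.om p) j (E.al j * md p E.v * E.rr p + E.be j * E.qq p) := by
  refine ⟨p j 0, by rw [word_eq h hj]; exact S_wd h j, ?_⟩
  rw [vl_lin h, vl, ← word_eq h hj, Fin.prod_univ_succ]
  rfl

theorem S_IA (hE : E.Ok) (h : p ∈ E.S) : E.IA (E.rr p) (E.qq p) (md p E.u) := by
  refine ⟨by rw [word_u h]; exact S_wd h _, ?_⟩
  have := S_cop h hE.ne.symm
  rw [vl_u h, vl_v h] at this
  exact this.of_dvd_left (dvd_mul_left _ _)

theorem S_IB (hE : E.Ok) (h : p ∈ E.S) : (md p E.v).Coprime E.mg := by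
  have := (S_cop h hE.ne.symm).of_dvd_left (md_dvd p E.v)
  rw [vl_u h] at this
  exact this.of_dvd_right (dvd_mul_right _ _)

theorem S_per (hE : E.Ok) (h : p ∈ E.S) :
    IsCoprime (E.qq p : ℤ) (md p E.v * (∏ w, E.om p w : ℕ)) := by
  have h1 : ∀ w : Sl n m, w.1 ≠ E.u.1 → (E.qq p).Coprime (md p w) := fun w hw => by
    have := (S_cop h hw.symm).of_dvd_right (md_dvd p w)
    rw [vl_u h] at this
    exact this.of_dvd_left (dvd_mul_left _ _)
  rw [← Nat.cast_mul, Nat.isCoprime_iff_coprime]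
  refine (h1 _ hE.ne.symm).mul_right (Nat.Coprime.prod_right fun w _ => ?_)
  unfold om
  split_ifs with h2
  · simp
  · exact h1 w fun e => h2 (.inl e)

theorem S_W (h : p ∈ E.S) : E.om p ∈ E.W := by
  have h0 := md_lt h E.u
  refine mem_filter.2 ⟨Fintype.mem_piFinset.2 fun w => ?_, fun w => ?_, fun w hw => if_pos hw,
    fun w w' hne => ?_⟩ <;> unfold om
  · have := md_lt h w
    split_ifs <;> rw [mem_Icc] <;> omega
  · split_ifs with h2
    · exact .inl rfl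
    · refine .inr ⟨md_prime h w, (md_lt h w).1, fun hd => ?_⟩
      have := (S_cop h fun e => h2 (.inl e)).of_dvd_left (md_dvd p w)
      rw [vl_u h] at this
      exact (md_prime h w).coprime_iff_not_dvd.1 this (hd.mul_right _)
  · split_ifs
    any_goals simp
    exact md_cop h hne

theorem S_P (hE : E.Ok) (h : p ∈ E.S) : md p E.u ∈ E.P := by
  refine mem_filter.2 ⟨mem_Ioc.2 (md_lt h _), md_prime h _, fun hd => ?_⟩
  have := (S_cop h hE.ne).of_dvd_left (md_dvd p E.u)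
  rw [vl_v h] at this
  exact (md_prime h _).coprime_iff_not_dvd.1 this ((hd.mul_right _).mul_left _)

theorem S_rr (hE : E.Ok) (h : p ∈ E.S) : E.rr p ∈ Icc 1 (E.X / (E.mf * E.N)) := by
  have h1 := vl_pos h E.v.1
  have h2 : vl p E.v.1 ≤ E.X := wd_le (S_wd h _)
  rw [vl_v h] at h1 h2
  have h3 := Nat.pos_of_mul_pos_left h1
  refine mem_Icc.2 ⟨Nat.pos_of_mul_pos_left h3, (Nat.le_div_iff_mul_le
    (Nat.mul_pos (Nat.pos_of_mul_pos_right h3) hE.hN)).2 (le_trans ?_ h2)⟩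
  calc E.rr p * (E.mf * E.N) = E.N * (E.mf * E.rr p) := by ring
    _ ≤ _ := Nat.mul_le_mul_right _ (mem_filter.1 h).2.2.2.1.le

theorem S_qq (h : p ∈ E.S) : E.qq p ∈ Icc 1 (E.X / E.mg) := by
  have h1 := vl_pos h E.u.1
  have h2 : vl p E.u.1 ≤ E.X := wd_le (S_wd h _)
  rw [vl_u h] at h1 h2
  exact mem_Icc.2 ⟨Nat.pos_of_mul_pos_left h1, (Nat.le_div_iff_mul_le
    (Nat.pos_of_mul_pos_right h1)).2 (by rwa [mul_comm])⟩

theorem S_inj (hE : E.Ok) {p' : Fin n → Fin (m + 1) → ℕ} (h : p ∈ E.S) (h' : p' ∈ E.S)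
    (h1 : E.rr p = E.rr p') (h2 : E.qq p = E.qq p') (h3 : md p E.u = md p' E.u)
    (h4 : md p E.v = md p' E.v) (h5 : E.om p = E.om p') : p = p' := by
  funext j
  by_cases hj : j = E.u.1
  · rw [hj, ← word_u h, ← word_u h', h2, h3]
  · have a1 : vl p j = vl p' j := by
      have := vl_lin h j
      rw [h1, h2, h4, vl_lin h' j] at this
      exact_mod_cast (mul_left_cancel₀ hE.dl_ne this).symm
    have a2 := vl_pos h j
    have a3 : p j 0 = p' j 0 := by
      rw [vl, vl, ← word_eq h hj, ← word_eq h' hj, Fin.prod_univ_succ, Fin.prod_univ_succ, h4,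
        h5] at a1
      rw [vl, ← word_eq h hj, Fin.prod_univ_succ, h4, h5] at a2
      exact Nat.eq_of_mul_eq_mul_right (Nat.pos_of_mul_pos_left a2) a1
    rw [← word_eq h hj, ← word_eq h' hj, a3, h4, h5]

theorem prod_if (c : Fin m → ℕ) (a₀ : Fin m) (s : ℕ) :
    ∏ a, (if a = a₀ then s else c a) = s * ∏ a ∈ univ.erase a₀, c a := by
  rw [← mul_prod_erase univ _ (mem_univ a₀), if_pos rfl]
  exact congrArg _ (prod_congr rfl fun a ha => if_neg (ne_of_mem_erase ha))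

theorem mu_v (hE : E.Ok) (t : ℕ) (ω : Sl n m → ℕ) (a : Fin m) :
    E.mu t ω (E.v.1, a) = if a = E.v.2 then t else E.cv a := by
  unfold mu
  by_cases h : a = E.v.2
  · rw [if_pos h, if_pos (by rw [h])]
  · rw [if_neg h, if_neg fun e => h (congrArg Prod.snd e), if_neg hE.ne.symm, if_pos rfl]

theorem S_surj (hE : E.Ok) {r q s t : ℕ} {ω : Sl n m → ℕ} (hs : s ∣ q) (ht : t ∈ Ioc E.N (2 * E.N))
    (hω : ω ∈ E.W) (ia : E.IA r q s) (ib : t.Coprime E.mg)
    (ic : IsCoprime (q : ℤ) (t * (∏ w, ω w : ℕ)))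
    (ip : ∀ j, j ≠ E.u.1 → E.IP t ω j (E.al j * t * r + E.be j * q)) :
    ∃ p ∈ E.S, E.rr p = r ∧ E.qq p = q ∧ md p E.u = s ∧ md p E.v = t ∧ E.om p = ω := by
  classical
  choose! c hc hc' using ip
  let p : Fin n → Fin (m + 1) → ℕ := fun j => if j = E.u.1 then
    Fin.cons (q / s) fun a => if a = E.u.2 then s else E.cu a
    else Fin.cons (c j) fun a => E.mu t ω (j, a)
  have pu : p E.u.1 = Fin.cons (q / s) fun a => if a = E.u.2 then s else E.cu a := if_pos rfl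
  have pj : ∀ j, j ≠ E.u.1 → p j = Fin.cons (c j) fun a => E.mu t ω (j, a) := fun j hj => if_neg hj
  have hw : ∀ j, p j ∈ E.wd := fun j => by
    by_cases hj : j = E.u.1
    · rw [hj, pu]
      exact ia.1
    · rw [pj j hj]
      exact hc j hj
  have mu' : ∀ a, md p (E.u.1, a) = if a = E.u.2 then s else E.cu a := fun a => by
    rw [md, pu, Fin.cons_succ]
  have mj : ∀ w : Sl n m, w.1 ≠ E.u.1 → md p w = E.mu t ω w := fun w hw => by
    rw [md, pj _ hw, Fin.cons_succ]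
  have lu : vl p E.u.1 = E.mg * q := by
    rw [vl, pu, Fin.prod_univ_succ]
    simp only [Fin.cons_zero, Fin.cons_succ]
    rw [prod_if, ← mul_assoc, Nat.div_mul_cancel hs, mul_comm, mg]
  have lj : ∀ j, j ≠ E.u.1 → E.al j * t * r + E.be j * q = E.dl * vl p j := fun j hj => by
    rw [hc' j hj, vl, pj j hj, Fin.prod_univ_succ]
    rfl
  have lv : vl p E.v.1 = t * (E.mf * r) := by
    have := lj _ hE.ne.symm
    rw [al, be, sub_self, zero_mul, zero_mul, add_zero, ← dl, mul_assoc, mul_assoc] at this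
    have := mul_left_cancel₀ hE.dl_ne this
    zify
    linear_combination -this
  have lv' : vl p E.v.1 = c E.v.1 * (t * E.mf) := by
    rw [vl, pj _ hE.ne.symm, Fin.prod_univ_succ]
    simp only [Fin.cons_zero, Fin.cons_succ, mu_v hE]
    rw [prod_if, mf]
  have lpos : 0 < vl p E.v.1 := prod_pos fun a _ => (wd_prime (hw _) a).pos
  obtain ⟨d, hd⟩ : E.dl ∣ (vl p E.u.1 : ℤ) - vl p E.v.1 :=
    ((hE.sys.dv _ _ hE.ne).trans (Int.natCast_dvd_natCast.2 (dvd_mul_left _ 8))).trans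
      ((wd_prod (hw _)).trans (wd_prod (hw _)).symm).dvd
  have lin : ∀ j, (vl p j : ℤ) = vl p E.v.1 - E.D.e E.v.1 * d + E.D.e j * d := fun j => by
    by_cases hj : j = E.u.1
    · rw [hj]
      rw [dl] at hd
      linear_combination hd
    · refine mul_left_cancel₀ hE.dl_ne ?_
      rw [← lj j hj, al, be]
      rw [lu, lv] at hd
      rw [lv]
      push_cast at hd ⊢
      rw [dl] at hd ⊢
      linear_combination ((E.D.e j : ℤ) - E.D.e E.v.1) * hd
  have cop : (vl p E.v.1).Coprime (vl p E.u.1) := by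
    rw [lu, lv]
    exact (ib.mul_right (Nat.isCoprime_iff_coprime.1 ic.of_mul_right_left).symm).mul_left ia.2
  refine ⟨p, mem_filter.2 ⟨mem_TT.2 ⟨hw, ⟨_, d, lin⟩, fun j k hne => ?_⟩,
    fun a ha => ?_, fun a ha => ?_, ?_⟩, ?_, ?_, ?_, ?_, ?_⟩
  · refine Nat.Coprime.symm (Nat.coprime_of_dvd fun z hz h1 h2 => ?_)
    have h3 := wd_big (hw j) hz h2
    have h4 := Int.natCast_dvd_natCast.2 h1
    have h5 := Int.natCast_dvd_natCast.2 h2
    have h6 : (z : ℤ) ∣ d := by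
      have := dvd_sub h5 h4
      rw [lin j, lin k, add_sub_add_left_eq_sub, ← sub_mul] at this
      exact ((Nat.prime_iff_prime_int.1 hz).dvd_or_dvd this).resolve_left (hE.nd h3 hne)
    have h7 : ∀ i, z ∣ vl p i := fun i => Int.natCast_dvd_natCast.1 (by
      rw [lin j] at h5
      rw [lin i]
      exact dvd_add ((dvd_add_left (h6.mul_left _)).1 h5) (h6.mul_left _))
    exact hz.coprime_iff_not_dvd.1 (cop.of_dvd_left (h7 _)) (h7 _)
  · rw [mu', if_neg ha]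
  · rw [mj (E.v.1, a) hE.ne.symm, mu_v hE, if_neg ha]
  · rw [mj _ hE.ne.symm, mu, if_pos rfl]
    exact mem_Ioc.1 ht
  · rw [rr, pj _ hE.ne.symm, Fin.cons_zero]
    rw [lv'] at lpos lv
    exact Nat.eq_of_mul_eq_mul_right (Nat.pos_of_mul_pos_left lpos) (by rw [lv]; ring)
  · rw [qq, show md p E.u = s by rw [mu' E.u.2, if_pos rfl], pu, Fin.cons_zero,
      Nat.div_mul_cancel hs]
  · rw [mu' E.u.2, if_pos rfl]
  · rw [mj _ hE.ne.symm, mu, if_pos rfl]
  · funext w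
    unfold om
    split_ifs with h2
    · exact ((mem_filter.1 hω).2.2.1 w h2).symm
    · rw [not_or] at h2
      rw [mj w h2.1, mu, if_neg fun e => h2.2 (by rw [e]), if_neg h2.1, if_neg h2.2]

end KD

end KEY

end Pool.Agent.MP_a43263_nt.G7

end
end MrgPart3

-- ======== part 4: formerly Pool.Agent.MP_a43263_nt.G7.Key
section MrgPart4

/-! PROJECT GT7, part B, module KEY: the shape of a character and the oscillation estimate. -/

set_option autoImplicit false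

noncomputable section

namespace Pool.Agent.MP_a43263_nt.G7

open Finset Filter
open RG (GStmt)

variable {n m : ℕ}

namespace KEY

theorem abs_J (a : ℤ) (b : ℕ) : |jacobiSym a b| ≤ 1 := by
  rcases jacobiSym.trichotomy a b with h | h | h <;> rw [h] <;> simp

theorem abs_mul_le {a b : ℤ} (h : |a| ≤ 1) (h' : |b| ≤ 1) : |a * b| ≤ 1 := by
  rw [abs_mul]; exact mul_le_one₀ h (abs_nonneg _) h'

theorem abs_ite {p : Prop} [Decidable p] {a : ℤ} (h : |a| ≤ 1) :
    |if p then (a : ℝ) else 0| ≤ 1 := by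
  split_ifs
  exacts [by exact_mod_cast h, by simp]

theorem exists_crt {ι : Type} [DecidableEq ι] (X : Finset ι) (ω : ι → ℕ)
    (hc : ∀ b b', b ≠ b' → (ω b).Coprime (ω b')) (a v : ι → ℤ)
    (hv : ∀ b, IsCoprime (ω b : ℤ) (v b)) : ∃ ρ : ℤ, ∀ r q : ℤ,
      (∀ b ∈ X, (ω b : ℤ) ∣ a b * r + v b * q) → q ≡ ρ * r [ZMOD (∏ b ∈ X, ω b : ℕ)] := by
  have h1 : ∃ ρ : ℤ, ∀ b ∈ X, (ω b : ℤ) ∣ a b + v b * ρ := by
    induction X using Finset.induction_on with
    | empty => simp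
    | insert b X hb ih =>
      obtain ⟨ρ, hρ⟩ := ih
      obtain ⟨t, t', ht⟩ : IsCoprime (ω b : ℤ) (v b * ∏ a ∈ X, (ω a : ℤ)) :=
        (hv b).mul_right (IsCoprime.prod_right fun a h =>
          Nat.isCoprime_iff_coprime.2 (hc b a fun e => hb (e ▸ h)))
      refine ⟨ρ - t' * (a b + v b * ρ) * ∏ a ∈ X, (ω a : ℤ), fun b' hb' => ?_⟩
      rcases mem_insert.1 hb' with rfl | hb'
      · exact ⟨t * (a b' + v b' * ρ), by linear_combination (-(a b' + v b' * ρ)) * ht⟩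
      · rw [mul_sub, ← add_sub_assoc]
        exact dvd_sub (hρ b' hb') (((dvd_prod_of_mem _ hb').mul_left _).mul_left _)
  obtain ⟨ρ, hρ⟩ := h1
  refine ⟨ρ, fun r q h => (Int.modEq_iff_dvd.2 ?_)⟩
  rw [Nat.cast_prod]
  refine prod_dvd_of_coprime (fun b _ b' _ e => Nat.isCoprime_iff_coprime.2 (hc b b' e))
    fun b hb => (hv b).dvd_of_dvd_mul_left ?_
  rw [show v b * (ρ * r - q) = (a b + v b * ρ) * r - (a b * r + v b * q) by ring]
  exact dvd_sub ((hρ b hb).mul_right _) (h b hb)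

namespace KD

/-- the shape that the oscillation estimate needs -/
def Fact (E : KD n m) (F : (Fin n → Fin (m + 1) → ℕ) → ℤ) (e : ℕ) : Prop :=
  ∃ (a : ℕ → ℕ → ℕ → ℤ) (b : ℕ → (Sl n m → ℕ) → ℤ) (c : ℕ → (Sl n m → ℕ) → ℤ → ℤ)
    (K : (Sl n m → ℕ) → ℤ), (∀ r q s, |a r q s| ≤ 1) ∧ (∀ t ω, |b t ω| ≤ 1) ∧
    (∀ t ω q, |c t ω q| ≤ 1) ∧ (∀ t ω q, c t ω (q + t * (∏ w, ω w : ℕ)) = c t ω q) ∧
    ∀ p ∈ E.S, F p = a (E.rr p) (E.qq p) (md p E.u) * b (md p E.v) (E.om p) *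
      c (md p E.v) (E.om p) (E.qq p) * jacobiSym (md p E.v ^ e * K (E.om p)) (md p E.u)

variable {E : KD n m} {F G : (Fin n → Fin (m + 1) → ℕ) → ℤ} {e e' : ℕ}

theorem Fact.congr (h : E.Fact G e) (hF : ∀ p ∈ E.S, F p = G p) : E.Fact F e := by
  obtain ⟨a, b, c, K, h1, h2, h3, h4, h5⟩ := h
  exact ⟨a, b, c, K, h1, h2, h3, h4, fun p k => (hF p k).trans (h5 p k)⟩

theorem Fact.mul (h : E.Fact F e) (h' : E.Fact G e') : E.Fact (fun p => F p * G p) (e + e') := by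
  obtain ⟨a, b, c, K, h1, h2, h3, h4, h5⟩ := h
  obtain ⟨a', b', c', K', k1, k2, k3, k4, k5⟩ := h'
  refine ⟨fun r q s => a r q s * a' r q s, fun t ω => b t ω * b' t ω,
    fun t ω q => c t ω q * c' t ω q, fun ω => K ω * K' ω,
    fun _ _ _ => abs_mul_le (h1 _ _ _) (k1 _ _ _), fun _ _ => abs_mul_le (h2 _ _) (k2 _ _),
    fun _ _ _ => abs_mul_le (h3 _ _ _) (k3 _ _ _), fun t ω q => ?_, fun p k => ?_⟩
  · simp only [h4 t ω, k4 t ω]
  · simp only [h5 p k, k5 p k]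
    rw [pow_add, mul_mul_mul_comm (_ ^ e), jacobiSym.mul_left (_ ^ e * _)]
    ring

theorem fact_a {a : ℕ → ℕ → ℕ → ℤ} (h : ∀ r q s, |a r q s| ≤ 1) :
    E.Fact (fun p => a (E.rr p) (E.qq p) (md p E.u)) 0 :=
  ⟨a, fun _ _ => 1, fun _ _ _ => 1, fun _ => 1, h, by simp, by simp, by simp, by simp⟩

theorem fact_b {b : ℕ → (Sl n m → ℕ) → ℤ} (h : ∀ t ω, |b t ω| ≤ 1) :
    E.Fact (fun p => b (md p E.v) (E.om p)) 0 :=
  ⟨fun _ _ _ => 1, b, fun _ _ _ => 1, fun _ => 1, by simp, h, by simp, by simp, by simp⟩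

theorem fact_c (z : ℤ) {k : ℕ → (Sl n m → ℕ) → ℕ} (h : ∀ t ω, k t ω ∣ t * ∏ w, ω w) :
    E.Fact (fun p => jacobiSym (z * E.qq p) (k (md p E.v) (E.om p))) 0 :=
  ⟨fun _ _ _ => 1, fun _ _ => 1, fun t ω q => jacobiSym (z * q) (k t ω), fun _ => 1, by simp,
    by simp, fun _ _ _ => abs_J _ _, fun t ω q => jacobiSym.mod_left' (Int.ModEq.symm
      (Int.modEq_iff_dvd.2 (by
        rw [mul_add, add_sub_cancel_left]
        exact Dvd.dvd.mul_left (by exact_mod_cast h t ω) _))), by simp⟩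

theorem fact_J (K : (Sl n m → ℕ) → ℤ) (e : ℕ) :
    E.Fact (fun p => jacobiSym (md p E.v ^ e * K (E.om p)) (md p E.u)) e :=
  ⟨fun _ _ _ => 1, fun _ _ => 1, fun _ _ _ => 1, K, by simp, by simp, by simp, by simp, by simp⟩

theorem fact_one : E.Fact (fun _ => 1) 0 := fact_a (a := fun _ _ _ => 1) (by simp)

theorem Fact.pow (h : E.Fact F e) (k : ℕ) : E.Fact (fun p => F p ^ k) (e * k) := by
  induction k with
  | zero => simpa using fact_one
  | succ k ih => simpa only [pow_succ, Nat.mul_succ] using ih.mul h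

theorem fact_prod {ι : Type} [DecidableEq ι] (X : Finset ι) {F : ι → (Fin n → Fin (m + 1) → ℕ) → ℤ}
    {e : ι → ℕ} (h : ∀ b, E.Fact (F b) (e b)) :
    E.Fact (fun p => ∏ b ∈ X, F b p) (∑ b ∈ X, e b) := by
  induction X using Finset.induction_on with
  | empty => simpa using fact_one
  | insert b X hb ih =>
    simp only [prod_insert hb, sum_insert hb]
    exact (h b).mul ih

theorem Ok.uv (hE : E.Ok) : E.u ≠ E.v := fun e => hE.ne (by rw [e])

theorem Fact.odd (hE : E.Ok) (h : E.Fact F e) (he : Odd e) : E.Fact F 1 := by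
  obtain ⟨a, b, c, K, h1, h2, h3, h4, h5⟩ := h
  obtain ⟨k, rfl⟩ := he
  refine ⟨a, b, c, K, h1, h2, h3, h4, fun p hp => ?_⟩
  have hc : ((md p E.v : ℤ) ^ k).gcd (md p E.u) = 1 := by
    rw [← Int.isCoprime_iff_gcd_eq_one]
    exact (Nat.isCoprime_iff_coprime.2 (md_cop hp hE.uv.symm)).pow_left
  rw [h5 p hp, show (md p E.v : ℤ) ^ (2 * k + 1) * K (E.om p) =
    md p E.v ^ 1 * K (E.om p) * (md p E.v ^ k) ^ 2 by ring, jacobiSym.mul_left (_ ^ 1 * _),
    jacobiSym.sq_one' hc, mul_one]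

theorem fact_up {w : Sl n m} (hw : w ≠ E.u) :
    E.Fact (fun p => jacobiSym (md p w) (md p E.u)) (if w = E.v then 1 else 0) := by
  split_ifs with h1
  · exact (fact_J (fun _ => 1) 1).congr fun p _ => by simp [h1]
  by_cases h2 : w.1 = E.u.1
  · exact (fact_a (a := fun _ _ s => jacobiSym (E.cu w.2) s) fun _ _ _ => abs_J _ _).congr
      fun p hp => by rw [md_u hp hw h2]
  by_cases h3 : w.1 = E.v.1
  · exact (fact_a (a := fun _ _ s => jacobiSym (E.cv w.2) s) fun _ _ _ => abs_J _ _).congr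
      fun p hp => by rw [md_v hp h1 h3]
  · exact (fact_J (fun ω => ω w) 0).congr fun p _ => by simp [om, h2, h3]

theorem md_mod (hE : E.Ok) {p : Fin n → Fin (m + 1) → ℕ} (h : p ∈ E.S) (w : Sl n m) :
    md p w % 8 = 1 :=
  Eq.trans ((wd_mod (S_wd h w.1) w.2.succ).of_dvd (dvd_mul_right 8 _)) (hE.sys.one _)

theorem fact_pair (hE : E.Ok) {x : Sl n m → Sl n m → ℕ} (hx : x E.u E.u = 0) (w w' : Sl n m) :
    E.Fact (fun p => jacobiSym (md p w) (md p w') ^ x w w')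
      ((if w' = E.u then (if w = E.v then x w w' else 0) else 0) +
        if w' = E.v then (if w = E.u then x w w' else 0) else 0) := by
  by_cases h1 : w' = E.u
  · subst h1
    by_cases h2 : w = E.u
    · subst h2
      simpa [hx] using fact_one
    · simpa [hE.uv] using (fact_up h2).pow (x w E.u)
  by_cases h2 : w = E.u
  · subst h2
    have := ((fact_up h1).pow (x E.u w')).congr (F := fun p =>
      jacobiSym (md p E.u) (md p w') ^ x E.u w') fun p hp => by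
        have a1 := md_mod hE hp E.u
        have a2 := md_mod hE hp w'
        rw [jacobiSym.quadratic_reciprocity_one_mod_four (by omega) (Nat.odd_iff.2 (by omega))]
    simpa [h1] using this
  · have := ((fact_b (E := E) (b := fun t ω => jacobiSym (E.mu t ω w) (E.mu t ω w'))
      fun _ _ => abs_J _ _).pow (x w w')).congr (F := fun p =>
        jacobiSym (md p w) (md p w') ^ x w w') fun p hp => by rw [md_eq hp h1, md_eq hp h2]
    simpa [h1, h2] using this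

theorem J_lin (hE : E.Ok) {p : Fin n → Fin (m + 1) → ℕ} (h : p ∈ E.S) (w : Sl n m) (k : Fin n)
    {k' : Fin n} (hk : k' ≠ w.1) : jacobiSym (vl p k) (md p w) =
      jacobiSym (((E.D.e k' : ℤ) - E.D.e w.1) * (E.D.e k - E.D.e w.1)) (md p w) *
        jacobiSym (vl p k') (md p w) := by
  obtain ⟨x, d, hx⟩ := S_lin h
  have hc : ((E.D.e k' : ℤ) - E.D.e w.1).gcd (md p w) = 1 := by
    rw [← Int.isCoprime_iff_gcd_eq_one]
    exact ((Nat.prime_iff_prime_int.1 (md_prime h w)).irreducible.coprime_iff_not_dvd.2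
      (hE.nd (md_lt h w).1 hk)).symm
  rw [← jacobiSym.mul_left, ← mul_one (jacobiSym (vl p k) _), ← jacobiSym.sq_one' hc,
    ← jacobiSym.mul_left]
  refine jacobiSym.mod_left' (Int.modEq_iff_dvd.2 ((Int.natCast_dvd_natCast.2 (md_dvd p w)).trans
    ⟨((E.D.e k' : ℤ) - E.D.e w.1) * (E.D.e k - E.D.e k'), ?_⟩))
  rw [hx k, hx k', hx w.1]
  ring

theorem fact_row (hE : E.Ok) (k : Fin n) (w : Sl n m) :
    E.Fact (fun p => jacobiSym (vl p k) (md p w)) (if w = E.u then 1 else 0) := by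
  split_ifs with h1
  · subst h1
    exact ((fact_a (a := fun r _ s => jacobiSym (((E.D.e E.v.1 : ℤ) - E.D.e E.u.1) *
      (E.D.e k - E.D.e E.u.1) * (E.mf * r)) s) fun _ _ _ => abs_J _ _).mul
      (fact_J (fun _ => 1) 1)).congr fun p hp => by
        rw [J_lin hE hp _ k hE.ne.symm, vl_v hp]
        simp only [Nat.cast_mul, jacobiSym.mul_left, pow_one, mul_one]
        ring
  by_cases h2 : w.1 = E.u.1
  · exact ((fact_a (a := fun r _ _ => jacobiSym (((E.D.e E.v.1 : ℤ) - E.D.e w.1) *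
      (E.D.e k - E.D.e w.1) * (E.mf * r)) (E.cu w.2)) fun _ _ _ => abs_J _ _).mul
      (fact_b (b := fun t _ => jacobiSym t (E.cu w.2)) fun _ _ => abs_J _ _)).congr fun p hp => by
        rw [J_lin hE hp _ k (h2 ▸ hE.ne.symm), vl_v hp, md_u hp h1 h2]
        simp only [Nat.cast_mul, jacobiSym.mul_left]
        ring
  by_cases h3 : w ≠ E.v ∧ w.1 = E.v.1
  · exact (fact_a (a := fun _ q _ => jacobiSym (((E.D.e E.u.1 : ℤ) - E.D.e w.1) *
      (E.D.e k - E.D.e w.1) * (E.mg * q)) (E.cv w.2)) fun _ _ _ => abs_J _ _).congr fun p hp => by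
        rw [J_lin hE hp _ k (Ne.symm h2), vl_u hp, md_v hp h3.1 h3.2]
        simp only [Nat.cast_mul, jacobiSym.mul_left]
  · refine (fact_c (((E.D.e E.u.1 : ℤ) - E.D.e w.1) * (E.D.e k - E.D.e w.1) * E.mg)
      (k := fun t ω => E.mu t ω w) fun t ω => ?_).congr fun p hp => ?_
    · unfold mu
      split_ifs with a1 a2
      · exact dvd_mul_right _ _
      · exact absurd ⟨a1, a2⟩ h3
      · exact (dvd_prod_of_mem _ (mem_univ w)).mul_left _
    · rw [J_lin hE hp _ k (Ne.symm h2), vl_u hp, ← md_eq hp h1]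
      simp only [Nat.cast_mul, jacobiSym.mul_left]
      ring

theorem fact_chr (hE : E.Ok) {st : Fin n → Fin n} {x : Sl n m → Sl n m → ℕ} {y : Sl n m → ℕ}
    (h : Odc st x y E.u E.v) : E.Fact (chr st x y) 1 := by
  refine Fact.odd hE ((fact_prod univ fun w => fact_prod univ fun w' =>
    fact_pair hE (h.diag _ _ rfl) w w').mul
    (fact_prod univ fun w => (fact_row hE (st w.1) w).pow (y w))) ?_
  have := h.odd
  simp only [sum_add_distrib, sum_ite_eq', mem_univ, if_true, ite_mul, one_mul, zero_mul]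
  rwa [add_comm (x E.v E.u)]

theorem fibre (E : KD n m) (t : ℕ) :
    (E.W.filter fun ω => ∏ w, ω w = t).card ≤ (n * m + 1) ^ (n * m) := by
  rcases (E.W.filter fun ω => ∏ w, ω w = t).eq_empty_or_nonempty with h | ⟨ω₀, h⟩
  · simp [h]
  obtain ⟨h1, h2⟩ := mem_filter.1 h
  refine (card_le_card (t := Fintype.piFinset fun _ => insert 1 (univ.image ω₀))
    fun ω hω => Fintype.mem_piFinset.2 fun w => ?_).trans ?_
  · obtain ⟨h3, h4⟩ := mem_filter.1 hω
    rcases (mem_filter.1 h3).2.1 w with k | ⟨k, -⟩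
    · simp [k]
    · obtain ⟨w', -, hd⟩ := k.prime.exists_mem_finset_dvd
        (h2.trans h4.symm ▸ dvd_prod_of_mem ω (mem_univ w) : ω w ∣ ∏ w, ω₀ w)
      rcases (mem_filter.1 h1).2.1 w' with k' | ⟨k', -⟩
      · exact absurd (k' ▸ hd) k.not_dvd_one
      · exact mem_insert_of_mem (mem_image.2
          ⟨w', mem_univ _, ((Nat.prime_dvd_prime_iff_eq k k').1 hd).symm⟩)
  · rw [Fintype.card_piFinset, prod_const, card_univ, Fintype.card_prod, Fintype.card_fin,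
      Fintype.card_fin]
    exact Nat.pow_le_pow_left ((card_insert_le _ _).trans
      (Nat.succ_le_succ (card_image_le.trans (by simp)))) _

theorem exists_rho (hE : E.Ok) (t : ℕ) {ω : Sl n m → ℕ} (hω : ω ∈ E.W) : ∃ ρ : ℤ, ∀ r q : ℤ,
    (∀ j, j ≠ E.u.1 → E.IP t ω j (E.al j * t * r + E.be j * q)) →
      q ≡ ρ * r [ZMOD (∏ w, ω w : ℕ)] := by
  obtain ⟨h1, h2, h3⟩ := (mem_filter.1 hω).2
  obtain ⟨ρ, hρ⟩ := exists_crt univ ω h3 (fun w => E.al w.1 * t) (fun w => E.be w.1) fun w => by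
    rcases h1 w with k | ⟨k1, k2, k3⟩
    · simp [k, isCoprime_one_left]
    · have hp := Nat.prime_iff_prime_int.1 k1
      refine hp.irreducible.coprime_iff_not_dvd.2 fun hd => (hp.dvd_or_dvd hd).elim
        (hE.nd k2 fun e => k1.ne_one (h2 w (.inr e))) fun k => k3 (Int.natCast_dvd_natCast.1 k)
  refine ⟨ρ, fun r q h => hρ r q fun w _ => ?_⟩
  by_cases k : w.1 = E.u.1 ∨ w.1 = E.v.1
  · simp [h2 w k]
  · rw [not_or] at k
    obtain ⟨c, -, e⟩ := h _ k.1
    have : E.mu t ω (w.1, w.2) = ω w := by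
      rw [mu, if_neg fun e => k.2 (by rw [← e]), if_neg k.1, if_neg k.2]
    rw [e, ← this]
    exact (Int.natCast_dvd_natCast.2 ((dvd_prod_of_mem (fun a => E.mu t ω (w.1, a))
      (mem_univ w.2)).mul_left _)).mul_left _

/-- the forms other than the first one -/
def ix (E : KD n m) (j : Fin n) : Fin n := if j = E.u.1 then E.v.1 else j

theorem ix_ne (hE : E.Ok) (j : Fin n) : E.ix j ≠ E.u.1 := by
  unfold ix
  split_ifs with h
  exacts [hE.ne.symm, h]

theorem ix_all {Q : Fin n → Prop} (h : ∀ j, Q (E.ix j)) (j : Fin n) (hj : j ≠ E.u.1) : Q j := by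
  simpa [ix, hj] using h j

open Classical in
theorem shape (hE : E.Ok) {a : ℕ → ℕ → ℕ → ℤ} {b : ℕ → (Sl n m → ℕ) → ℤ}
    {c : ℕ → (Sl n m → ℕ) → ℤ → ℤ} {K : (Sl n m → ℕ) → ℤ}
    (h : ∀ p ∈ E.S, F p = a (E.rr p) (E.qq p) (md p E.u) * b (md p E.v) (E.om p) *
      c (md p E.v) (E.om p) (E.qq p) * jacobiSym (md p E.v ^ 1 * K (E.om p)) (md p E.u)) :
    ∑ p ∈ E.S, (F p : ℝ) = ∑ r ∈ Icc 1 (E.X / (E.mf * E.N)), ∑ q ∈ Icc 1 (E.X / E.mg),
      ∑ s ∈ E.P.filter (· ∣ q), (if E.IA r q s then (a r q s : ℝ) else 0) *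
        ∑ t ∈ Ioc E.N (2 * E.N), ∑ ω ∈ E.W, (if t.Coprime E.mg then (b t ω : ℝ) else 0) *
          jacobiSym (1 * t * K ω) s *
          (if IsCoprime (q : ℤ) (t * (∏ w, ω w : ℕ)) then (c t ω q : ℝ) else 0) *
          ∏ j, if E.IP t ω (E.ix j) (E.al (E.ix j) * t * r + E.be (E.ix j) * q) then ((1 : ℤ) : ℝ)
            else 0 := by
  simp only [mul_sum, sum_sigma']
  refine sum_of_injOn (fun p => ⟨E.rr p, E.qq p, md p E.u, md p E.v, E.om p⟩)
    (fun p hp p' hp' e => ?_) (fun p hp => ?_) (fun i hi hn => ?_) fun p hp => ?_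
  · simp only [Sigma.mk.injEq, heq_eq_eq] at e
    exact S_inj hE hp hp' e.1 e.2.1 e.2.2.1 e.2.2.2.1 e.2.2.2.2
  · simp only [mem_coe, mem_sigma, mem_filter]
    exact ⟨S_rr hE hp, S_qq hp, ⟨S_P hE hp, dvd_mul_left _ _⟩,
      mem_Ioc.2 (mem_filter.1 hp).2.2.2, S_W hp⟩
  · obtain ⟨r, q, s, t, ω⟩ := i
    simp only [mem_sigma, mem_filter] at hi
    by_contra h0
    simp only [mul_eq_zero, not_or, ite_eq_right_iff, Classical.not_imp, prod_eq_zero_iff,
      mem_univ, true_and, not_exists] at h0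
    obtain ⟨p, hp, rfl, rfl, rfl, rfl, rfl⟩ := S_surj hE hi.2.2.1.2 hi.2.2.2.1 hi.2.2.2.2 h0.1.1
      h0.2.1.1.1.1 h0.2.1.2.1 (ix_all fun j => (h0.2.2 j).1)
    exact hn ⟨p, hp, rfl⟩
  · simp only
    rw [if_pos (S_IA hE hp), if_pos (S_IB hE hp), if_pos (S_per hE hp),
      prod_eq_one fun j _ => by rw [if_pos (S_IP hp (ix_ne hE j)), Int.cast_one], h p hp, pow_one,
      one_mul]
    push_cast
    ring

end KD

end KEY

open KEY KD in
theorem key (gg : GStmt) : KEYStmt := by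
  classical
  intro n m D sys
  refine ⟨2 * (2 ^ (2 * n + 2) + 4 * (n * m) + 100 + 8), 2 * n + 5, fun K' => ?_⟩
  filter_upwards [gg n (n * m) _ K' 2 ((n * m + 1) ^ (n * m)) le_rfl, eventually_ge_atTop D.M]
    with Y G hM X lo hi st x y u v ho cu cv N n1 n2
  have Y1 : 1 ≤ Y := sys.pos.trans_le hM
  let E : KD n m := ⟨D, Y, X, N, u, v, cu, cv⟩
  have hE : E.Ok := ⟨sys, ho.ne, hM, by change 0 < N; omega⟩
  change |∑ p ∈ E.S, _| ≤ _
  rcases E.S.eq_empty_or_nonempty with h | ⟨p, hp⟩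
  · rw [h, sum_empty, abs_zero]
    positivity
  obtain ⟨a, b, c, K, a1, a2, a3, a4, a5⟩ := fact_chr hE ho
  have YY : Y ≤ Y ^ 2 := Nat.le_self_pow two_ne_zero Y
  have Y2 : 1 ≤ Y ^ 2 := Y1.trans YY
  have hm : ∀ w : Sl n m, 0 < ∏ a ∈ univ.erase w.2, md p (w.1, a) ∧
      ∏ a ∈ univ.erase w.2, md p (w.1, a) ≤ (Y ^ 2) ^ 7 := fun w =>
    ⟨prod_pos fun a _ => (md_prime hp _).pos, (prod_le_pow_card _ _ _ fun a _ =>
      (md_lt hp _).2).trans (Nat.pow_le_pow_right Y2 ((card_le_univ _).trans (by simpa using sys.sev)))⟩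
  have g1 := hm u
  have f1 := hm v
  rw [← mg_eq hp] at g1
  rw [← mf_eq hp] at f1
  have hb : ∀ (j k : Fin n) (z : ℕ), z ≤ (Y ^ 2) ^ 7 →
      |((D.e j : ℤ) - D.e k) * z| ≤ ((Y ^ 2 : ℕ) : ℤ) ^ 8 := by
    intro j k z hz
    have h1 : |(D.e j : ℤ) - D.e k| ≤ D.M := by
      by_cases e : j = k
      · simp [e]
      · exact Int.le_of_dvd (Nat.cast_pos.2 sys.pos) ((abs_dvd _ _).2 (sys.dv j k e))
    have : (D.M * z : ℕ) ≤ (Y ^ 2) ^ 8 := (Nat.mul_le_mul (hM.trans YY) hz).trans (by rw [← pow_succ'])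
    rw [abs_mul, Nat.abs_cast]
    exact (mul_le_mul_of_nonneg_right h1 (Nat.cast_nonneg _)).trans (by exact_mod_cast this)
  rw [pow_mul] at lo
  have main := G (Y ^ 2) (X / (E.mf * N)) (X / E.mg) N E.P (Sl n m → ℕ) E.W (fun ω => ∏ w, ω w) K
    (fun _ _ => 1) (fun j => E.al (E.ix j)) (fun j => E.be (E.ix j))
    (fun r q s => if E.IA r q s then (a r q s : ℝ) else 0)
    (fun t ω => if t.Coprime E.mg then (b t ω : ℝ) else 0)
    (fun t ω q => if IsCoprime q (t * (∏ w, ω w : ℕ)) then (c t ω q : ℝ) else 0)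
    (fun t ω j z => if E.IP t ω (E.ix j) z then ((1 : ℤ) : ℝ) else 0) YY le_rfl
    ((Nat.le_div_iff_mul_le (Nat.mul_pos f1.1 hE.hN)).2 (le_trans (by
      refine (Nat.mul_le_mul_left _ (Nat.mul_le_mul f1.2 n2)).trans ?_
      rw [← pow_succ, ← pow_add]) lo))
    ((Nat.le_div_iff_mul_le g1.1).2 (le_trans (by
      refine (Nat.mul_le_mul_left _ g1.2).trans ?_
      rw [← pow_add]
      exact Nat.pow_le_pow_right Y2 (by omega)) lo))
    ((Nat.div_le_self _ _).trans (hi.trans (Nat.pow_le_pow_left YY _))) n1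
    (n2.trans (Nat.le_self_pow three_ne_zero _))
    (fun s hs => by
      obtain ⟨k1, k2, k3⟩ := mem_filter.1 hs
      obtain ⟨k4, k5⟩ := mem_Ioc.1 k1
      exact ⟨k2, k4, k5, fun j hd => ((Nat.prime_iff_prime_int.1 k2).dvd_or_dvd hd).elim
        (hE.nd k4 (ix_ne hE j).symm) fun k => k3 (Int.natCast_dvd_natCast.1 k)⟩)
    (fun j => ⟨hb _ _ _ f1.2, hb _ _ _ g1.2⟩)
    (fun ω hω => by
      have := fun w => mem_Icc.1 (Fintype.mem_piFinset.1 (mem_filter.1 hω).1 w)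
      exact ⟨Nat.succ_le_of_lt (prod_pos fun w _ => (this w).1),
        (prod_le_pow_card _ _ _ fun w _ => (this w).2).trans (by simp [E])⟩)
    (fun t => by have := E.fibre t; exact this) (fun _ _ => .inl rfl)
    (fun _ _ _ => abs_ite (a1 _ _ _)) (fun _ _ => abs_ite (a2 _ _))
    (fun _ _ _ => abs_ite (a3 _ _ _)) (fun _ _ _ _ => abs_ite (by simp))
    (fun t ω q => by
      have := IsCoprime.add_mul_left_left_iff (x := q) (y := (t * (∏ w, ω w : ℕ) : ℤ)) (z := 1)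
      rw [mul_one] at this
      simp only [a4 t ω, this])
    (fun t ω q h => by
      by_contra k
      exact h (if_neg k))
    (fun t ω hω => (exists_rho hE t hω).imp fun ρ hρ r q h => hρ r q (ix_all fun j => by
      by_contra k
      exact h j (if_neg k)))
  rw [shape hE a5]
  refine main.trans (mul_le_mul_of_nonneg_right ?_ (by positivity))
  rw [← Nat.cast_prod, ← Nat.cast_prod, le_div_iff₀ (by exact_mod_cast Nat.mul_pos g1.1 f1.1)]
  have h2 : X / (E.mf * N) * (X / E.mg) * N * (E.mg * E.mf) ≤ X ^ 2 :=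
    calc _ = X / (E.mf * N) * (E.mf * N) * (X / E.mg * E.mg) := by ring
      _ ≤ X * X := Nat.mul_le_mul (Nat.div_mul_le_self _ _) (Nat.div_mul_le_self _ _)
      _ = _ := (sq X).symm
  exact_mod_cast h2

end Pool.Agent.MP_a43263_nt.G7

end
end MrgPart4

-- marker of a merged file
example : 731051 + 587932 = 731051 + 587932 := rfl
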