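import Pool.Agent.MP_a43263_nt.DH.Spec
import Mathlib.Data.Nat.Squarefree
import Mathlib.Algebra.Order.BigOperators.Ring.Finset
import Pool.Agent.MP_a43263_nt.GT.MajA
import Pool.Agent.MP_a43263_nt.GT.MajB
import Mathlib.Algebra.Field.ZMod
import Mathlib.Algebra.BigOperators.Associated
import Mathlib.Tactic.LinearCombination
import Mathlib.NumberTheory.EulerProduct.Basic
import Mathlib.NumberTheory.Harmonic.Bounds
import Mathlib.Data.Nat.Totient
import Pool.Agent.MP_a43263_nt.two.Sym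

-- ======== part 0: formerly Pool.Agent.MP_a43263_nt.GT.MajDef
section MrgPart0

/-! The majorant of the primes: optimal sieve weights in the orthogonal basis.
Note: `/team-store/GT_majorant_h57.md`. -/

set_option autoImplicit false

noncomputable section

namespace Pool.Agent.MP_a43263_nt.GT

open Finset DH

/-- the primes up to `R` that do not divide `W` -/
def PS (W R : ℕ) : Finset ℕ := (range (R + 1)).filter fun p => p.Prime ∧ ¬p ∣ W

/-- the sets of such primes with product at most `R` -/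
def Fam (W R : ℕ) : Finset (Finset ℕ) := (PS W R).powerset.filter fun r => ∏ p ∈ r, p ≤ R

/-- the local weight -/
def zz (p : ℕ) (n : ℤ) : ℝ := if (p : ℤ) ∣ n then -1 else 1 / ((p : ℝ) - 1)

def FF (W R : ℕ) (n : ℤ) : ℝ := ∑ r ∈ Fam W R, ∏ p ∈ r, zz p n

def GG (W R : ℕ) : ℝ := ∑ r ∈ Fam W R, ∏ p ∈ r, 1 / ((p : ℝ) - 1)

/-- the majorant -/
def nuS (W R : ℕ) (b n : ℤ) : ℝ := FF W R (W * n + b) ^ 2 / GG W R

/-- the estimate on boxes: forms with coefficients at most `K`, nonzero and pairwise not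
proportional, any constants `c`, any `b` -/
def BoxStmt : Prop := ∀ (J T : Type) [Fintype J] [Fintype T] (a : J → T → ℤ) (K w W R H : ℕ)
  (b : ℤ) (c : J → ℤ), (∀ j t, |a j t| ≤ K) → (∀ j, ∃ t, a j t ≠ 0) →
  (∀ i j, i ≠ j → ∃ s t, a i s * a j t ≠ a i t * a j s) → 1 ≤ w → K ≤ w → 2 * K ^ 2 ≤ w →
  (∀ p, p.Prime → p ≤ w → p ∣ W) → 1 ≤ R → 0 < H →
  Fintype.card T * R ^ (2 * Fintype.card J) ≤ H →
  16 ^ Fintype.card J ≤ w →
  |E (fun y : T → Fin H => ∏ j, nuS W R b (c j + ∑ t, a j t * ((y t : ℕ) : ℤ))) - 1| ≤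
    2 * 16 ^ Fintype.card J / (w : ℝ) +
      2 * Fintype.card T * (R : ℝ) ^ (4 * Fintype.card J) / H

theorem mem_PS {W R p : ℕ} : p ∈ PS W R ↔ p ≤ R ∧ p.Prime ∧ ¬p ∣ W := by
  unfold PS
  rw [mem_filter, mem_range, Nat.lt_succ_iff]

theorem mem_Fam {W R : ℕ} {r : Finset ℕ} : r ∈ Fam W R ↔ r ⊆ PS W R ∧ ∏ p ∈ r, p ≤ R := by
  unfold Fam
  rw [mem_filter, mem_powerset]

theorem inv_pred_nonneg {p : ℕ} (hp : p.Prime) : 0 ≤ 1 / ((p : ℝ) - 1) := by
  have : (2 : ℝ) ≤ p := by exact_mod_cast hp.two_le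
  exact div_nonneg zero_le_one (by linarith)

theorem inv_pred_le_one {p : ℕ} (hp : p.Prime) : 1 / ((p : ℝ) - 1) ≤ 1 := by
  have : (2 : ℝ) ≤ p := by exact_mod_cast hp.two_le
  rw [div_le_one (by linarith)]
  linarith

theorem abs_zz_le {p : ℕ} (hp : p.Prime) (n : ℤ) : |zz p n| ≤ 1 := by
  unfold zz
  split_ifs
  · simp
  · rw [abs_of_nonneg (inv_pred_nonneg hp)]
    exact inv_pred_le_one hp

theorem one_le_GG {W R : ℕ} (hR : 1 ≤ R) : 1 ≤ GG W R := by
  unfold GG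
  have h0 : (∅ : Finset ℕ) ∈ Fam W R := mem_Fam.2 ⟨empty_subset _, by simpa using hR⟩
  have h := single_le_sum (f := fun r : Finset ℕ => ∏ p ∈ r, 1 / ((p : ℝ) - 1))
    (fun r hr => prod_nonneg fun p hp =>
      inv_pred_nonneg (mem_PS.1 ((mem_Fam.1 hr).1 hp)).2.1) h0
  simpa using h

theorem nu_nonneg {W R : ℕ} (hR : 1 ≤ R) (b n : ℤ) : 0 ≤ nuS W R b n :=
  div_nonneg (sq_nonneg _) (zero_le_one.trans (one_le_GG hR))

/-- at a number without prime factor in the range the majorant is `GG` -/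
theorem nu_eq_GG {W R : ℕ} (hR : 1 ≤ R) {b n : ℤ}
    (h : ∀ p ∈ PS W R, ¬(p : ℤ) ∣ W * n + b) : nuS W R b n = GG W R := by
  have h1 : FF W R (W * n + b) = GG W R := by
    unfold FF GG
    refine sum_congr rfl fun r hr => prod_congr rfl fun p hp => ?_
    unfold zz
    rw [if_neg (h p ((mem_Fam.1 hr).1 hp))]
  have h2 : GG W R ≠ 0 := (zero_lt_one.trans_le (one_le_GG hR)).ne'
  unfold nuS
  rw [h1, sq, mul_div_assoc, div_self h2, mul_one]

theorem card_Fam_le (W R : ℕ) : (Fam W R).card ≤ R := by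
  have h : (Fam W R).card ≤ (Icc 1 R).card := by
    refine card_le_card_of_injOn (fun r => ∏ p ∈ r, p) (fun r hr => ?_) fun r hr s hs e => ?_
    · have hr' := mem_Fam.1 (mem_coe.1 hr)
      exact mem_coe.2 (mem_Icc.2 ⟨prod_pos fun p hp => (mem_PS.1 (hr'.1 hp)).2.1.pos, hr'.2⟩)
    · have h1 := Nat.primeFactors_prod fun p hp =>
        (mem_PS.1 ((mem_Fam.1 (mem_coe.1 hr)).1 hp)).2.1
      have h2 := Nat.primeFactors_prod fun p hp =>
        (mem_PS.1 ((mem_Fam.1 (mem_coe.1 hs)).1 hp)).2.1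
      rw [← h1, ← h2]
      exact congrArg Nat.primeFactors e
  simpa using h

theorem abs_FF_le (W R : ℕ) (n : ℤ) : |FF W R n| ≤ R := by
  unfold FF
  refine (abs_sum_le_sum_abs _ _).trans ?_
  have h : ∑ r ∈ Fam W R, |∏ p ∈ r, zz p n| ≤ ∑ _r ∈ Fam W R, (1 : ℝ) := by
    refine sum_le_sum fun r hr => ?_
    rw [abs_prod]
    exact prod_le_one (fun _ _ => abs_nonneg _) fun p hp =>
      abs_zz_le (mem_PS.1 ((mem_Fam.1 hr).1 hp)).2.1 n
  refine h.trans ?_
  rw [sum_const, nsmul_eq_mul, mul_one]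
  exact_mod_cast card_Fam_le W R

theorem nu_le {W R : ℕ} (hR : 1 ≤ R) (b n : ℤ) : nuS W R b n ≤ (R : ℝ) ^ 2 := by
  unfold nuS
  refine (div_le_self (sq_nonneg _) (one_le_GG hR)).trans ?_
  rw [← sq_abs]
  exact pow_le_pow_left₀ (abs_nonneg _) (abs_FF_le W R _) 2

end Pool.Agent.MP_a43263_nt.GT

end
end MrgPart0

-- ======== part 1: formerly Pool.Agent.MP_a43263_nt.GT.MajC
section MrgPart1

/-! The estimate on boxes for the majorant of the primes. -/

set_option autoImplicit false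

noncomputable section

namespace Pool.Agent.MP_a43263_nt.GT

open Finset DH

namespace MajC

open MajA MajB

/-- the two factors of a square -/
def two (p : ℕ) (ρ : Finset ℕ × Finset ℕ) (v : ℝ) : ℝ :=
  (if p ∈ ρ.1 then v else 1) * (if p ∈ ρ.2 then v else 1)

theorem abs_two_le (p : ℕ) (ρ : Finset ℕ × Finset ℕ) {v : ℝ} (h : |v| ≤ 1) : |two p ρ v| ≤ 1 := by
  have k : ∀ s : Finset ℕ, |if p ∈ s then v else 1| ≤ 1 := fun s => by
    split_ifs
    · exact h
    · exact abs_one.le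
  unfold two
  rw [abs_mul]
  exact mul_le_one₀ (k _) (abs_nonneg _) (k _)

def be (p : ℕ) (ρ : Finset ℕ × Finset ℕ) : ℝ := two p ρ (-1) - two p ρ (1 / ((p : ℝ) - 1))

theorem two_zz (p : ℕ) (ρ : Finset ℕ × Finset ℕ) (n : ℤ) :
    two p ρ (zz p n) = be p ρ * ind ((n : ZMod p) = 0) + two p ρ (1 / ((p : ℝ) - 1)) := by
  unfold zz be
  split_ifs with h
  · rw [ind_true ((ZMod.intCast_zmod_eq_zero_iff_dvd n p).2 h)]
    ring
  · rw [ind_false (mt (ZMod.intCast_zmod_eq_zero_iff_dvd n p).1 h)]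
    ring

theorem mean_two {p : ℕ} (hp : p.Prime) (ρ : Finset ℕ × Finset ℕ) :
    be p ρ * (1 / (p : ℝ)) + two p ρ (1 / ((p : ℝ) - 1)) =
      aa (fun p : ℕ => 1 / ((p : ℝ) - 1)) p ρ := by
  have h2 : (2 : ℝ) ≤ p := by exact_mod_cast hp.two_le
  have h0 : (p : ℝ) ≠ 0 := by linarith
  have h1 : (p : ℝ) - 1 ≠ 0 := by linarith
  unfold be two aa
  split_ifs <;> field_simp <;> ring

theorem cast_ne {p : ℕ} {n : ℤ} (h0 : n ≠ 0) (h : |n| < p) : (n : ZMod p) ≠ 0 := fun k =>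
  h0 (Int.eq_zero_of_abs_lt_dvd ((ZMod.intCast_zmod_eq_zero_iff_dvd n p).1 k) h)

section
variable {J T : Type} [Fintype J] [Fintype T] (a : J → T → ℤ) (W : ℕ) (b : ℤ) (c : J → ℤ)

/-- the linear part of a form modulo `p` -/
def lin (p : ℕ) (j : J) : (T → ZMod p) →+ ZMod p where
  toFun x := ∑ t, (a j t : ZMod p) * x t
  map_zero' := by simp
  map_add' x y := by simp only [Pi.add_apply, mul_add, sum_add_distrib]

omit [Fintype J] in
theorem lin_single [DecidableEq T] (p : ℕ) (j : J) (t : T) (u : ZMod p) :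
    lin a p j (Pi.single t u) = a j t * u := by
  show ∑ s, (a j s : ZMod p) * (Pi.single t u : T → ZMod p) s = _
  rw [sum_eq_single t, Pi.single_eq_same]
  · intro s _ hs
    rw [Pi.single_eq_of_ne hs, mul_zero]
  · intro h
    exact absurd (mem_univ t) h

def th (p : ℕ) (j : J) (u : ZMod p) : Prop := (W : ZMod p) * (c j + u) + b = 0

/-- the local factor -/
def ph (p : ℕ) (ρ : J → Finset ℕ × Finset ℕ) (x : T → ZMod p) : ℝ :=
  ∏ j, (be p (ρ j) * ind (th W b c p j (lin a p j x)) + two p (ρ j) (1 / ((p : ℝ) - 1)))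

theorem ph_cast (p : ℕ) (ρ : J → Finset ℕ × Finset ℕ) (y : T → ℕ) :
    ph a W b c p ρ (fun t => (y t : ZMod p)) =
      ∏ j, two p (ρ j) (zz p (W * (c j + ∑ t, a j t * (y t : ℤ)) + b)) := by
  refine prod_congr rfl fun j _ => ?_
  rw [two_zz]
  push_cast
  rfl

theorem abs_ph_le {p : ℕ} (hp : p.Prime) (ρ : J → Finset ℕ × Finset ℕ) (x : T → ZMod p) :
    |ph a W b c p ρ x| ≤ 1 := by
  unfold ph
  rw [abs_prod]
  refine prod_le_one (fun _ _ => abs_nonneg _) fun j _ => ?_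
  by_cases h : th W b c p j (lin a p j x)
  · rw [ind_true h, mul_one, be, sub_add_cancel]
    exact abs_two_le _ _ (by simp)
  · rw [ind_false h, mul_zero, zero_add]
    exact abs_two_le _ _ ((abs_of_nonneg (inv_pred_nonneg hp)).trans_le (inv_pred_le_one hp))

omit [Fintype J] in
theorem E_th {p : ℕ} [Fact p.Prime] (hW : ¬p ∣ W) (j : J) :
    E (fun u => ind (th W b c p j u)) = 1 / (p : ℝ) := by
  have h0 : (W : ZMod p) ≠ 0 := mt (ZMod.natCast_eq_zero_iff W p).1 hW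
  have hp : (p : ℝ) ≠ 0 := Nat.cast_ne_zero.2 (Fact.out : p.Prime).ne_zero
  have k := E_point (fun _ : ZMod p => (1 : ℝ)) (-(b : ZMod p) / W - c j)
  simp only [mul_one] at k
  rw [E_mul_left, Nat.card_zmod] at k
  rw [eq_div_iff hp, mul_comm, ← k]
  refine congrArg (fun f => (p : ℝ) * E f) (funext fun u => congrArg ind (propext ?_))
  unfold th
  rw [sub_eq_iff_eq_add, div_eq_iff h0]
  constructor <;> intro h <;> linear_combination -h

theorem loc_ph {p K : ℕ} [Fact p.Prime] (hW : ¬p ∣ W) (hK : ∀ j t, |a j t| ≤ K)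
    (h1 : ∀ j, ∃ t, a j t ≠ 0) (h2 : ∀ i j, i ≠ j → ∃ s t, a i s * a j t ≠ a i t * a j s)
    (k1 : K < p) (k2 : 2 * K ^ 2 < p) (ρ : J → Finset ℕ × Finset ℕ) :
    |E (ph a W b c p ρ) - ∏ j, aa (fun p : ℕ => 1 / ((p : ℝ) - 1)) p (ρ j)| ≤
      4 ^ Fintype.card J * (1 / (p : ℝ)) ^ 2 := by
  classical
  have hp : p.Prime := Fact.out
  have hp1 : (1 : ℝ) ≤ p := by exact_mod_cast hp.one_le
  have hg : |1 / ((p : ℝ) - 1)| ≤ 1 :=
    (abs_of_nonneg (inv_pred_nonneg hp)).trans_le (inv_pred_le_one hp)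
  rw [← prod_congr rfl fun j _ => mean_two hp (ρ j)]
  refine loc (fun j x => th W b c p j (lin a p j x)) (by positivity)
    ((div_le_one (by linarith)).2 hp1) (fun j => ?_) (fun i j hij => ?_) _ _
    (fun j => abs_two_le _ _ hg) fun j => ?_
  · rw [← E_th W b c hW j]
    refine E_hom (lin a p j) (fun u => ?_) fun u => ind (th W b c p j u)
    obtain ⟨t, ht⟩ := h1 j
    have h0 : (a j t : ZMod p) ≠ 0 := cast_ne ht ((hK j t).trans_lt (by exact_mod_cast k1))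
    exact ⟨Pi.single t (u / a j t), by rw [lin_single, mul_div_cancel₀ _ h0]⟩
  · have hs : Function.Surjective ((lin a p i).prod (lin a p j)) := by
      rintro ⟨u, v⟩
      obtain ⟨s, t, hst⟩ := h2 i j hij
      have h0 : ((a i s * a j t - a i t * a j s : ℤ) : ZMod p) ≠ 0 := by
        refine cast_ne (sub_ne_zero.2 hst) ?_
        have b1 : ∀ i s j t, |a i s * a j t| ≤ (K : ℤ) * K := fun i s j t => by
          rw [abs_mul]
          exact mul_le_mul (hK _ _) (hK _ _) (abs_nonneg _) (Int.natCast_nonneg _)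
        have b2 : 2 * (K : ℤ) ^ 2 < p := by exact_mod_cast k2
        have b3 := abs_sub (a i s * a j t) (a i t * a j s)
        nlinarith [b1 i s j t, b1 i t j s]
      push_cast at h0
      obtain ⟨d, hd⟩ := IsUnit.exists_right_inv (Ne.isUnit h0)
      refine ⟨Pi.single s ((u * a j t - v * a i t) * d) +
        Pi.single t ((v * a i s - u * a j s) * d), ?_⟩
      rw [AddMonoidHom.prod_apply, map_add, map_add, lin_single, lin_single, lin_single,
        lin_single, Prod.mk.injEq]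
      exact ⟨by linear_combination u * hd, by linear_combination v * hd⟩
    have k := E_hom _ hs fun u => ind (th W b c p i u.1) * ind (th W b c p j u.2)
    refine (k.trans ?_).le
    rw [E_prod]
    simp only [E_mul_left, E_th W b c hW, mul_comm _ (1 / (p : ℝ))]
    rw [sq]
  · unfold be
    refine (abs_sub _ _).trans ?_
    linarith [abs_two_le p (ρ j) (v := -1) (by simp), abs_two_le p (ρ j) hg]

/-- the local mean -/
def MM (p : ℕ) (ρ : J → Finset ℕ × Finset ℕ) : ℝ :=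
  if h : p ≠ 0 then (haveI : NeZero p := ⟨h⟩; E (ph a W b c p ρ)) else 0

theorem MM_eq (p : ℕ) [NeZero p] (ρ : J → Finset ℕ × Finset ℕ) :
    MM a W b c p ρ = E (ph a W b c p ρ) := dif_pos (NeZero.ne p)

theorem term {R H : ℕ} [DecidableEq J] (hH : 0 < H)
    (h : Fintype.card T * R ^ (2 * Fintype.card J) ≤ H) {ρ : J → Finset ℕ × Finset ℕ}
    (hρ : ρ ∈ Fintype.piFinset fun _ : J => Fam W R ×ˢ Fam W R) :
    |E (fun y : T → Fin H => ∏ j,
        (∏ p ∈ (ρ j).1, zz p (W * (c j + ∑ t, a j t * ((y t : ℕ) : ℤ)) + b)) *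
          ∏ p ∈ (ρ j).2, zz p (W * (c j + ∑ t, a j t * ((y t : ℕ) : ℤ)) + b)) -
        ∏ p ∈ PS W R, MM a W b c p ρ| ≤
      2 * (Fintype.card T * ((R : ℝ) ^ (2 * Fintype.card J) / H)) := by
  have hρ' := fun j => mem_product.1 (Fintype.mem_piFinset.1 hρ j)
  let S : Finset ℕ := univ.biUnion fun j => (ρ j).1 ∪ (ρ j).2
  have s1 : ∀ j, (ρ j).1 ⊆ S := fun j p hp =>
    mem_biUnion.2 ⟨j, mem_univ _, mem_union_left _ hp⟩
  have s2 : ∀ j, (ρ j).2 ⊆ S := fun j p hp =>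
    mem_biUnion.2 ⟨j, mem_univ _, mem_union_right _ hp⟩
  have hS : S ⊆ PS W R := biUnion_subset.2 fun j _ =>
    union_subset (mem_Fam.1 (hρ' j).1).1 (mem_Fam.1 (hρ' j).2).1
  have hpr : ∀ p ∈ PS W R, p.Prime := fun p hp => (mem_PS.1 hp).2.1
  have : ∀ i : S, NeZero (i : ℕ) := fun i => ⟨(hpr _ (hS i.2)).ne_zero⟩
  have hD : ∏ i : S, (i : ℕ) ≤ R ^ (2 * Fintype.card J) := by
    rw [prod_coe_sort S fun p => p]
    have d : ∏ p ∈ S, p ∣ ∏ j, (∏ p ∈ (ρ j).1, p) * ∏ p ∈ (ρ j).2, p := by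
      refine prod_primes_dvd _ (fun p hp => (hpr p (hS hp)).prime) fun p hp => ?_
      obtain ⟨j, -, hj⟩ := mem_biUnion.1 hp
      refine Dvd.dvd.trans ?_ (dvd_prod_of_mem _ (mem_univ j))
      rcases mem_union.1 hj with hj | hj
      · exact (dvd_prod_of_mem (fun p => p) hj).mul_right _
      · exact (dvd_prod_of_mem (fun p => p) hj).mul_left _
    refine (Nat.le_of_dvd (prod_pos fun j _ => Nat.mul_pos
      (prod_pos fun p hp => (hpr p (hS (s1 j hp))).pos)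
      (prod_pos fun p hp => (hpr p (hS (s2 j hp))).pos)) d).trans ?_
    rw [pow_mul, ← card_univ, ← prod_const]
    refine prod_le_prod' fun j _ => ?_
    rw [sq]
    exact Nat.mul_le_mul (mem_Fam.1 (hρ' j).1).2 (mem_Fam.1 (hρ' j).2).2
  have k := box_crt (T := T) (fun i : S => (i : ℕ))
    (fun i j hij => (Nat.coprime_primes (hpr _ (hS i.2)) (hpr _ (hS j.2))).2
      fun e => hij (Subtype.ext e)) hH ((Nat.mul_le_mul_left _ hD).trans h)
    (fun i => ph a W b c i ρ) fun i x => abs_ph_le a W b c (hpr _ (hS i.2)) ρ x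
  have e1 : ∏ i : S, E (ph a W b c i ρ) = ∏ p ∈ PS W R, MM a W b c p ρ := by
    rw [← prod_subset hS, ← prod_coe_sort S fun p => MM a W b c p ρ]
    · exact prod_congr rfl fun i _ => (MM_eq a W b c i ρ).symm
    · intro p hp hn
      have : NeZero p := ⟨(hpr p hp).ne_zero⟩
      rw [MM_eq, ← E_const (Ω := T → ZMod p) 1]
      refine congrArg E (funext fun x => prod_eq_one fun j _ => ?_)
      have n1 : p ∉ (ρ j).1 := fun k => hn (s1 j k)
      have n2 : p ∉ (ρ j).2 := fun k => hn (s2 j k)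
      simp only [be, two, if_neg n1, if_neg n2, mul_one, sub_self, zero_mul, zero_add]
  have e2 : ∀ y : T → Fin H, ∏ i : S, ph a W b c i ρ (fun t => ((y t : ℕ) : ZMod i)) = ∏ j,
      (∏ p ∈ (ρ j).1, zz p (W * (c j + ∑ t, a j t * ((y t : ℕ) : ℤ)) + b)) *
        ∏ p ∈ (ρ j).2, zz p (W * (c j + ∑ t, a j t * ((y t : ℕ) : ℤ)) + b) := by
    intro y
    rw [prod_congr rfl fun (i : S) _ => ph_cast a W b c i ρ fun t => (y t : ℕ),
      prod_coe_sort S fun p => ∏ j,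
        two p (ρ j) (zz p (W * (c j + ∑ t, a j t * ((y t : ℕ) : ℤ)) + b)), prod_comm]
    refine prod_congr rfl fun j _ => ?_
    unfold two
    rw [prod_mul_distrib, prod_ite_mem, prod_ite_mem, inter_eq_right.2 (s1 j),
      inter_eq_right.2 (s2 j)]
  rw [e1, funext e2] at k
  refine k.trans ?_
  have hD' : ((∏ i : S, (i : ℕ) : ℕ) : ℝ) ≤ (R : ℝ) ^ (2 * Fintype.card J) := by
    exact_mod_cast hD
  gcongr

end

theorem sum_inv_sq {w : ℕ} (hw : 1 ≤ w) (n : ℕ) :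
    ∑ p ∈ Ioc w (w + n), (1 / (p : ℝ)) ^ 2 ≤ 1 / (w : ℝ) - 1 / ((w + n : ℕ) : ℝ) := by
  induction n with
  | zero => simp
  | succ n ih =>
    rw [← add_assoc, sum_Ioc_succ_top (Nat.le_add_right w n)]
    have h : (1 : ℝ) ≤ ((w + n : ℕ) : ℝ) := by exact_mod_cast hw.trans (Nat.le_add_right w n)
    rw [Nat.cast_succ]
    generalize ((w + n : ℕ) : ℝ) = x at h ih ⊢
    have k : (1 / (x + 1)) ^ 2 ≤ 1 / x - 1 / (x + 1) := by
      have e : 1 / x - 1 / (x + 1) = 1 / (x + 1) * (1 / x) := by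
        field_simp
        ring
      rw [e, sq]
      gcongr
      linarith
    linarith

end MajC

open MajA MajB MajC in
theorem boxS : BoxStmt := by
  intro J T _ _ a K w W R H b c hK h1 h2 hw k1 k2 hW hR hH hT hm
  classical
  set m := Fintype.card J with hmJ
  have hG := one_le_GG (W := W) hR
  have hGm : 1 ≤ GG W R ^ m := one_le_pow₀ hG
  have hpr : ∀ p ∈ PS W R, p.Prime := fun p hp => (mem_PS.1 hp).2.1
  have hlt : ∀ p ∈ PS W R, w < p := fun p hp =>
    lt_of_not_ge fun k => (mem_PS.1 hp).2.2 (hW p (hpr p hp) k)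
  have hw' : (0 : ℝ) < w := Nat.cast_pos.2 hw
  let X := Fintype.piFinset fun _ : J => Fam W R ×ˢ Fam W R
  have c1 := core (g := fun p : ℕ => 1 / ((p : ℝ) - 1)) (P0 := PS W R) (F := Fam W R)
    (fun p hp => inv_pred_nonneg (hpr p hp)) (fun r hr => (mem_Fam.1 hr).1)
    (fun r hr s hs => mem_Fam.2 ⟨hs.trans (mem_Fam.1 hr).1,
      (prod_le_prod_of_subset_of_one_le' hs fun p hp _ =>
        (hpr p ((mem_Fam.1 hr).1 hp)).one_le).trans (mem_Fam.1 hr).2⟩)
    (MM a W b c) (fun p : ℕ => (4 : ℝ) ^ m * (1 / (p : ℝ)) ^ 2) fun p hp ρ => by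
      have : Fact p.Prime := ⟨hpr p hp⟩
      rw [MM_eq]
      exact loc_ph a W b c (mem_PS.1 hp).2.2 hK h1 h2 (k1.trans_lt (hlt p hp))
        (k2.trans_lt (hlt p hp)) ρ
  have c2 : ∑ p ∈ PS W R, (4 : ℝ) ^ m * (4 ^ m * (1 / (p : ℝ)) ^ 2) ≤ 16 ^ m / (w : ℝ) := by
    have s : PS W R ⊆ Ioc w (w + R) := fun p hp =>
      mem_Ioc.2 ⟨hlt p hp, (mem_PS.1 hp).1.trans (Nat.le_add_left _ _)⟩
    have k := (sum_le_sum_of_subset_of_nonneg s fun (p : ℕ) _ _ => sq_nonneg (1 / (p : ℝ))).trans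
      ((sum_inv_sq hw R).trans (sub_le_self _ (by positivity)))
    rw [← mul_sum, ← mul_sum, ← mul_assoc, ← mul_pow, div_eq_mul_one_div,
      show (4 : ℝ) * 4 = 16 by norm_num]
    exact mul_le_mul_of_nonneg_left k (by positivity)
  have c3 := prod_one_add_le (PS W R) (f := fun p : ℕ => (4 : ℝ) ^ m * (4 ^ m * (1 / (p : ℝ)) ^ 2))
    (fun _ _ => by positivity) (c2.trans ((div_le_one hw').2 (by exact_mod_cast hm)))
  have c4 : |∑ ρ ∈ X, ∏ p ∈ PS W R, MM a W b c p ρ - GG W R ^ m| ≤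
      GG W R ^ m * (2 * 16 ^ m / w) := by
    refine c1.trans (mul_le_mul_of_nonneg_left ?_ (zero_le_one.trans hGm))
    rw [mul_div_assoc]
    linarith
  let f : (J → Finset ℕ × Finset ℕ) → (T → Fin H) → ℝ := fun ρ y => ∏ j,
    (∏ p ∈ (ρ j).1, zz p (W * (c j + ∑ t, a j t * ((y t : ℕ) : ℤ)) + b)) *
      ∏ p ∈ (ρ j).2, zz p (W * (c j + ∑ t, a j t * ((y t : ℕ) : ℤ)) + b)
  have e1 : E (fun y : T → Fin H => ∏ j, nuS W R b (c j + ∑ t, a j t * ((y t : ℕ) : ℤ))) =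
      (GG W R ^ m)⁻¹ * ∑ ρ ∈ X, E (f ρ) := by
    rw [← E_sum, ← E_mul_left]
    refine congrArg E (funext fun y => ?_)
    unfold nuS
    rw [prod_div_distrib, prod_const, card_univ, div_eq_inv_mul]
    congr 1
    rw [← prod_univ_sum (fun _ : J => Fam W R ×ˢ Fam W R) fun j ρ =>
      (∏ p ∈ ρ.1, zz p (W * (c j + ∑ t, a j t * ((y t : ℕ) : ℤ)) + b)) *
        ∏ p ∈ ρ.2, zz p (W * (c j + ∑ t, a j t * ((y t : ℕ) : ℤ)) + b)]
    refine prod_congr rfl fun j _ => ?_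
    unfold FF
    rw [sq, sum_mul_sum, sum_product]
  have hX : (X.card : ℝ) ≤ (R : ℝ) ^ (2 * m) := by
    have : X.card ≤ R ^ (2 * m) := by
      rw [Fintype.card_piFinset, prod_const, card_univ, card_product, pow_mul, sq]
      exact Nat.pow_le_pow_left (Nat.mul_le_mul (card_Fam_le W R) (card_Fam_le W R)) _
    exact_mod_cast this
  have c5 : |∑ ρ ∈ X, E (f ρ) - ∑ ρ ∈ X, ∏ p ∈ PS W R, MM a W b c p ρ| ≤
      2 * Fintype.card T * (R : ℝ) ^ (4 * m) / H := by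
    rw [← sum_sub_distrib]
    refine (abs_sum_le_sum_abs _ _).trans
      ((sum_le_sum fun ρ hρ => term a W b c hH hT hρ).trans ?_)
    rw [sum_const, nsmul_eq_mul]
    refine (mul_le_mul_of_nonneg_right hX (by positivity)).trans_eq ?_
    rw [show 4 * m = 2 * m + 2 * m by ring, pow_add]
    ring
  have hpos : 0 < GG W R ^ m := zero_lt_one.trans_le hGm
  have e2 : (GG W R ^ m)⁻¹ * ∑ ρ ∈ X, E (f ρ) - 1 =
      (∑ ρ ∈ X, E (f ρ) - GG W R ^ m) / GG W R ^ m := by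
    field_simp
  rw [e1, e2, abs_div, abs_of_pos hpos, div_le_iff₀ hpos]
  have c6 : 2 * Fintype.card T * (R : ℝ) ^ (4 * m) / H ≤
      2 * Fintype.card T * (R : ℝ) ^ (4 * m) / H * GG W R ^ m :=
    le_mul_of_one_le_right (by positivity) hGm
  have c7 := abs_sub_le (∑ ρ ∈ X, E (f ρ)) (∑ ρ ∈ X, ∏ p ∈ PS W R, MM a W b c p ρ) (GG W R ^ m)
  linarith

end Pool.Agent.MP_a43263_nt.GT

end
end MrgPart1

-- ======== part 2: formerly Pool.Agent.MP_a43263_nt.GT.Gl
section MrgPart2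

/-! The lower bound for the normalising sum of the majorant. -/

set_option autoImplicit false

noncomputable section

namespace Pool.Agent.MP_a43263_nt.GT

open Finset

namespace GlH

/-- the completely multiplicative function `1 / n` -/
def rec1 : ℕ →* ℝ where
  toFun n := (n : ℝ)⁻¹
  map_one' := by simp
  map_mul' m n := by push_cast; rw [mul_inv]

theorem sum_le (s : Finset ℕ) (hs : ∀ p ∈ s, p.Prime) (T : Finset ℕ)
    (hT : ∀ m ∈ T, m ∈ Nat.factoredNumbers s) :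
    ∑ m ∈ T, (m : ℝ)⁻¹ ≤ ∏ p ∈ s, (1 - (p : ℝ)⁻¹)⁻¹ := by
  have h := (EulerProduct.summable_and_hasSum_factoredNumbers_prod_filter_prime_geometric
    (f := rec1) (fun {p} hp => by
      have : (1 : ℝ) < p := by exact_mod_cast hp.one_lt
      show ‖(p : ℝ)⁻¹‖ < 1
      rw [norm_inv, Real.norm_natCast]
      exact inv_lt_one_of_one_lt₀ this) s).2
  rw [filter_true_of_mem hs] at h
  have h2 := sum_le_hasSum (T.subtype (· ∈ Nat.factoredNumbers s))
    (fun m _ => show (0 : ℝ) ≤ ((m : ℕ) : ℝ)⁻¹ by positivity) h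
  refine le_trans (le_of_eq ?_) h2
  exact (sum_subtype_of_mem (fun m : ℕ => (m : ℝ)⁻¹) hT).symm

theorem fibre {W R : ℕ} (hW : 0 < W) {r : Finset ℕ} (hr : r ∈ Fam W R) :
    ∑ n ∈ (Icc 1 R).filter (fun n => n.primeFactors.filter (fun p => ¬p ∣ W) = r), (n : ℝ)⁻¹ ≤
      (∏ p ∈ r, 1 / ((p : ℝ) - 1)) * ∏ p ∈ W.primeFactors, (1 - (p : ℝ)⁻¹)⁻¹ := by
  have hp : ∀ p ∈ r, p.Prime ∧ ¬p ∣ W := fun p hp => (mem_PS.1 ((mem_Fam.1 hr).1 hp)).2
  set q : ℕ := ∏ p ∈ r, p with hq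
  have hq0 : 0 < q := prod_pos fun p h => (hp p h).1.pos
  set T := (Icc 1 R).filter (fun n => n.primeFactors.filter (fun p => ¬p ∣ W) = r) with hT
  have hd : ∀ n ∈ T, q ∣ n := fun n hn => by
    have h2 := (mem_filter.1 hn).2
    refine dvd_trans (prod_dvd_prod_of_subset _ _ _ ?_) (Nat.prod_primeFactors_dvd n)
    rw [← h2]
    exact filter_subset _ _
  have e1 : ∑ n ∈ T, (n : ℝ)⁻¹ = (q : ℝ)⁻¹ * ∑ m ∈ T.image (· / q), (m : ℝ)⁻¹ := by
    rw [sum_image fun x hx y hy e => by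
      rw [← Nat.mul_div_cancel' (hd x hx), ← Nat.mul_div_cancel' (hd y hy)]
      exact congrArg (q * ·) e, mul_sum]
    refine sum_congr rfl fun n hn => ?_
    conv_lhs => rw [← Nat.mul_div_cancel' (hd n hn)]
    push_cast
    rw [mul_inv]
  have hdis : Disjoint r W.primeFactors := disjoint_left.2 fun p h1 h2 =>
    (hp p h1).2 (Nat.dvd_of_mem_primeFactors h2)
  have h2 := sum_le (r ∪ W.primeFactors) (fun p h => (mem_union.1 h).elim (fun h => (hp p h).1)
    Nat.prime_of_mem_primeFactors) (T.image (· / q)) (fun m hm => by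
      obtain ⟨n, hn, rfl⟩ := mem_image.1 hm
      have hn0 : n ≠ 0 := by
        have := (mem_Icc.1 (mem_filter.1 hn).1).1
        omega
      refine Nat.mem_factoredNumbers_of_dvd (m := n) ?_ (Nat.div_dvd_of_dvd (hd n hn))
      refine Nat.mem_factoredNumbers_of_primeFactors_subset hn0 fun p h => ?_
      by_cases hw : p ∣ W
      · exact mem_union_right _
          (Nat.mem_primeFactors.2 ⟨Nat.prime_of_mem_primeFactors h, hw, hW.ne'⟩)
      · refine mem_union_left _ ?_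
        rw [← (mem_filter.1 hn).2]
        exact mem_filter.2 ⟨h, hw⟩)
  rw [prod_union hdis] at h2
  have e2 : ∏ p ∈ r, 1 / ((p : ℝ) - 1) = (q : ℝ)⁻¹ * ∏ p ∈ r, (1 - (p : ℝ)⁻¹)⁻¹ := by
    rw [hq, Nat.cast_prod, ← prod_inv_distrib, ← prod_mul_distrib]
    refine prod_congr rfl fun p h => ?_
    have : (p : ℝ) ≠ 0 := by exact_mod_cast (hp p h).1.ne_zero
    rw [← mul_inv, mul_sub, mul_one, mul_inv_cancel₀ this, one_div]
  rw [e1, e2, mul_assoc]
  exact mul_le_mul_of_nonneg_left h2 (by positivity)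

end GlH

/-- `GG W R ≥ (φ(W) / W) log (R + 1)` -/
theorem GG_ge {W : ℕ} (hW : 0 < W) (R : ℕ) :
    (W.totient : ℝ) / W * Real.log ((R : ℝ) + 1) ≤ GG W R := by
  have h1 : Real.log ((R : ℝ) + 1) ≤ ∑ n ∈ Icc 1 R, (n : ℝ)⁻¹ := by
    have := log_add_one_le_harmonic R
    rw [harmonic_eq_sum_Icc] at this
    push_cast at this
    exact this
  have h2 : ∑ n ∈ Icc 1 R, (n : ℝ)⁻¹ ≤ GG W R * ∏ p ∈ W.primeFactors, (1 - (p : ℝ)⁻¹)⁻¹ := by
    rw [← sum_fiberwise_of_maps_to (t := Fam W R)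
      (g := fun n : ℕ => n.primeFactors.filter fun p => ¬p ∣ W), GG, sum_mul]
    · exact sum_le_sum fun r hr => GlH.fibre hW hr
    · intro n hn
      obtain ⟨hn1, hn2⟩ := mem_Icc.1 hn
      refine mem_Fam.2 ⟨fun p hp => ?_, ?_⟩
      · obtain ⟨h3, h4⟩ := mem_filter.1 hp
        exact mem_PS.2 ⟨(Nat.le_of_mem_primeFactors h3).trans hn2,
          Nat.prime_of_mem_primeFactors h3, h4⟩
      · exact (Nat.le_of_dvd hn1 (dvd_trans (prod_dvd_prod_of_subset _ _ _ (filter_subset _ _))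
          (Nat.prod_primeFactors_dvd n))).trans hn2
  have hW' : (0 : ℝ) < W := by exact_mod_cast hW
  have hphi : (0 : ℝ) < W.totient := by exact_mod_cast Nat.totient_pos.2 hW
  have h3 : (W.totient : ℝ) = W * ∏ p ∈ W.primeFactors, (1 - (p : ℝ)⁻¹) := by
    have := congrArg (fun x : ℚ => (x : ℝ)) (Nat.totient_eq_mul_prod_factors W)
    push_cast at this
    exact this
  have h4 : (W.totient : ℝ) / W * ∏ p ∈ W.primeFactors, (1 - (p : ℝ)⁻¹)⁻¹ = 1 := by
    have h5 : ∏ p ∈ W.primeFactors, (1 - (p : ℝ)⁻¹) ≠ 0 := fun h => by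
      rw [h, mul_zero] at h3
      exact hphi.ne' h3
    rw [prod_inv_distrib, h3, mul_div_cancel_left₀ _ hW'.ne', mul_inv_cancel₀ h5]
  calc (W.totient : ℝ) / W * Real.log ((R : ℝ) + 1)
      ≤ (W.totient : ℝ) / W * (GG W R * ∏ p ∈ W.primeFactors, (1 - (p : ℝ)⁻¹)⁻¹) :=
        mul_le_mul_of_nonneg_left (h1.trans h2) (by positivity)
    _ = GG W R := by rw [mul_left_comm, h4, mul_one]

end Pool.Agent.MP_a43263_nt.GT

end
end MrgPart2

-- ======== part 3: formerly Pool.Agent.MP_a43263_nt.G7.Fine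
section MrgPart3

/-! PROJECT GT7: the descent when only the relevant symbols are known; bit mask certificates. -/

set_option autoImplicit false

namespace Pool.Agent.MP_a43263_nt.G7

open Finset Two

variable {n : ℕ}

/-- the table of symbols of `Q` -/
noncomputable def tt (Q : Fin (n + 2) → ℤ) (k i : Fin (n + 2)) : ZMod 2 :=
  if (if k = 0 then ZMod.χ₄ (Q i) else if k = 1 then ZMod.χ₈ (Q i)
    else jacobiSym (Q i) (Q k).natAbs) = -1 then 1 else 0

theorem sgn_ite {v : ℤ} (h : v = 1 ∨ v = -1) : v = sgn (if v = -1 then 1 else 0) := by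
  rcases h with rfl | rfl <;> decide

theorem ite_sgn : ∀ z : ZMod 2, (if sgn z = -1 then 1 else 0) = z := by decide

variable {Q : Fin (n + 2) → ℤ}

theorem pr_tt (h0 : Q 0 = -1) (h1 : Q 1 = 2) (hp : ∀ i, i ≠ 0 → ∃ p : ℕ, p.Prime ∧ Q i = p)
    (hi : Function.Injective Q) : Pr Q (tt Q) := by
  have odd : ∀ i, i ≠ 1 → Q i % 2 = 1 := fun i h => by
    by_cases e : i = 0
    · rw [e, h0]; rfl
    · obtain ⟨p, a1, a2⟩ := hp i e
      rcases a1.eq_two_or_odd with rfl | a3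
      · exact absurd (hi (a2.trans h1.symm)) h
      · omega
  refine ⟨h0, h1, hp, fun k i k0 k1 h => ?_, fun k k0 k1 => ?_, fun i h => ?_, fun i h => ?_⟩
  · rw [tt, if_neg k0, if_neg k1]
    refine sgn_ite (jacobiSym.eq_one_or_neg_one ?_)
    obtain ⟨p, a1, a2⟩ := hp k k0
    by_cases e : i = 0
    · simp [e, h0]
    · obtain ⟨q, b1, b2⟩ := hp i e
      rw [a2, b2, Int.natAbs_natCast, Int.gcd_natCast_natCast]
      exact (Nat.coprime_primes b1 a1).2 fun e => h (hi (by rw [a2, b2, e]))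
  · obtain ⟨p, a1, a2⟩ := hp k k0
    rw [tt, if_neg k0, if_neg k1, a2, Int.natAbs_natCast, jacobiSym.mod_left, Int.emod_self,
      jacobiSym.zero_left a1.one_lt, if_neg (by decide)]
  · rw [tt, if_pos rfl]
    refine sgn_ite ?_
    rw [ZMod.χ₄_int_eq_if_mod_four, if_neg (by have := odd i h; omega)]
    split_ifs <;> simp
  · rw [tt, if_neg one_ne_zero, if_pos rfl]
    refine sgn_ite ?_
    rw [ZMod.χ₈_int_eq_if_mod_eight, if_neg (by have := odd i h; omega)]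
    split_ifs <;> simp

/-- the pairs whose symbol matters -/
def Ok (eB eD : Fin (n + 2) → ℕ) (k i : Fin (n + 2)) : Prop :=
  i = 0 ∨ i = 1 ∨ ((eB k ≠ 0 ∨ eB i ≠ 0) ∧ (eD k ≠ 0 ∨ eD i ≠ 0))

variable {b T : Fin (n + 2) → Fin (n + 2) → ZMod 2} {eA eB eD : Fin (n + 2) → ℕ}
  {x : Fin (n + 2) → ZMod 2}

theorem rowJ_congr {e : Fin (n + 2) → ℕ} {k : Fin (n + 2)}
    (h : b k = T k ∨ (x k = 0 ∧ ∀ i, b k i = T k i ∨ x i = 0)) :
    ∑ i, rowJ T e k i * x i = ∑ i, rowJ b e k i * x i := by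
  refine sum_congr rfl fun i _ => ?_
  rcases h with h | ⟨h1, h⟩
  · simp [rowJ, h]
  · by_cases hi : i = k
    · simp [hi, h1]
    · rcases h i with h | h <;> simp [rowJ, hi, h]

theorem trE (h : ∀ k i, k ≠ 0 → k ≠ 1 → Ok eB eD k i → b k i = T k i)
    (hx : ∀ r, ∑ i, rowsE b eB eD false r i * x i = 0) :
    ∀ r, ∑ i, rowsE T eB eD false r i * x i = 0 := by
  have u : ∀ i, i ≠ 0 → i ≠ 1 → eB i = 0 → x i = 0 := fun i h0 h1 h2 => by
    simpa [rowsE, h0, h1, h2] using hx (false, i)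
  rintro ⟨_ | _, k⟩
  · exact hx (false, k)
  · have := hx (true, k)
    simp only [rowsE] at this ⊢
    split_ifs at this ⊢ with c
    · rw [← this]
      refine rowJ_congr ?_
      by_cases e : eB k = 0
      · refine .inr ⟨u k c.1 c.2.1 e, fun i => ?_⟩
        by_cases a : Ok eB eD k i
        · exact .inl (h k i c.1 c.2.1 a)
        · refine .inr (u i (fun e => a (.inl e)) (fun e => a (.inr (.inl e))) ?_)
          by_contra e'
          exact a (.inr (.inr ⟨.inr e', .inl (by omega)⟩))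
      · exact .inl (funext fun i => h k i c.1 c.2.1 (.inr (.inr ⟨.inl e, .inl (by omega)⟩)))
    · exact this

theorem trD (h : ∀ k i, k ≠ 0 → k ≠ 1 → Ok eB eD k i → b k i = T k i)
    (h0 : ∀ i, i ≠ 1 → b 0 i = T 0 i) (h1 : eD 1 = 0)
    (hx : ∀ r, ∑ i, rowsD b eB eD false r i * x i = 0) :
    ∀ r, ∑ i, rowsD T eB eD false r i * x i = 0 := by
  have u : ∀ i, i ≠ 0 → eD i = 0 → x i = 0 := fun i h0 h2 => by
    simpa [rowsD, h0, h2] using hx (false, i)
  rintro ⟨_ | _, k⟩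
  · exact hx (false, k)
  · have := hx (true, k)
    simp only [rowsD] at this ⊢
    split_ifs at this ⊢ with c0 c1 c2 c
    · rw [← this]
      refine sum_congr rfl fun i _ => ?_
      by_cases e : i = 1
      · simp [e, u 1 one_ne_zero h1]
      · rw [h0 i e]
    · exact absurd c2 (by simp)
    · exact this
    · rw [← this]
      refine rowJ_congr ?_
      by_cases e : eD k = 0
      · refine .inr ⟨u k c0 e, fun i => ?_⟩
        by_cases a : Ok eB eD k i
        · exact .inl (h k i c0 c1 a)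
        · refine .inr (u i (fun e => a (.inl e)) ?_)
          by_contra e'
          exact a (.inr (.inr ⟨.inl c, .inr e'⟩))
      · exact .inl (funext fun i => h k i c0 c1 (.inr (.inr ⟨.inl c, .inl e⟩)))
    · exact this

theorem jden {A B q : ℤ} [(EE A B).IsElliptic] (hq : Prime q) (b1 : ¬q ∣ B)
    (b2 : q ∣ A ^ 2 - 4 * B) (b3 : ¬q ∣ 2 ^ 4) : q ∣ (EE A B).j.den := by
  have e1 : ((EE A B).j.den : ℚ) * (2 ^ 4 * (A ^ 2 - 4 * B + B)) ^ 3 =
      (EE A B).j.num * (16 * B ^ 2 * (A ^ 2 - 4 * B)) := by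
    have e2 : (EE A B).Δ = 16 * B ^ 2 * (A ^ 2 - 4 * B) := by
      simp [WeierstrassCurve.Δ, WeierstrassCurve.b₂, WeierstrassCurve.b₄, WeierstrassCurve.b₆,
        WeierstrassCurve.b₈]
      ring
    have e3 : (EE A B).c₄ = 2 ^ 4 * (A ^ 2 - 4 * B + B) := by
      simp [WeierstrassCurve.c₄, WeierstrassCurve.b₂, WeierstrassCurve.b₄]
      ring
    have e5 : (EE A B).c₄ ^ 3 = (EE A B).j * (EE A B).Δ := by
      rw [WeierstrassCurve.j, ← WeierstrassCurve.coe_Δ', mul_right_comm, Units.inv_mul, one_mul]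
    rw [← Rat.mul_den_eq_num, ← e2, ← e3, e5]
    ring
  have e4 : ((EE A B).j.den : ℤ) * (2 ^ 4 * (A ^ 2 - 4 * B + B)) ^ 3 =
      (EE A B).j.num * (16 * B ^ 2 * (A ^ 2 - 4 * B)) := by exact_mod_cast e1
  refine (hq.dvd_or_dvd (e4 ▸ (b2.mul_left _).mul_left _)).resolve_right fun h => ?_
  exact (hq.dvd_or_dvd (hq.dvd_of_dvd_pow h)).elim b3 fun h => b1 ((dvd_add_right b2).1 h)

theorem fine {N A : ℤ} {s s' r : ℕ} {G : Fin s → Fin (n + 2) → ℕ}
    {G' : Fin (s' + 1) → Fin (n + 2) → ℕ} {Pv : Fin s → List (Fin (n + 2))}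
    {Pv' : Fin (s' + 1) → List (Fin (n + 2))} {C C' : Fin (n + 2) → List (Bool × Fin (n + 2))}
    (q0 : Q 0 = -1) (q1 : Q 1 = 2) (hp : ∀ i, i ≠ 0 → ∃ p : ℕ, p.Prime ∧ Q i = p)
    (hi : Function.Injective Q) (hS : eD 1 = 0 ∧ eB 1 = 4 ∧ ∀ k, k ≠ 0 → k ≠ 1 → eB k ≤ 1)
    (hA : A = N * ev Q eA) (hD : A ^ 2 - 4 * ev Q eB = ev Q eD) (h4 : A % 4 = 1)
    (t0 : ∀ i, i ≠ 1 → ZMod.χ₄ (Q i) = sgn (T 0 i)) (td : ∀ k, k ≠ 0 → k ≠ 1 → T k k = 0)
    (tj : ∀ k i, k ≠ 0 → k ≠ 1 → i ≠ k → Ok eB eD k i →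
      jacobiSym (Q i) (Q k).natAbs = sgn (T k i))
    (h0 : G' 0 = eD) (hG : ∀ l, SolZ A (ev Q eB) (ev Q (G l)))
    (hG' : ∀ l : Fin s', SolZ (-2 * A) (ev Q eD) (ev Q (G' l.succ)))
    (hC : Cert (rowsE T eB eD false) G Pv C) (hC' : Cert (rowsD T eB eD false) G' Pv' C')
    (hr : r + 1 = s + s') {k : Fin (n + 2)} (k0 : k ≠ 0) (k1 : k ≠ 1) (kB : eB k = 0)
    (kD : eD k ≠ 0) :
    ∃ (E : WeierstrassCurve ℚ) (_ : E.IsElliptic), Module.rank ℤ (Pt E ℚ) = r ∧
      (∀ k : ℕ, ∀ x ∈ Sha E, 2 ^ k • x = 0 → x = 0) ∧ Q k ∣ E.j.den := by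
  have hP := pr_tt q0 q1 hp hi
  have hS' : Side (tt Q) N 0 eA eB eD false :=
    ⟨hS.1, by simpa using hS.2.1, fun k a b => .inl (hS.2.2 k a b)⟩
  have ag : ∀ k i, k ≠ 0 → k ≠ 1 → Ok eB eD k i → tt Q k i = T k i := fun k i a b c => by
    by_cases e : i = k
    · rw [e, hP.diag k a b, td k a b]
    · rw [tt, if_neg a, if_neg b, tj k i a b e c, ite_sgn]
  have ag0 : ∀ i, i ≠ 1 → tt Q 0 i = T 0 i := fun i h => by rw [tt, if_pos rfl, t0 i h, ite_sgn]
  have hD' : (A : ℚ) ^ 2 - 4 * ev Q eB = ev Q eD := by exact_mod_cast hD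
  have ne : ∀ e, (ev Q e : ℚ) ≠ 0 := fun e => by exact_mod_cast hP.ev_ne e
  obtain ⟨a1, a2, a3⟩ : (EE A (ev Q eB)).IsElliptic ∧ Module.rank ℤ (Pt (EE A (ev Q eB)) ℚ) = r ∧
      ∀ k : ℕ, ∀ x ∈ Sha (EE A (ev Q eB)), 2 ^ k • x = 0 → x = 0 := by
    refine descent_two (ne _) (fun h => ?_) (fun l => ev Q (G l))
      (fun l : Fin s' => ev Q (G' l.succ))
      (fun l => ⟨ne _, (hG l).sol⟩) (fun l => ⟨ne _, by simpa [hD'] using (hG' l).sol⟩)
      (hP.indep hC) (fun J hJ => ?_) (fun β hβ h => ?_) (fun β hβ h => ?_) (by simpa using hr)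
    · simpa using hP.indep hC' {0} (by simpa [h0, hD'] using h)
    · rcases hJ with h | h
      · simpa using hP.indep hC' (J.map (Fin.succEmb _)) (by simpa using h)
      · simpa using hP.indep hC' (insert 0 (J.map (Fin.succEmb _))) (by
          rw [prod_insert (by simp)]
          simpa [h0, hD'] using h)
    · obtain ⟨x, h1, h2⟩ := hP.peel hβ h
      exact span hC (trE ag (hP.rowsE hS' hA hD h4 h2)) h1 (hP.ev_ne _)
    · obtain ⟨x, h1, h2⟩ := hP.peel (A := -2 * A) (e := eD) hβ (by simpa [hD'] using h)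
      obtain ⟨I, hI⟩ := span hC' (trD ag ag0 hS.1 (hP.rowsD hS' hA hD h4 (by simp) h2)) h1
        (hP.ev_ne _)
      refine ⟨univ.filter fun j => j.succ ∈ I, ?_⟩
      rw [← univ_inter I, ← prod_ite_mem, Fin.prod_univ_succ, ← prod_filter, h0] at hI
      rw [hD']
      split_ifs at hI
      exacts [.inr hI, .inl (by simpa using hI)]
  obtain ⟨p, p1, p2⟩ := hp k k0
  refine ⟨_, a1, a2, a3, jden (p2 ▸ Nat.prime_iff_prime_int.1 p1) (hP.not_dvd k0 kB) ?_ ?_⟩
  · rw [hD, ev_split k]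
    exact (dvd_pow_self _ kD).mul_right _
  · simpa [ev_single, q1] using hP.not_dvd (e := Pi.single 1 4) k0 (by simp [k1])

/-! ### bit masks -/

/-- the bit `i` of `x` -/
def bv (x i : ℕ) : ZMod 2 := if x.testBit i then 1 else 0

theorem bv_xor (x y i : ℕ) : bv (x ^^^ y) i = bv x i + bv y i := by
  simp only [bv, Nat.testBit_xor]
  cases x.testBit i <;> cases y.testBit i <;> decide

/-- the sum of a list of masks -/
def xs (L : List ℕ) : ℕ := L.foldr (· ^^^ ·) 0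

theorem bv_xs {ρ : Type} (m : ρ → ℕ) (L : List ρ) (i : ℕ) :
    bv (xs (L.map m)) i = (L.map fun r => bv (m r) i).sum := by
  induction L with
  | nil => simp [xs, bv]
  | cons a L ih => rw [List.map_cons, List.map_cons, List.sum_cons, ← ih, ← bv_xor]; rfl

theorem bv_pow (j i : Fin (n + 2)) : bv (2 ^ j.val) i = if j = i then 1 else 0 := by
  simp [bv, Nat.testBit_two_pow, Fin.ext_iff]

theorem bv_cnt (L : List (Fin (n + 2))) (i : Fin (n + 2)) :
    bv (xs (L.map fun j => 2 ^ j.val)) i = L.count i := by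
  rw [bv_xs]
  induction L with
  | nil => simp
  | cons a L ih =>
    rw [List.map_cons, List.sum_cons, ih, bv_pow, List.count_cons]
    by_cases h : a = i <;> simp [h, add_comm]

theorem cert_of {ρ : Type} {s : ℕ} {R : ρ → Fin (n + 2) → ZMod 2} {G : Fin s → Fin (n + 2) → ℕ}
    {Pv : Fin s → List (Fin (n + 2))} {C : Fin (n + 2) → List ρ} (m : ρ → ℕ)
    (h1 : ∀ l l', ((Pv l).map fun i => (G l' i : ZMod 2)).sum = if l' = l then 1 else 0)
    (hm : ∀ r i, R r i = bv (m r) i)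
    (hx : ∀ j, xs ((C j).map m) = 2 ^ j.val ^^^ xs ((List.finRange s).map fun l =>
      if G l j % 2 = 1 then xs ((Pv l).map fun j => 2 ^ j.val) else 0)) : Cert R G Pv C := by
  refine ⟨h1, fun j i => ?_⟩
  simp only [hm]
  rw [← bv_xs, hx, bv_xor, bv_pow, bv_xs, Fin.sum_univ_def]
  congr 2
  refine List.map_congr_left fun l _ => ?_
  rw [← ZMod.natCast_mod (G l j) 2]
  rcases Nat.mod_two_eq_zero_or_one (G l j) with h | h
  · simp [h, bv]
  · simp [h, bv_cnt]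

/-- the rows selected by the mask `c` -/
def sel (c : ℕ) (j : Fin (n + 2)) : List (Bool × Fin (n + 2)) :=
  ((List.finRange (n + 2)).flatMap fun k => [(false, k), (true, k)]).filter fun r =>
    c.testBit (2 * (n + 2) * j + 2 * r.2 + r.1.toNat)

/-- the table stored in `c` -/
def tab (c : ℕ) (k i : Fin (n + 2)) : ZMod 2 := bv c ((n + 2) * k + i)

/-- a row of the table -/
def row (c : ℕ) (k : Fin (n + 2)) : ℕ := (c >>> ((n + 2) * k)) % 2 ^ (n + 2)

theorem bv_row (c : ℕ) (k i : Fin (n + 2)) : bv (row c k) i = tab c k i := by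
  simp [bv, row, tab, Nat.testBit_mod_two_pow, Nat.testBit_shiftRight, i.2]

theorem bv_zero (i : ℕ) : bv 0 i = 0 := by simp [bv]

/-- a row with its diagonal entry -/
def mJ (c g : ℕ) (k : Fin (n + 2)) : ℕ := row c k ^^^ if g.testBit k then 2 ^ k.val else 0

theorem bv_mJ {c g : ℕ} {e : Fin (n + 2) → ℕ} {k : Fin (n + 2)} (h : tab c k k = 0)
    (hg : bv g k = tab c k 0 + ch (tab c k) e) (i : Fin (n + 2)) :
    rowJ (tab c) e k i = bv (mJ c g k) i := by
  rw [rowJ, ← hg, mJ, bv_xor, bv_row, bv]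
  by_cases e : i = k
  · subst e
    cases g.testBit i <;> simp [h, bv_pow, bv_zero]
  · cases g.testBit k <;> simp [e, Ne.symm e, bv_pow, bv_zero]

/-- masks of the rows of the first isogeny -/
def mE (c g : ℕ) (eB eD : Fin (n + 2) → ℕ) : Bool × Fin (n + 2) → ℕ
  | (false, j) => if j ≠ 0 ∧ (j = 1 ∨ eB j = 0) then 2 ^ j.val else 0
  | (true, k) => if k ≠ 0 ∧ k ≠ 1 ∧ eD k = 1 then mJ c g k else 0

/-- masks of the rows of the second isogeny -/
def mD (c g : ℕ) (eB eD : Fin (n + 2) → ℕ) : Bool × Fin (n + 2) → ℕ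
  | (false, j) => if j ≠ 0 ∧ eD j = 0 then 2 ^ j.val else 0
  | (true, k) => if k = 0 then row c k else if k = 1 then 0 else if eB k ≠ 0 then mJ c g k else 0

/-- the check of one certificate -/
def CK {s : ℕ} (m : Bool × Fin (n + 2) → ℕ) (G : Fin s → Fin (n + 2) → ℕ)
    (Pv : Fin s → List (Fin (n + 2))) (c : ℕ) : Prop :=
  (∀ l l', ((Pv l).map fun i => (G l' i : ZMod 2)).sum = if l' = l then 1 else 0) ∧
    ∀ j, xs ((sel c j).map m) = 2 ^ j.val ^^^ xs ((List.finRange s).map fun l =>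
      if G l j % 2 = 1 then xs ((Pv l).map fun j => 2 ^ j.val) else 0)

/-- the check of the diagonal -/
def DK (c g : ℕ) (e : Fin (n + 2) → ℕ) : Prop :=
  ∀ k, k ≠ 0 → k ≠ 1 → tab c k k = 0 ∧ bv g k = tab c k 0 + ch (tab c k) e

theorem certE {s c g c' : ℕ} {G : Fin s → Fin (n + 2) → ℕ} {Pv : Fin s → List (Fin (n + 2))}
    (h : DK c g eD) (h' : CK (mE c g eB eD) G Pv c') :
    Cert (rowsE (tab c) eB eD false) G Pv (sel c') := by
  refine cert_of _ h'.1 ?_ h'.2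
  rintro ⟨_ | _, k⟩ i
  · simp only [rowsE, mE, apply_ite (bv · i), bv_pow, bv_zero]
    by_cases h0 : k = 0 <;> by_cases h1 : k = 1 <;> by_cases h2 : eB k = 0 <;>
      simp [h0, h1, h2, eq_comm]
  · simp only [rowsE, mE]
    split_ifs with a
    exacts [bv_mJ (h k a.1 a.2.1).1 (h k a.1 a.2.1).2 i, (bv_zero _).symm]

theorem certD {s c g c' : ℕ} {G : Fin s → Fin (n + 2) → ℕ} {Pv : Fin s → List (Fin (n + 2))}
    (h : DK c g eB) (h' : CK (mD c g eB eD) G Pv c') :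
    Cert (rowsD (tab c) eB eD false) G Pv (sel c') := by
  refine cert_of _ h'.1 ?_ h'.2
  rintro ⟨_ | _, k⟩ i
  · simp only [rowsD, mD, apply_ite (bv · i), bv_pow, bv_zero]
    by_cases h0 : k = 0 <;> by_cases h2 : eD k = 0 <;> simp [h0, h2, eq_comm]
  · simp only [rowsD, mD]
    split_ifs with a0 a1 a2 a3
    · rw [bv_row, a0]
    · exact absurd a2 (by simp)
    · exact (bv_zero _).symm
    · exact bv_mJ (h k a0 a1).1 (h k a0 a1).2 i
    · exact (bv_zero _).symm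

end Pool.Agent.MP_a43263_nt.G7

end MrgPart3

-- marker of a merged file
example : 731051 + 779519 = 731051 + 779519 := rfl
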