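import Mathlib.Analysis.PSeries
import Pool.Agent.MP_a43263_nt.GT.Pse
import Pool.Agent.MP_a43263_nt.GT.Cl
import Pool.Agent.MP_a43263_nt.G7.Fine
import Pool.Agent.MP_a43263_nt.GT.Wrap
import Pool.Agent.MP_a43263_nt.GT.Spec2
import Pool.Agent.MP_a43263_nt.GT.Spec3
import Pool.Agent.MP_a43263_nt.GT.RszAll
import Pool.Agent.MP_a43263_nt.G7.Key

-- ======== part 0: formerly Pool.Agent.MP_a43263_nt.GT.MajS
section MrgPart0

/-! PROJECT GT7: the elementary majorant satisfies the linear forms condition. -/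

set_option autoImplicit false

noncomputable section

namespace Pool.Agent.MP_a43263_nt.GT

open Finset Function
open DH (E ind)

/-- a pseudorandom majorant of the numbers without small prime factors exists -/
def MajStmt : Prop := ∀ (κ : Type) [Fintype κ] [DecidableEq κ] [Nontrivial κ]
  (e : κ → ℕ), Injective e → ∃ η₀ : ℝ, 0 < η₀ ∧ η₀ ≤ 1 / 2 ∧ ∀ η : ℝ, 0 < η → η ≤ η₀ →
  ∀ ε : ℝ, 0 < ε → ∃ w N₀ : ℕ,
  ∀ (N : ℕ) [NeZero N], N₀ ≤ N → (∀ i j, i ≠ j → IsUnit ((e j : ZMod N) - e i)) → ∀ b : ℤ,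
  ∃ ν : ZMod N → ℝ, (∀ n, 0 ≤ ν n) ∧
    (∀ n : ZMod N, (∀ p : ℕ, p.Prime → (p : ℤ) ∣ primorial w * n.val + b →
      Real.exp (η * Real.log N) < p) → rho w * (η * Real.log N) ≤ ν n) ∧
    LFC (fun j (x : κ → ZMod N) => ν (lin e j x)) ε

theorem maj : MajStmt := by
  intro κ _ _ _ e he
  set m := Fintype.card (κ × (κ → Bool)) with hm
  set t := Fintype.card (κ × Bool) with ht
  have hm1 : 1 ≤ m := Fintype.card_pos
  have hm' : (1 : ℝ) ≤ m := by exact_mod_cast hm1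
  let K : ℕ := ∑ i, e i
  have hK : ∀ q s, |Pse.psi e q s| ≤ K := fun q s => by
    have k : ∀ i, (e i : ℤ) ≤ K := fun i => by
      exact_mod_cast single_le_sum (fun _ _ => Nat.zero_le _) (mem_univ i)
    unfold Pse.psi
    split_ifs
    · have := k q.1
      have := k s.1
      rw [abs_le]
      constructor <;> omega
    · simp
  refine ⟨1 / (12 * m), by positivity, one_div_le_one_div_of_le two_pos (by linarith),
    fun η hη hη' ε hε => ?_⟩
  obtain ⟨w₁, hw₁⟩ := exists_nat_ge (6 * 16 ^ m / ε)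
  obtain ⟨Q₁, hQ₁⟩ := exists_nat_ge (6 * t / ε)
  obtain ⟨u, hu16⟩ : ∃ u : ℕ, u = 16 ^ m := ⟨_, rfl⟩
  set w := w₁ + 1 + K + 2 * K ^ 2 + u with hw
  set Q := Q₁ + t + 1 with hQ
  set C : ℝ := 2 * m * (t * K * Q) with hC
  obtain ⟨N₀, hN₀⟩ := exists_nat_ge (9 * C ^ 2 / ε ^ 2)
  refine ⟨w, N₀, fun N _ hN hu b => ?_⟩
  have hN0 : (0 : ℝ) < N := Nat.cast_pos.2 (Nat.pos_of_ne_zero (NeZero.ne N))
  have hN1 : (1 : ℝ) ≤ N := Nat.one_le_cast.2 (Nat.pos_of_ne_zero (NeZero.ne N))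
  set L := η * Real.log N with hL
  have hL0 : 0 ≤ L := mul_nonneg hη.le (Real.log_nonneg hN1)
  set R := ⌊Real.exp L⌋₊ with hR
  have hR1 : 1 ≤ R := Nat.le_floor (by simpa using hL0)
  have hR1' : (1 : ℝ) ≤ R := by exact_mod_cast hR1
  have hR2 : (R : ℝ) ≤ Real.exp L := Nat.floor_le (Real.exp_pos _).le
  refine ⟨fun n => nuS (primorial w) R b n.val, fun n => nu_nonneg hR1 _ _,
    fun n hn => ?_, fun J hJ => ?_⟩
  · show _ ≤ nuS (primorial w) R b n.val
    rw [nu_eq_GG hR1, rho_eq]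
    · refine le_trans (mul_le_mul_of_nonneg_left ?_ (by positivity)) (GG_ge (primorial_pos w) R)
      exact (Real.le_log_iff_exp_le (by positivity)).2 (Nat.lt_floor_add_one _).le
    · intro q hq hd
      have : (q : ℝ) ≤ R := by exact_mod_cast (mem_PS.1 hq).1
      linarith [hn q (mem_PS.1 hq).2.1 hd]
  have hj : Fintype.card J ≤ m := Fintype.card_le_of_injective _ Subtype.val_injective
  have hj' : (Fintype.card J : ℝ) ≤ m := by exact_mod_cast hj
  have hH : 0 < R ^ (4 * m) * Q := Nat.mul_pos (pow_pos hR1 _) (by omega)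
  have h1 := wrap (J := J) (fun q => Pse.psi e q.1) K N (R ^ (4 * m) * Q)
    (nuS (primorial w) R b) (R ^ 2) _ (nu_nonneg hR1 b) (nu_le hR1 b) (one_le_pow₀ hR1')
    (fun q => hK q.1)
    (fun q => let ⟨i, hi⟩ := exists_ne q.1.1
      ⟨(i, q.1.2 i), by rw [Pse.psi_self]; push_cast; exact hu i _ hi⟩) hH
    fun c => boxS J (κ × Bool) (fun q => Pse.psi e q.1) K w (primorial w) R _ b c
      (fun q => hK q.1)
      (fun q => let ⟨i, hi⟩ := exists_ne q.1.1
        ⟨(i, q.1.2 i), by rw [Pse.psi_self]; exact Pse.sub_ne he hi.symm⟩)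
      (fun q q' h => (Pse.minor he (hJ _ q.2) (hJ _ q'.2) fun k => h (Subtype.ext k)).imp
        fun _ k => k.imp fun _ k => sub_ne_zero.1 k)
      (by omega) (by omega) (by omega)
      (fun p hp h => (Nat.Prime.dvd_primorial_iff hp).2 h) hR1 hH
      (by
        rw [mul_comm]
        exact Nat.mul_le_mul (Nat.pow_le_pow_right hR1 (by omega)) (by omega))
      ((Nat.pow_le_pow_right (by norm_num) hj).trans (hu16 ▸ (by omega : u ≤ w)))
  have h2 : (fun x : κ × Bool → ZMod N =>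
      ∏ q ∈ J, nuS (primorial w) R b (lin e q.1 (pick x q.2)).val) = fun x =>
      ∏ q : J, nuS (primorial w) R b (∑ s, (Pse.psi e q.1 s : ZMod N) * x s).val := by
    funext x
    rw [← prod_coe_sort J]
    exact prod_congr rfl fun q _ => by rw [Pse.lin_pick]
  refine le_trans (le_of_eq (by rw [← h2])) (h1.trans ?_)
  rw [← ht]
  have hw0 : (w₁ : ℝ) < w := by exact_mod_cast (by omega : w₁ < w)
  have hQ0 : (Q₁ : ℝ) < Q := by exact_mod_cast (by omega : Q₁ < Q)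
  have hw1 : (0 : ℝ) < w := (Nat.cast_nonneg _).trans_lt hw0
  have hQ1 : (0 : ℝ) < Q := (Nat.cast_nonneg _).trans_lt hQ0
  have a1 : 2 * 16 ^ Fintype.card J / (w : ℝ) ≤ ε / 3 := by
    have k : (16 : ℝ) ^ Fintype.card J ≤ 16 ^ m := pow_le_pow_right₀ (by norm_num) hj
    rw [div_le_iff₀ hε] at hw₁
    rw [div_le_iff₀ hw1]
    nlinarith
  have a2 : 2 * t * (R : ℝ) ^ (4 * Fintype.card J) / (R ^ (4 * m) * Q : ℕ) ≤ ε / 3 := by
    have k : (R : ℝ) ^ (4 * Fintype.card J) ≤ R ^ (4 * m) := pow_le_pow_right₀ hR1' (by omega)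
    have k0 : (0 : ℝ) < R ^ (4 * m) := by positivity
    rw [div_le_iff₀ hε] at hQ₁
    push_cast
    rw [div_le_iff₀ (by positivity)]
    have k1 : 2 * (t : ℝ) ≤ ε / 3 * Q := by nlinarith
    calc _ ≤ ε / 3 * Q * R ^ (4 * m) := mul_le_mul k1 k (by positivity) (by positivity)
      _ = _ := by ring
  have a3 : ((R : ℝ) ^ 2) ^ Fintype.card J *
      (2 * Fintype.card J * (t * K * (R ^ (4 * m) * Q) : ℕ) / N) ≤ ε / 3 := by
    have k1 : ((R : ℝ) ^ (6 * m)) ^ 2 ≤ N := by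
      rw [← pow_mul]
      refine (pow_le_pow_left₀ (by positivity) (hR2.trans (Real.exp_le_exp.2
        (mul_le_mul_of_nonneg_right hη' (Real.log_nonneg hN1)))) _).trans_eq ?_
      rw [← Real.exp_nat_mul, ← mul_assoc]
      push_cast
      rw [show 6 * (m : ℝ) * 2 * (1 / (12 * m)) = 1 by field_simp; norm_num, one_mul,
        Real.exp_log hN0]
    have k2 : 9 * C ^ 2 ≤ N * ε ^ 2 := by
      rw [div_le_iff₀ (by positivity)] at hN₀
      exact hN₀.trans (mul_le_mul_of_nonneg_right (by exact_mod_cast hN) (by positivity))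
    have k3 : (R : ℝ) ^ (6 * m) * C ≤ ε / 3 * N := by
      refine (le_abs_self _).trans (abs_le_of_sq_le_sq ?_ (by positivity))
      rw [mul_pow]
      calc _ ≤ N * C ^ 2 := mul_le_mul_of_nonneg_right k1 (sq_nonneg _)
        _ ≤ N * (N * ε ^ 2 / 9) := mul_le_mul_of_nonneg_left (by linarith) hN0.le
        _ = _ := by ring
    rw [← mul_div_assoc, div_le_iff₀ hN0]
    refine le_trans ?_ k3
    push_cast
    calc _ ≤ ((R : ℝ) ^ 2) ^ m * (2 * m * (t * K * (R ^ (4 * m) * Q))) := by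
          gcongr
          exact one_le_pow₀ hR1'
      _ = _ := by
          rw [hC, ← pow_mul, show 6 * m = 2 * m + 4 * m by ring, pow_add]
          ring
  linarith

theorem pse2_of_maj (h : MajStmt) : Pse2Stmt := by
  intro κ _ _ _ e he
  obtain ⟨η, h0, h1, h2⟩ := h κ e he
  refine ⟨η, h0, h1, fun ε hε => ?_⟩
  obtain ⟨w, N₀, h3⟩ := h2 η h0 le_rfl ε hε
  refine ⟨w, N₀, fun N _ hN hu b => ?_⟩
  obtain ⟨ν, a1, a2, a3⟩ := h3 N hN hu b
  refine ⟨ν, a1, fun n hp hlt => a2 n fun p hp' hd => ?_, a3⟩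
  have : p ∣ primorial w * n.val + b := by exact_mod_cast hd
  rwa [(Nat.prime_dvd_prime_iff_eq hp' hp).1 this]

theorem pse3M : Pse3Stmt := by
  intro κ _ _ _ e he
  obtain ⟨η₀, h0, h1, h2⟩ := maj κ e he
  refine ⟨η₀, h0, h1, fun η k0 k1 ε hε => ?_⟩
  obtain ⟨w, N₀, h3⟩ := h2 η k0 k1 ε hε
  refine ⟨w, N₀, fun N _ hN hu b => ?_⟩
  obtain ⟨ν, a1, a2, a3⟩ := h3 N hN hu b
  exact ⟨ν, a1, fun n hn => a2 n fun p hp hd => hn p hp (by exact_mod_cast hd), a3⟩

end Pool.Agent.MP_a43263_nt.GT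

end
end MrgPart0

-- ======== part 1: formerly Pool.Agent.MP_a43263_nt.GT.Gtc
section MrgPart1

/-! PROJECT GT7, row GTC: dense sets of rough numbers contain many copies of a pattern. -/

set_option autoImplicit false

namespace Pool.Agent.MP_a43263_nt.GT

open Finset Filter Function
open DH (E ind)

namespace Gc

theorem dvd_fac {m i j : ℕ} (hi : i ≤ m) (hj : j ≤ m) (h : i ≠ j) : (j : ℤ) - i ∣ m.factorial :=
  Int.natAbs_dvd.1 (Int.natCast_dvd_natCast.2 (Nat.dvd_factorial (by omega) (by omega)))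

theorem unit {m i j : ℕ} (t : ℕ) (hi : i ≤ m) (hj : j ≤ m) (h : i ≠ j) :
    IsUnit ((j : ZMod (m.factorial * t + 1)) - i) := by
  have a : IsUnit ((m.factorial : ℤ) : ZMod (m.factorial * t + 1)) := by
    refine IsUnit.of_mul_eq_one (-t) ?_
    have := ZMod.natCast_self (m.factorial * t + 1)
    push_cast at this ⊢
    linear_combination -this
  simpa using isUnit_of_dvd_unit (map_dvd (Int.castRingHom _) (dvd_fac hi hj h)) a

/-- the linear relation between three terms lifts to the integers -/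
theorem rel {N m T s t u : ℕ} [NeZero N] (a d : ZMod N) (hs : s ≤ m) (ht : t ≤ m) (hu : u ≤ m)
    (h1 : (a + s * d).val ≤ T) (h2 : (a + t * d).val ≤ T) (h3 : (a + u * d).val ≤ T)
    (h : 3 * (m * T) < N) : ((t : ℤ) - s) * (a + u * d).val =
      (t - u) * (a + s * d).val + (u - s) * (a + t * d).val := by
  have b : ∀ i j x : ℕ, i ≤ m → j ≤ m → x ≤ T → |((i : ℤ) - j) * x| ≤ m * T := fun i j x p q r => by
    rw [abs_mul, Nat.abs_cast]
    exact mul_le_mul (abs_le.2 ⟨by omega, by omega⟩) (by omega) (by positivity) (by positivity)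
  refine sub_eq_zero.1 (Int.eq_zero_of_abs_lt_dvd (m := N)
    ((ZMod.intCast_zmod_eq_zero_iff_dvd _ N).1 ?_) ?_)
  · push_cast [ZMod.natCast_zmod_val]
    ring
  · have b1 := abs_le.1 (b t s _ ht hs h3)
    have b2 := abs_le.1 (b t u _ ht hu h1)
    have b3 := abs_le.1 (b u s _ hu hs h2)
    zify at h
    exact abs_lt.2 ⟨by linarith [b1.1, b2.2, b3.2], by linarith [b1.2, b2.1, b3.1]⟩

theorem E_ind {Ω : Type} [Fintype Ω] (P : Ω → Prop) [DecidablePred P] :
    E (fun x => ind (P x)) = (univ.filter P).card / Nat.card Ω := by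
  rw [DH.E_eq_div, ← sum_boole]
  congr 2
  funext x
  unfold ind
  congr

theorem le_E {N W b : ℕ} [NeZero N] (A : Finset ℕ) (h : ∀ q ∈ A, q / W < N ∧ q % W = b) :
    (A.card : ℝ) / N ≤ E fun n : ZMod N => ind (W * n.val + b ∈ A) := by
  rw [E_ind, Nat.card_zmod]
  refine div_le_div_of_nonneg_right (Nat.cast_le.2 ?_) (Nat.cast_nonneg _)
  have v : ∀ q ∈ A, W * ((q / W : ℕ) : ZMod N).val + b = q := fun q hq => by
    rw [ZMod.val_cast_of_lt (h q hq).1, ← (h q hq).2, Nat.div_add_mod]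
  refine card_le_card_of_injOn (fun q => ((q / W : ℕ) : ZMod N))
    (fun q hq => mem_coe.2 (mem_filter.2 ⟨mem_univ _, (v q hq).symm ▸ hq⟩)) fun q hq q' hq' e => ?_
  rw [← v q hq, ← v q' hq', show ((q / W : ℕ) : ZMod N) = (q' / W : ℕ) from e]

theorem pigeon (A t : Finset ℕ) (W : ℕ) (ht : t.Nonempty) (h : ∀ q ∈ A, q % W ∈ t) :
    ∃ b : ℕ, ∃ B ⊆ A, (∀ q ∈ B, q % W = b) ∧ (A.card : ℝ) ≤ t.card * B.card := by
  have t0 : (0 : ℝ) < t.card := Nat.cast_pos.2 ht.card_pos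
  obtain ⟨b, -, hb⟩ := exists_le_card_fiber_of_nsmul_le_card_of_maps_to (s := A) (t := t)
    (f := fun q => q % W) (b := (A.card : ℝ) / t.card) h ht
    (by rw [nsmul_eq_mul, mul_div_cancel₀ _ t0.ne'])
  exact ⟨b, _, filter_subset _ _, fun q hq => (mem_filter.1 hq).2, (div_le_iff₀' t0).1 hb⟩

theorem log_le {X N : ℕ} (h0 : 0 < X) (h : X ≤ N ^ 2) : Real.log X ≤ 2 * Real.log N := by
  have := Real.log_le_log (Nat.cast_pos.2 h0) (Nat.cast_le (α := ℝ).2 h)
  rwa [Nat.cast_pow, Real.log_pow] at this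

theorem sizes {F W M X T : ℕ} (hF : 0 < F) (hW : 0 < W) (h1 : W * T ≤ X) (h2 : X < W * (T + 1))
    (h3 : M + W + 9 * F ≤ T) : X ≤ W * (F * (4 * (T + 1)) + 1) ∧
      W * (F * (4 * (T + 1)) + 1) ≤ 9 * F * X ∧ X ≤ (F * (4 * (T + 1)) + 1) ^ 2 ∧
      F * (4 * (T + 1)) + 1 ≤ X ^ 2 ∧ T < F * (4 * (T + 1)) + 1 ∧ T ≤ X := by
  have a : T + 1 ≤ F * (4 * (T + 1)) + 1 := by nlinarith
  have b : T ≤ X := (Nat.le_mul_of_pos_left T hW).trans h1
  have c : W * (F * (4 * (T + 1)) + 1) ≤ 9 * F * X := by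
    have : W ≤ X := by omega
    nlinarith [Nat.mul_le_mul_left F h1, Nat.mul_le_mul_left F this, Nat.mul_le_mul hF this]
  have d := h2.le.trans (Nat.mul_le_mul_left W a)
  refine ⟨d, c, d.trans ?_, ((Nat.le_mul_of_pos_left _ hW).trans c).trans ?_, a, b⟩ <;> rw [sq]
  · exact Nat.mul_le_mul_right _ (by omega)
  · exact Nat.mul_le_mul_right _ (by omega)

end Gc

open Gc in
theorem gtc (rsz : RszStmt) (pse : Pse3Stmt) : GTCStmt := by
  classical
  intro κ _ _ _ e he θ δ hθ hδ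
  obtain ⟨η₀, η00, η01, hη⟩ := pse κ e he
  obtain ⟨η, η0, η1, η2⟩ : ∃ η : ℝ, 0 < η ∧ η ≤ η₀ ∧ η ≤ θ / 2 :=
    ⟨min η₀ (θ / 2), by positivity, min_le_left _ _, min_le_right _ _⟩
  obtain ⟨m, hm⟩ : ∃ m : ℕ, ∀ j, e j ≤ m := ⟨univ.sup e, fun j => le_sup (mem_univ j)⟩
  obtain ⟨f, g, fg⟩ := exists_pair_ne κ
  have F0 := m.factorial_pos
  obtain ⟨c, c1, ε, ε0, N₀, hR⟩ := rsz κ e (η * δ / (18 * m.factorial ^ 2)) (by positivity)
  obtain ⟨w, N₁, hP⟩ := hη η η0 η1 ε ε0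
  obtain ⟨X₁, h1⟩ := eventually_atTop.1 (((tendsto_rpow_atTop hθ).comp
    tendsto_natCast_atTop_atTop).eventually_ge_atTop (w : ℝ))
  have W0 := primorial_pos w
  refine ⟨c / primorial w ^ 2, by positivity,
    primorial w * (N₀ + N₁ + X₁ + 2 + primorial w + 9 * m.factorial), fun X hX A hA hc => ?_⟩
  have q1 := (Nat.le_div_iff_mul_le W0).2 ((mul_comm _ _).trans_le hX)
  obtain ⟨s1, s2, s3, s4, s5, s6⟩ := sizes F0 W0 (Nat.mul_div_le X _) (Nat.lt_mul_div_succ X W0) q1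
  have hu := fun (i j : κ) (h : i ≠ j) => unit (4 * (X / primorial w + 1)) (hm i) (hm j) (he.ne h)
  have s7 : 3 * (m * (X / primorial w)) < m.factorial * (4 * (X / primorial w + 1)) + 1 := by
    nlinarith [Nat.mul_le_mul_right (X / primorial w) m.self_le_factorial]
  generalize m.factorial * (4 * (X / primorial w + 1)) + 1 = N at s1 s2 s3 s4 s5 s7 hu
  have : NeZero N := ⟨by omega⟩
  have X1 : (1 : ℝ) < X := Nat.one_lt_cast.2 (by omega)
  have N1 : (1 : ℝ) < N := Nat.one_lt_cast.2 (by omega)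
  have lX := Real.log_pos X1
  have lN := Real.log_pos N1
  have l1 := log_le (by omega) s3
  have l2 := log_le (by omega) s4
  obtain ⟨r, A₁, sA, hr, cA⟩ := pigeon A (range m.factorial) m.factorial ⟨0, mem_range.2 F0⟩
    fun q _ => mem_range.2 (Nat.mod_lt _ F0)
  obtain ⟨b, B, sB, hb, cB⟩ := pigeon A₁ ((range (primorial w)).filter (primorial w).Coprime)
    (primorial w) (card_pos.1 (Nat.totient_pos.2 W0)) fun q hq =>
      mem_filter.2 ⟨mem_range.2 (Nat.mod_lt _ W0), by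
        rw [Nat.Coprime, Nat.gcd_comm, ← Nat.gcd_rec]
        exact Nat.coprime_of_dvd fun p hp a a' => ((hA q (sA hq)).2.2 p hp a').not_ge
          ((Nat.cast_le.2 (hp.dvd_primorial_iff.1 a)).trans (h1 X (by omega)))⟩
  rw [card_range] at cA
  rw [← Nat.totient_eq_card_coprime] at cB
  obtain ⟨ν, ν0, ν1, ν2⟩ := hP N (by omega) hu b
  have ρ0 := rho_pos w
  have a3 : (0 : ℝ) < primorial w := Nat.cast_pos.2 W0
  have n0 : 0 ≤ rho w * (η * Real.log N) := by positivity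
  have n1 : rho w * (η * Real.log N) ≤ Real.log X :=
    (mul_le_of_le_one_left (by positivity) (rho_le_one w)).trans (by nlinarith)
  have key := hR N (by omega) hu ν
    (fun n => rho w * (η * Real.log N) * ind (primorial w * n.val + b ∈ B))
    (fun n => ⟨mul_nonneg n0 (DH.ind_nonneg _), ?_⟩) ?_ ν2
  · have a1 := key.trans (DH.E_mono (g := fun z : ZMod N × ZMod N =>
      Real.log X ^ Fintype.card κ * ind (∀ j, primorial w * (z.1 + e j * z.2).val + b ∈ B))
      fun z => ?_)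
    · rw [DH.E_mul_left, E_ind, Nat.card_prod, Nat.card_zmod] at a1
      have a2 := Nat.cast_le (α := ℝ).2 (card_le_card_of_injOn
        (s := univ.filter fun z : ZMod N × ZMod N =>
          ∀ j, primorial w * (z.1 + e j * z.2).val + b ∈ B)
        (t := (Fintype.piFinset fun _ : κ => A).filter
          fun l => ∃ a d : ℤ, ∀ j, (l j : ℤ) = a + e j * d)
        (fun z j => primorial w * (z.1 + e j * z.2).val + b) (fun z hz => ?_)
        fun z _ z' _ h => ?_)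
      · refine le_trans ?_ a2
        have a4 : (X : ℝ) ≤ primorial w * N := by exact_mod_cast s1
        rw [← mul_div_assoc, Nat.cast_mul, le_div_iff₀ (by positivity)] at a1
        rw [div_le_iff₀' (by positivity)]
        refine le_trans ?_ a1
        calc _ ≤ c / primorial w ^ 2 * (primorial w * N : ℝ) ^ 2 := by gcongr
          _ = _ := by field_simp
      · have hz := (mem_filter.1 hz).2
        have v : ∀ j, (z.1 + e j * z.2).val ≤ X / primorial w := fun j =>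
          (Nat.le_div_iff_mul_le W0).2 ((mul_comm _ _).trans_le
            ((Nat.le_add_right _ b).trans (hA _ (sA (sB (hz j)))).2.1))
        obtain ⟨d, hd⟩ := (dvd_fac (hm f) (hm g) (he.ne fg)).trans
          (Nat.modEq_iff_dvd.1 ((hr _ (sB (hz f))).trans (hr _ (sB (hz g))).symm))
        refine mem_coe.2 (mem_filter.2 ⟨Fintype.mem_piFinset.2 fun j => sA (sB (hz j)),
          primorial w * (z.1 + e f * z.2).val + b - e f * d, d, fun j => mul_left_cancel₀
            (sub_ne_zero.2 (Nat.cast_injective.ne (he.ne fg.symm)) : (e g : ℤ) - e f ≠ 0) ?_⟩)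
        have := rel z.1 z.2 (hm f) (hm g) (hm j) (v f) (v g) (v j) s7
        simp only [Nat.cast_add, Nat.cast_mul] at hd ⊢
        linear_combination (primorial w : ℤ) * this + ((e j : ℤ) - e f) * hd
      · have k : ∀ j, z.1 + e j * z.2 = z'.1 + e j * z'.2 := fun j => ZMod.val_injective N
          (Nat.eq_of_mul_eq_mul_left W0 (Nat.add_right_cancel (congrFun h j)))
        have k2 : z.2 = z'.2 := (hu f g fg).mul_left_cancel (by linear_combination k g - k f)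
        exact Prod.ext (by linear_combination k f - (e f : ZMod N) * k2) k2
    by_cases hz : ∀ j, primorial w * (z.1 + e j * z.2).val + b ∈ B
    · rw [DH.ind_true hz, mul_one]
      exact (prod_le_prod (fun j _ => mul_nonneg n0 (DH.ind_nonneg _)) fun j _ =>
        (mul_le_of_le_one_right n0 (DH.ind_le_one _)).trans n1).trans_eq
        (by rw [prod_const, card_univ])
    · rw [DH.ind_false hz, mul_zero]
      obtain ⟨j, hj⟩ := not_forall.1 hz
      exact (prod_eq_zero (mem_univ j) (by rw [DH.ind_false hj, mul_zero])).le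
  · by_cases h : primorial w * n.val + b ∈ B
    · rw [DH.ind_true h, mul_one]
      refine ν1 n fun p hp d => lt_of_le_of_lt ?_ ((hA _ (sA (sB h))).2.2 p hp d)
      rw [Real.rpow_def_of_pos (by positivity), Real.exp_le_exp]
      nlinarith
    · rw [DH.ind_false h, mul_zero]
      exact ν0 n
  · rw [DH.E_mul_left]
    refine le_trans ?_ (mul_le_mul_of_nonneg_left (le_E B fun q hq =>
      ⟨(Nat.div_le_div_right (hA q (sA (sB hq))).2.1).trans_lt s5, hb q hq⟩) n0)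
    have a1 : rho w * primorial w = (primorial w).totient := by
      rw [rho_eq, div_mul_cancel₀ _ a3.ne']
    have a2 : (primorial w : ℝ) * N ≤ 9 * m.factorial * X := by exact_mod_cast s2
    have a4 := (hc.trans cA).trans (mul_le_mul_of_nonneg_left cB (Nat.cast_nonneg _))
    rw [← a1, div_le_iff₀ lX] at a4
    rw [← mul_div_assoc, div_le_div_iff₀ (by positivity) (by positivity)]
    refine le_of_mul_le_mul_right ?_ a3
    calc _ = η * (δ * (primorial w * N)) := by ring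
      _ ≤ η * (δ * (9 * m.factorial * X)) := by gcongr
      _ = η * (9 * m.factorial) * (δ * X) := by ring
      _ ≤ η * (9 * m.factorial) * (m.factorial * (rho w * primorial w * B.card) * Real.log X) := by
        gcongr
      _ ≤ η * (9 * m.factorial) *
        (m.factorial * (rho w * primorial w * B.card) * (2 * Real.log N)) := by gcongr
      _ = _ := by ring

end Pool.Agent.MP_a43263_nt.GT

end MrgPart1

-- ======== part 2: formerly Pool.Agent.MP_a43263_nt.GT.AllC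
section MrgPart2

/-! PROJECT GT7: the counting form for rough numbers, without hypotheses. -/

namespace Pool.Agent.MP_a43263_nt.GT

theorem gtcAll : GTCStmt := gtc rszAll pse3M

end Pool.Agent.MP_a43263_nt.GT

end MrgPart2

-- ======== part 3: formerly Pool.Agent.MP_a43263_nt.G7.Pos
section MrgPart3

/-! PROJECT GT7, part B, row POS: there are many tuples of words. -/

set_option autoImplicit false

noncomputable section

namespace Pool.Agent.MP_a43263_nt.G7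

open Finset Filter
open _root_.Pool.Agent.MP_a43263_nt.GT (GTCStmt)

namespace Pos

/-- pairs with a large common divisor -/
def bad (Y X : ℕ) : Finset (ℕ × ℕ) :=
  (Ioc Y X).biUnion fun t => (Ioc 0 X).filter (t ∣ ·) ×ˢ (Ioc 0 X).filter (t ∣ ·)

theorem card_bad {Y X : ℕ} (hY : Y ≠ 0) (h : Y ≤ X) : ((bad Y X).card : ℝ) ≤ (X : ℝ) ^ 2 / Y := by
  have h1 : ((bad Y X).card : ℝ) ≤ ∑ t ∈ Ioc Y X, (X : ℝ) ^ 2 * ((t : ℝ) ^ 2)⁻¹ := by
    refine (Nat.cast_le.2 card_biUnion_le).trans ?_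
    rw [Nat.cast_sum]
    refine sum_le_sum fun t _ => ?_
    rw [card_product, Nat.Ioc_filter_dvd_card_eq_div, Nat.cast_mul, ← sq, ← div_eq_mul_inv,
      ← div_pow]
    exact pow_le_pow_left₀ (Nat.cast_nonneg _) Nat.cast_div_le 2
  rw [← mul_sum] at h1
  refine h1.trans (mul_le_mul_of_nonneg_left ((sum_Ioc_inv_sq_le_sub hY h).trans ?_) (sq_nonneg _))
  exact sub_le_self _ (by positivity)

theorem inj {n : ℕ} {e : Fin n → ℕ} (he : Function.Injective e) {j k : Fin n} (h : j ≠ k)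
    {l l' : Fin n → ℕ} (hl : ∃ a d : ℤ, ∀ i, (l i : ℤ) = a + e i * d)
    (hl' : ∃ a d : ℤ, ∀ i, (l' i : ℤ) = a + e i * d) (hj : l j = l' j) (hk : l k = l' k) :
    l = l' := by
  obtain ⟨a, d, hl⟩ := hl
  obtain ⟨a', d', hl'⟩ := hl'
  have e1 : a + e j * d = a' + e j * d' := by rw [← hl, ← hl', hj]
  have e2 : a + e k * d = a' + e k * d' := by rw [← hl, ← hl', hk]
  have e3 : d = d' := mul_left_cancel₀ (a := (e j : ℤ) - e k)
    (sub_ne_zero.2 fun c => h (he (Nat.cast_injective c))) (by linear_combination e1 - e2)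
  subst e3
  obtain rfl : a = a' := add_right_cancel e1
  exact funext fun i => Nat.cast_injective (R := ℤ) ((hl i).trans (hl' i).symm)

theorem rough {m q Y X : ℕ} {b : Fin (m + 1) → ℕ} {u : ℕ}
    (hu : u ∈ (Wd q b Y X).image fun p => ∏ a, p a) :
    1 ≤ u ∧ u ≤ X ∧ ∀ t : ℕ, t.Prime → t ∣ u → Y < t := by
  obtain ⟨p, hp, rfl⟩ := mem_image.1 hu
  obtain ⟨-, h1, h2, h3, -, h4⟩ := mem_filter.1 hp
  refine ⟨prod_pos fun a _ => (h1 a).1.pos, h4, fun t ht hd => ?_⟩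
  obtain ⟨a, -, ha⟩ := (ht.prime.dvd_finsetProd_iff _).1 hd
  rw [(Nat.prime_dvd_prime_iff_eq ht (h1 a).1).1 ha]
  induction a using Fin.cases with
  | zero => exact (Nat.le_self_pow two_ne_zero Y).trans_lt h2
  | succ a => exact (h3 a).1

open Classical in
theorem card_le {n m : ℕ} (D : Dat n m) (hD : D.Ok) (Y X : ℕ) :
    ((Fintype.piFinset fun _ : Fin n => (Wd (8 * D.M) D.b Y X).image fun p => ∏ a, p a).filter
      fun l => ∃ a d : ℤ, ∀ j, (l j : ℤ) = a + D.e j * d).card ≤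
      (TT D Y X).card + n ^ 2 * (bad Y X).card := by
  set L := (Fintype.piFinset fun _ : Fin n =>
    (Wd (8 * D.M) D.b Y X).image fun p => ∏ a, p a).filter
      fun l => ∃ a d : ℤ, ∀ j, (l j : ℤ) = a + D.e j * d with hL
  rw [← card_filter_add_card_filter_not (s := L) fun l => ∀ j k, j ≠ k → (l j).Coprime (l k)]
  refine add_le_add (card_le_card_of_surjOn vl fun l hl => ?_) ?_
  · obtain ⟨h1, h2⟩ := mem_filter.1 (mem_coe.1 hl)
    obtain ⟨h1, h3⟩ := mem_filter.1 h1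
    choose p hp hp' using fun j => mem_image.1 (Fintype.mem_piFinset.1 h1 j)
    obtain rfl : vl p = l := funext hp'
    exact ⟨p, mem_coe.2 (mem_filter.2 ⟨Fintype.mem_piFinset.2 hp, h3, h2⟩), rfl⟩
  · have h1 : L.filter (fun l => ¬∀ j k, j ≠ k → (l j).Coprime (l k)) ⊆
        (univ : Finset (Fin n × Fin n)).biUnion fun z =>
          L.filter fun l => z.1 ≠ z.2 ∧ (l z.1, l z.2) ∈ bad Y X := by
      intro l hl
      obtain ⟨h1, h2⟩ := mem_filter.1 hl
      push Not at h2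
      obtain ⟨j, k, hjk, h2⟩ := h2
      obtain ⟨t, ht, hj, hk⟩ := Nat.Prime.not_coprime_iff_dvd.1 h2
      have h3 := fun i => rough (Fintype.mem_piFinset.1 (mem_filter.1 h1).1 i)
      exact mem_biUnion.2 ⟨(j, k), mem_univ _, mem_filter.2 ⟨h1, hjk, mem_biUnion.2 ⟨t,
        mem_Ioc.2 ⟨(h3 j).2.2 t ht hj, (Nat.le_of_dvd (h3 j).1 hj).trans (h3 j).2.1⟩,
        mem_product.2 ⟨mem_filter.2 ⟨mem_Ioc.2 ⟨(h3 j).1, (h3 j).2.1⟩, hj⟩,
          mem_filter.2 ⟨mem_Ioc.2 ⟨(h3 k).1, (h3 k).2.1⟩, hk⟩⟩⟩⟩⟩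
    refine (card_le_card h1).trans ((card_biUnion_le_card_mul _ _ (bad Y X).card
      fun z _ => ?_).trans_eq (by simp [sq]))
    refine card_le_card_of_injOn (fun l => (l z.1, l z.2)) (fun l hl => (mem_filter.1 hl).2.2)
      fun l hl l' hl' e => ?_
    obtain ⟨h2, h3, -⟩ := mem_filter.1 (mem_coe.1 hl)
    exact inj hD.inj h3 (mem_filter.1 h2).2 (mem_filter.1 (mem_filter.1 (mem_coe.1 hl')).1).2
      (congrArg Prod.fst e) (congrArg Prod.snd e)

end Pos

theorem pos : GTCStmt → DENStmt → POSStmt := by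
  intro gtc den n m D K hD
  have : Nontrivial (Fin n) := Fin.nontrivial_iff_two_le.2 hD.two
  obtain ⟨δ, K', hδ, h1⟩ := den m (8 * D.M) (max K 1) D.b (Nat.mul_pos (by norm_num) hD.pos)
    fun a => Nat.Coprime.mul_right (by
      rw [Nat.Coprime, Nat.gcd_comm, Nat.gcd_rec, hD.one a]; rfl) (hD.cop a)
  obtain ⟨c, hc, X₀, h2⟩ := gtc (Fin n) D.e hD.inj (1 / (K' + 1)) δ (by positivity) hδ
  have hC : (0 : ℝ) < (n : ℝ) ^ 2 * K' ^ n + 1 := by positivity
  have h3 := tendsto_natCast_atTop_atTop.eventually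
    ((Real.isLittleO_pow_log_id_atTop (n := n)).def (div_pos (half_pos hc) hC))
  refine ⟨c / 2, K', half_pos hc, ?_⟩
  filter_upwards [h1, h3, eventually_ge_atTop X₀, eventually_ge_atTop 2] with Y ⟨X, a1, a2, a3⟩
    a4 a5 a6
  have hY : 1 ≤ Y := by omega
  have hY' : (1 : ℝ) ≤ Y := by exact_mod_cast hY
  have hYX : Y ≤ X := (Nat.le_self_pow (by omega) Y).trans a1
  have hX : (1 : ℝ) < X := by exact_mod_cast (show 1 < X by omega)
  have a2' : (X : ℝ) ≤ (Y : ℝ) ^ K' := by exact_mod_cast a2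
  refine ⟨X, (Nat.pow_le_pow_right hY (le_max_left _ _)).trans a1, a2, ?_⟩
  have b1 := h2 X (a5.trans hYX) _ (fun u hu => ⟨(Pos.rough hu).1, (Pos.rough hu).2.1,
    fun t ht hd => lt_of_le_of_lt ?_ (Nat.cast_lt.2 ((Pos.rough hu).2.2 t ht hd))⟩) a3
  swap
  · rw [one_div, Real.rpow_inv_le_iff_of_pos (by positivity) (by positivity) (by positivity),
      ← Nat.cast_succ, Real.rpow_natCast]
    exact a2'.trans (pow_le_pow_right₀ hY' (Nat.le_succ _))
  have b2 := b1.trans (Nat.cast_le.2 (Pos.card_le D hD Y X))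
  have b3 := Pos.card_bad (by omega) hYX
  have hl := Real.log_pos hX
  have b4 : Real.log X ^ n ≤ (K' : ℝ) ^ n * Real.log Y ^ n := by
    rw [← mul_pow, ← Real.log_pow]
    exact pow_le_pow_left₀ hl.le (Real.log_le_log (by positivity) a2') n
  have b5 : 0 ≤ Real.log Y ^ n := pow_nonneg (Real.log_nonneg hY') n
  rw [Real.norm_of_nonneg b5, id, Real.norm_of_nonneg (by positivity), div_mul_eq_mul_div,
    le_div_iff₀ hC] at a4
  have b6 : (n : ℝ) ^ 2 * ((X : ℝ) ^ 2 / Y) ≤ c / 2 * (X : ℝ) ^ 2 / Real.log X ^ n := by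
    rw [← mul_div_assoc, div_le_div_iff₀ (by positivity) (pow_pos hl n)]
    have : (n : ℝ) ^ 2 * Real.log X ^ n ≤ c / 2 * Y := by
      nlinarith [mul_le_mul_of_nonneg_left b4 (sq_nonneg (n : ℝ))]
    nlinarith [mul_le_mul_of_nonneg_left this (sq_nonneg (X : ℝ))]
  rw [Fintype.card_fin] at b2
  push_cast at b2
  have b7 := mul_le_mul_of_nonneg_left b3 (sq_nonneg (n : ℝ))
  have b8 : c * (X : ℝ) ^ 2 / Real.log X ^ n = 2 * (c / 2 * (X : ℝ) ^ 2 / Real.log X ^ n) := by ring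
  linarith

end Pool.Agent.MP_a43263_nt.G7

end
end MrgPart3

-- ======== part 4: formerly Pool.Agent.MP_a43263_nt.G7.Osc
section MrgPart4

/-! PROJECT GT7, part B, row OSC: oscillating characters cancel. -/

set_option autoImplicit false

noncomputable section

namespace Pool.Agent.MP_a43263_nt.G7

open Finset Filter

namespace Osc

variable {n m : ℕ}

/-- frozen cofactors -/
def box (a₀ : Fin m) (Y : ℕ) : Finset (Fin m → ℕ) :=
  Fintype.piFinset fun a => if a = a₀ then {1} else Ioc Y (Y ^ 2)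

/-- dyadic blocks -/
def blk (Y : ℕ) : Finset ℕ :=
  (range (Nat.log 2 (Y ^ 2) + 1)).filter fun i => Y ≤ 2 * 2 ^ i ∧ 2 ^ i ≤ Y ^ 2

/-- the cofactors of a slot -/
def cof (u : Sl n m) (p : Fin n → Fin (m + 1) → ℕ) : Fin m → ℕ :=
  fun a => if a = u.2 then 1 else md p (u.1, a)

theorem md_mem {D : Dat n m} {Y X : ℕ} {p : Fin n → Fin (m + 1) → ℕ} (hp : p ∈ TT D Y X)
    (u : Sl n m) : Y < md p u ∧ md p u ≤ Y ^ 2 := by
  classical
  have h1 := Fintype.mem_piFinset.1 (mem_filter.1 hp).1 u.1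
  exact (mem_filter.1 h1).2.2.2.1 u.2

theorem cof_mem {D : Dat n m} {Y X : ℕ} {p : Fin n → Fin (m + 1) → ℕ} (hp : p ∈ TT D Y X)
    (u : Sl n m) : cof u p ∈ box u.2 Y := by
  refine Fintype.mem_piFinset.2 fun a => ?_
  unfold cof
  split_ifs
  · simp
  · exact mem_Ioc.2 (md_mem hp _)

theorem cof_iff {Y : ℕ} (u : Sl n m) (p : Fin n → Fin (m + 1) → ℕ) {c : Fin m → ℕ}
    (hc : c ∈ box u.2 Y) : cof u p = c ↔ ∀ a, a ≠ u.2 → md p (u.1, a) = c a := by
  constructor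
  · rintro rfl a ha
    simp [cof, ha]
  · intro h
    funext a
    unfold cof
    split_ifs with ha
    · have := Fintype.mem_piFinset.1 hc a
      simp only [ha, if_true, mem_singleton] at this
      rw [ha, this]
    · exact h a ha

theorem dy_iff {x i : ℕ} (hx : 1 < x) : Nat.clog 2 x - 1 = i ↔ 2 ^ i < x ∧ x ≤ 2 * 2 ^ i := by
  have h0 := Nat.clog_pos (b := 2) (by norm_num) hx
  rw [← Nat.lt_clog_iff_pow_lt (by norm_num), ← pow_succ',
    ← Nat.clog_le_iff_le_pow (by norm_num)]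
  omega

theorem har (Y : ℕ) : ∑ c ∈ Ioc Y (Y ^ 2), (1 : ℝ) / c ≤ 1 + Real.log ((Y ^ 2 : ℕ) : ℝ) := by
  refine le_trans ?_ (harmonic_le_one_add_log (Y ^ 2))
  simp only [harmonic_eq_sum_Icc, Rat.cast_sum, Rat.cast_inv, Rat.cast_natCast, one_div]
  refine sum_le_sum_of_subset_of_nonneg (fun c hc => ?_) fun _ _ _ => by positivity
  rw [mem_Ioc] at hc
  rw [mem_Icc]
  omega

theorem box_sum (a₀ : Fin m) (Y : ℕ) (h : 1 ≤ Real.log Y) :
    ∑ c ∈ box a₀ Y, 1 / ∏ a ∈ univ.erase a₀, (c a : ℝ) ≤ (3 * Real.log Y) ^ m := by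
  have h1 : ∀ c ∈ box a₀ Y, 1 / ∏ a ∈ univ.erase a₀, (c a : ℝ) = ∏ a, (1 : ℝ) / c a := by
    intro c hc
    have := Fintype.mem_piFinset.1 hc a₀
    simp only [if_true, mem_singleton] at this
    rw [← mul_prod_erase univ _ (mem_univ a₀), this]
    simp
  rw [sum_congr rfl h1, box, ← prod_univ_sum (f := fun _ (c : ℕ) => (1 : ℝ) / c)]
  calc _ ≤ ∏ _a : Fin m, 3 * Real.log Y := by
        refine prod_le_prod (fun _ _ => sum_nonneg fun _ _ => by positivity) fun a _ => ?_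
        split_ifs
        · simp only [sum_singleton, Nat.cast_one]
          linarith
        · refine (har Y).trans ?_
          rw [Nat.cast_pow, Real.log_pow]
          push_cast
          linarith
    _ = _ := by simp

theorem blk_card (Y : ℕ) (h : 1 ≤ Real.log Y) : ((blk Y).card : ℝ) ≤ 5 * Real.log Y := by
  have h1 : (blk Y).card ≤ Nat.log 2 (Y ^ 2) + 1 := (card_filter_le _ _).trans (card_range _).le
  have hY : Y ≠ 0 := by
    rintro rfl
    norm_num at h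
  have h2 : ((2 ^ Nat.log 2 (Y ^ 2) : ℕ) : ℝ) ≤ ((Y ^ 2 : ℕ) : ℝ) := by
    exact_mod_cast Nat.pow_log_le_self 2 (pow_ne_zero 2 hY)
  have h3 := Real.log_le_log (by positivity) h2
  rw [Nat.cast_pow, Nat.cast_pow, Real.log_pow, Real.log_pow] at h3
  have h4 := Real.log_two_gt_d9
  have h5 : ((blk Y).card : ℝ) ≤ Nat.log 2 (Y ^ 2) + 1 := by exact_mod_cast h1
  have h6 : (0 : ℝ) ≤ Nat.log 2 (Y ^ 2) := Nat.cast_nonneg _
  push_cast at h3
  nlinarith

theorem split (D : Dat n m) (Y X : ℕ) (h : 1 ≤ Real.log Y) (f : (Fin n → Fin (m + 1) → ℕ) → ℝ)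
    (u v : Sl n m) (W : ℝ) (hW : 0 ≤ W)
    (hk : ∀ (cu cv : Fin m → ℕ) (N : ℕ), Y ≤ 2 * N → N ≤ Y ^ 2 →
      |∑ p ∈ (TT D Y X).filter (fun p => (∀ a, a ≠ u.2 → md p (u.1, a) = cu a) ∧
        (∀ a, a ≠ v.2 → md p (v.1, a) = cv a) ∧ N < md p v ∧ md p v ≤ 2 * N), f p| ≤
      (X : ℝ) ^ 2 / ((∏ a ∈ univ.erase u.2, (cu a : ℝ)) * ∏ a ∈ univ.erase v.2, (cv a : ℝ)) * W) :
    |∑ p ∈ TT D Y X, f p| ≤
      (X : ℝ) ^ 2 * W * ((3 * Real.log Y) ^ m * ((3 * Real.log Y) ^ m * (5 * Real.log Y))) := by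
  classical
  have hY : 1 ≤ Y := by
    rcases Y with _ | Y
    · norm_num at h
    · omega
  have hmap : ∀ p ∈ TT D Y X, (cof u p, cof v p, Nat.clog 2 (md p v) - 1) ∈
      box u.2 Y ×ˢ (box v.2 Y ×ˢ blk Y) := by
    intro p hp
    have h1 := md_mem hp v
    have h2 := (dy_iff (x := md p v) (by omega)).1 rfl
    refine mem_product.2 ⟨cof_mem hp u, mem_product.2 ⟨cof_mem hp v, mem_filter.2
      ⟨mem_range.2 (Nat.lt_succ_of_le (Nat.le_log_of_pow_le (by norm_num) ?_)), ?_, ?_⟩⟩⟩ <;>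
    · dsimp only
      omega
  rw [← sum_fiberwise_of_maps_to hmap]
  refine (abs_sum_le_sum_abs _ _).trans ?_
  calc _ ≤ ∑ s ∈ box u.2 Y ×ˢ (box v.2 Y ×ˢ blk Y), (X : ℝ) ^ 2 * W *
        ((1 / ∏ a ∈ univ.erase u.2, (s.1 a : ℝ)) *
          ((1 / ∏ a ∈ univ.erase v.2, (s.2.1 a : ℝ)) * 1)) := by
        refine sum_le_sum ?_
        rintro ⟨cu, cv, i⟩ hs
        obtain ⟨h1, h2⟩ := mem_product.1 hs
        obtain ⟨h2, h3⟩ := mem_product.1 h2
        have h4 := (mem_filter.1 h3).2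
        refine le_trans (le_of_eq ?_) ((hk cu cv (2 ^ i) h4.1 h4.2).trans (le_of_eq ?_))
        · congr 2
          refine filter_congr fun p hp => ?_
          have h5 := md_mem hp v
          rw [Prod.mk.injEq, Prod.mk.injEq, cof_iff u p h1, cof_iff v p h2, dy_iff (by omega)]
        · dsimp only
          rw [div_eq_mul_one_div, ← one_div_mul_one_div]
          ring
    _ = (X : ℝ) ^ 2 * W * ((∑ c ∈ box u.2 Y, 1 / ∏ a ∈ univ.erase u.2, (c a : ℝ)) *
          ((∑ c ∈ box v.2 Y, 1 / ∏ a ∈ univ.erase v.2, (c a : ℝ)) * ∑ _i ∈ blk Y, (1 : ℝ))) := by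
        rw [← mul_sum, sum_product, sum_mul]
        congr 1
        refine sum_congr rfl fun c _ => ?_
        dsimp only
        rw [← mul_sum, sum_product, sum_mul_sum]
    _ ≤ _ := by
        have h1 := box_sum u.2 Y h
        have h2 := box_sum v.2 Y h
        have h3 := blk_card Y h
        simp only [sum_const, nsmul_eq_mul, mul_one]
        gcongr

theorem small (C δ ε : ℝ) (k : ℕ) (hC : 0 < C) (hδ : 0 < δ) (hε : 0 < ε) :
    ∀ᶠ Y : ℕ in atTop, 1 ≤ Real.log Y ∧ C * Real.log Y ^ k * (Y : ℝ) ^ (-δ) ≤ ε := by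
  have h1 := (isLittleO_log_rpow_rpow_atTop (k : ℝ) hδ).bound (div_pos hε hC)
  have h2 := Real.tendsto_log_atTop.eventually_ge_atTop 1
  filter_upwards [tendsto_natCast_atTop_atTop.eventually (h1.and h2), eventually_ge_atTop 1]
    with Y hY h3
  refine ⟨hY.2, ?_⟩
  have h4 : (0 : ℝ) < Y := by exact_mod_cast h3
  have h5 : 0 < (Y : ℝ) ^ δ := Real.rpow_pos_of_pos h4 _
  have h6 := hY.1
  rw [Real.rpow_natCast, Real.norm_of_nonneg h5.le] at h6
  have h7 := (le_abs_self _).trans h6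
  rw [Real.rpow_neg h4.le, ← div_eq_mul_inv, div_le_iff₀ h5]
  calc C * Real.log Y ^ k ≤ C * (ε / C * (Y : ℝ) ^ δ) := by gcongr
    _ = _ := by field_simp

end Osc

theorem osc : KEYStmt → OSCStmt := by
  intro key n m D hD
  obtain ⟨K, T, hK⟩ := key n m D hD
  refine ⟨max K 1, fun K' ε hε => ?_⟩
  filter_upwards [hK K', Osc.small (3 ^ m * 3 ^ m * 5 * (K' + 1) ^ n) (1 / 2 ^ T) ε
    (m + m + 1 + n) (by positivity) (by positivity) hε, eventually_ge_atTop 2] with Y h1 h2 hY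
  intro X hX hX' st x y u v ho
  have hYX : Y ≤ X := le_trans (Nat.le_self_pow (by omega) Y) hX
  have h3 := Osc.split D Y X h2.1 (fun p => (chr st x y p : ℝ)) u v _
    (Real.rpow_nonneg (Nat.cast_nonneg Y) (-(1 / 2 ^ T) : ℝ))
    (h1 X (le_trans (Nat.pow_le_pow_right (by omega) (le_max_left _ _)) hX) hX' st x y u v ho)
  refine h3.trans ?_
  have h4 : (1 : ℝ) < X := by exact_mod_cast (by omega : 1 < X)
  have h5 := Real.log_pos h4
  have h6 : Real.log X ≤ (K' + 1) * Real.log Y := by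
    have : (X : ℝ) ≤ (Y : ℝ) ^ K' := by exact_mod_cast hX'
    have := Real.log_le_log (by positivity) this
    rw [Real.log_pow] at this
    linarith [h2.1]
  have h7 : 0 ≤ (Y : ℝ) ^ (-(1 / 2 ^ T) : ℝ) := Real.rpow_nonneg (Nat.cast_nonneg Y) _
  have h8 := h2.1
  rw [le_div_iff₀ (by positivity)]
  calc _ ≤ (X : ℝ) ^ 2 * (Y : ℝ) ^ (-(1 / 2 ^ T) : ℝ) *
        ((3 * Real.log Y) ^ m * ((3 * Real.log Y) ^ m * (5 * Real.log Y))) *
        ((K' + 1) * Real.log Y) ^ n := by gcongr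
    _ = (3 ^ m * 3 ^ m * 5 * (K' + 1) ^ n * Real.log Y ^ (m + m + 1 + n) *
        (Y : ℝ) ^ (-(1 / 2 ^ T) : ℝ)) * (X : ℝ) ^ 2 := by
        rw [mul_pow, mul_pow]
        ring
    _ ≤ _ := by
        gcongr
        exact h2.2

end Pool.Agent.MP_a43263_nt.G7

end
end MrgPart4

-- ======== part 5: formerly Pool.Agent.MP_a43263_nt.G7.Eqd
section MrgPart5

/-! PROJECT GT7, part B, row EQD: every pattern of signs occurs. -/

set_option autoImplicit false

noncomputable section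

namespace Pool.Agent.MP_a43263_nt.G7

open Finset Filter

namespace Eqd

variable {n m : ℕ}

/-- index set of the prescribed symbols -/
abbrev Ix (n m : ℕ) : Type := (Sl n m × Sl n m) ⊕ Sl n m

/-- the prescribed symbols -/
def Phi (n m : ℕ) (j₀ k₀ : Fin n) : Finset (Ix n m) :=
  univ.filter fun i => ∀ u v, i = Sum.inl (u, v) → u.1 < v.1 ∧ ¬(u.1 = j₀ ∧ v.1 = k₀)

/-- the symbol with a given index -/
def ch (st : Fin n → Fin n) (p : Fin n → Fin (m + 1) → ℕ) : Ix n m → ℤ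
  | Sum.inl w => jacobiSym (md p w.1) (md p w.2)
  | Sum.inr u => jacobiSym (vl p (st u.1)) (md p u)

def xx (S : Finset (Ix n m)) (u v : Sl n m) : ℕ := if Sum.inl (u, v) ∈ S then 1 else 0

def yy (S : Finset (Ix n m)) (u : Sl n m) : ℕ := if Sum.inr u ∈ S then 1 else 0

theorem prod_ch (st : Fin n → Fin n) (p : Fin n → Fin (m + 1) → ℕ) (S : Finset (Ix n m)) :
    ∏ i ∈ S, ch st p i = chr st (xx S) (yy S) p := by
  have h : ∏ i ∈ S, ch st p i = ∏ i, ch st p i ^ (if i ∈ S then 1 else 0) := by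
    rw [← Finset.prod_subset (subset_univ S) (fun i _ hi => by simp [hi])]
    exact Finset.prod_congr rfl fun i hi => by simp [hi]
  rw [h, Fintype.prod_sum_type, Fintype.prod_prod_type]
  rfl

theorem exists_odc {j₀ k₀ : Fin n} (hjk : j₀ < k₀) {st : Fin n → Fin n} (hst : ∀ j, st j ≠ j)
    {S : Finset (Ix n m)} (hS : S ⊆ Phi n m j₀ k₀) (hne : S.Nonempty) :
    ∃ u v, Odc st (xx S) (yy S) u v := by
  have hx : ∀ u v, Sum.inl (u, v) ∈ S → u.1 < v.1 ∧ ¬(u.1 = j₀ ∧ v.1 = k₀) := fun u v h =>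
    (mem_filter.1 (hS h)).2 u v rfl
  have hx0 : ∀ u v : Sl n m, ¬(u.1 < v.1 ∧ ¬(u.1 = j₀ ∧ v.1 = k₀)) → xx S u v = 0 := fun u v h =>
    if_neg fun h' => h (hx u v h')
  have hd : ∀ w w' : Sl n m, w.1 = w'.1 → xx S w w' = 0 := fun w w' h =>
    hx0 w w' fun h' => absurd h'.1 (by rw [h]; exact lt_irrefl _)
  by_contra hc
  have hev : ∀ u v : Sl n m, u.1 ≠ v.1 → (xx S u v + xx S v u + yy S u) % 2 = 0 := by
    intro u v huv
    by_contra h
    exact hc ⟨u, v, hst, hd, huv, Nat.odd_iff.2 (by omega)⟩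
  have hy1 : ∀ u, yy S u ≤ 1 := fun u => by unfold yy; split_ifs <;> simp
  have hy0 : ∀ a, yy S (j₀, a) = 0 := by
    intro a
    have h1 := hev (j₀, a) (k₀, a) hjk.ne
    rw [hx0 (j₀, a) (k₀, a) (fun h => h.2 ⟨rfl, rfl⟩),
      hx0 (k₀, a) (j₀, a) (fun h => absurd h.1 (not_lt.2 hjk.le))] at h1
    have := hy1 (j₀, a)
    omega
  have hy : ∀ w, yy S w = 0 := by
    intro w
    by_cases hw : w.1 = j₀
    · have : w = (j₀, w.2) := Prod.ext hw rfl
      rw [this]; exact hy0 _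
    · have h1 := hev w (j₀, w.2) hw
      have h2 := hev (j₀, w.2) w (fun h => hw h.symm)
      have h3 := hy0 w.2
      have := hy1 w
      omega
  obtain ⟨i, hi⟩ := hne
  rcases i with ⟨u, v⟩ | u
  · have h1 := hx u v hi
    have h2 := hev u v h1.1.ne
    rw [hx0 v u (fun h => absurd h.1 (not_lt.2 h1.1.le)), hy u] at h2
    have : xx S u v = 1 := if_pos hi
    omega
  · have h1 := hy u
    have : yy S u = 1 := if_pos hi
    omega

theorem exists_ne {α ι : Type} [DecidableEq ι] (T : Finset α) (Φ : Finset ι) (g : ι → ℤ)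
    (f : α → ι → ℤ) (hg : ∀ i, g i = 1 ∨ g i = -1) (e : ℝ)
    (h : ∀ S ⊆ Φ, S.Nonempty → |∑ p ∈ T, ((∏ i ∈ S, f p i : ℤ) : ℝ)| ≤ e) (he : 0 ≤ e)
    (hT : 2 ^ Φ.card * e < T.card) : ∃ p ∈ T, ∀ i ∈ Φ, 1 + g i * f p i ≠ 0 := by
  by_contra hc
  have h0 : ∀ p ∈ T, ∏ i ∈ Φ, (1 + g i * f p i) = 0 := by
    intro p hp
    by_contra h1
    exact hc ⟨p, hp, fun i hi h2 => h1 (prod_eq_zero hi h2)⟩
  have h1 : ∑ S ∈ Φ.powerset, ∑ p ∈ T, ((∏ i ∈ S, g i * f p i : ℤ) : ℝ) = 0 := by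
    rw [sum_comm]
    refine sum_eq_zero fun p hp => ?_
    have := h0 p hp
    rw [prod_one_add] at this
    exact_mod_cast this
  rw [← add_sum_erase _ _ (empty_mem_powerset Φ)] at h1
  simp only [prod_empty, Int.cast_one, sum_const, nsmul_eq_mul, mul_one] at h1
  have h2 : ∀ S ∈ Φ.powerset.erase ∅, -e ≤ ∑ p ∈ T, ((∏ i ∈ S, g i * f p i : ℤ) : ℝ) := by
    intro S hS
    have h3 := h S (mem_powerset.1 (mem_of_mem_erase hS))
      (nonempty_iff_ne_empty.2 (ne_of_mem_erase hS))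
    have h4 : |((∏ i ∈ S, g i : ℤ) : ℝ)| = 1 := by
      rw [Int.cast_prod, abs_prod]
      exact prod_eq_one fun i _ => by rcases hg i with h | h <;> simp [h]
    have h5 : ∑ p ∈ T, ((∏ i ∈ S, g i * f p i : ℤ) : ℝ) =
        ((∏ i ∈ S, g i : ℤ) : ℝ) * ∑ p ∈ T, ((∏ i ∈ S, f p i : ℤ) : ℝ) := by
      rw [mul_sum]
      exact sum_congr rfl fun p _ => by rw [prod_mul_distrib, Int.cast_mul]
    refine neg_le_of_abs_le ?_
    rw [h5, abs_mul, h4, one_mul]
    exact h3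
  have h3 := sum_le_sum h2
  rw [sum_const, nsmul_eq_mul] at h3
  have h4 : ((Φ.powerset.erase ∅).card : ℝ) ≤ 2 ^ Φ.card := by
    have := card_erase_le (s := Φ.powerset) (a := ∅)
    rw [card_powerset] at this
    exact_mod_cast this
  nlinarith [mul_le_mul_of_nonneg_right h4 he]

theorem eq_of_ne {g x : ℤ} (hg : g = 1 ∨ g = -1) (hx : x = 1 ∨ x = -1) (h : 1 + g * x ≠ 0) :
    x = g := by
  rcases hg with rfl | rfl <;> rcases hx with rfl | rfl <;> simp_all

theorem md_dvd (p : Fin n → Fin (m + 1) → ℕ) (u : Sl n m) : md p u ∣ vl p u.1 :=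
  dvd_prod_of_mem (fun a => p u.1 a) (mem_univ u.2.succ)

end Eqd

open Eqd in
theorem eqd : POSStmt → OSCStmt → EQDStmt := by
  intro pos osc n m D hD j₀ k₀ hjk st hst s t hs ht B
  classical
  obtain ⟨K, hK⟩ := osc n m D hD
  obtain ⟨c, K', hc, h1⟩ := pos n m D (max K 1) hD
  have hε : 0 < c / (2 ^ (Phi n m j₀ k₀).card + 1) := by positivity
  obtain ⟨Y, ⟨X, hX1, hX2, hcard⟩, h2, hY⟩ :=
    (h1.and ((hK K' _ hε).and (eventually_ge_atTop (B + 2)))).exists
  have hYX : Y ≤ X := le_trans (Nat.le_self_pow (by omega) Y) hX1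
  have hKX : Y ^ K ≤ X := le_trans (Nat.pow_le_pow_right (by omega) (le_max_left _ _)) hX1
  have hX : (1 : ℝ) < X := by exact_mod_cast (by omega : 1 < X)
  have hq : 0 < (X : ℝ) ^ 2 / Real.log X ^ n := by
    have := Real.log_pos hX
    positivity
  obtain ⟨p, hp, hne⟩ := exists_ne (TT D Y X) (Phi n m j₀ k₀)
    (Sum.elim (fun w => s w.1 w.2) t) (fun p => ch st p)
    (by rintro (w | u); exacts [hs _ _, ht _])
    (c / (2 ^ (Phi n m j₀ k₀).card + 1) * (X : ℝ) ^ 2 / Real.log X ^ n)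
    (fun S hS hne => by
      obtain ⟨u, v, huv⟩ := exists_odc hjk hst hS hne
      simp only [prod_ch]
      exact h2 X hKX hX2 st _ _ u v huv)
    (by rw [mul_div_assoc]; positivity)
    (by
      refine lt_of_lt_of_le ?_ hcard
      rw [mul_div_assoc, mul_div_assoc, ← mul_assoc]
      refine mul_lt_mul_of_pos_right ?_ hq
      rw [← mul_div_assoc, div_lt_iff₀ (by positivity)]
      nlinarith)
  obtain ⟨hw, ⟨x, d, hxd⟩, hcop⟩ := mem_filter.1 hp
  have hw' := fun j => (mem_filter.1 (Fintype.mem_piFinset.1 hw j)).2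
  refine ⟨p, x, d, fun j a => ⟨((hw' j).1 a).1, ?_, ((hw' j).1 a).2⟩, fun j => (hw' j).2.2.2.1,
    hxd, hcop, fun u v h1 h2 => ?_, fun u => ?_⟩
  · refine Fin.cases ?_ (fun a => ?_) a
    · have := (hw' j).2.1
      have h3 : Y ≤ Y ^ 2 := Nat.le_self_pow (by omega) Y
      omega
    · have := ((hw' j).2.2.1 a).1
      omega
  · refine eq_of_ne (hs u v) (jacobiSym.eq_one_or_neg_one ?_) (hne (Sum.inl (u, v)) ?_)
    · rw [Int.gcd_natCast_natCast]
      exact ((hcop _ _ h1.ne).coprime_dvd_left (md_dvd p u)).coprime_dvd_right (md_dvd p v)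
    · refine mem_filter.2 ⟨mem_univ _, fun u' v' h => ?_⟩
      obtain ⟨rfl, rfl⟩ := Prod.mk.inj (Sum.inl.inj h)
      exact ⟨h1, h2⟩
  · refine eq_of_ne (ht u) (jacobiSym.eq_one_or_neg_one ?_) (hne (Sum.inr u) ?_)
    · rw [Int.gcd_natCast_natCast]
      exact (hcop _ _ (hst u.1)).coprime_dvd_right (md_dvd p u)
    · exact mem_filter.2 ⟨mem_univ _, fun u' v' h => by cases h⟩

end Pool.Agent.MP_a43263_nt.G7

end
end MrgPart5

-- ======== part 6: formerly Pool.Agent.MP_a43263_nt.G7.Tab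
section MrgPart6

/-! PROJECT GT7: from the prescribed symbols to the table of all relevant symbols. -/

set_option autoImplicit false

namespace Pool.Agent.MP_a43263_nt.G7

open Finset Two

variable {n m L : ℕ}

/-- `-1`, `2` and layers of primes -/
def QQ (R : Fin L → Fin n → ℤ) : Fin (L * n + 2) → ℤ :=
  Matrix.vecCons (-1) (Matrix.vecCons 2 fun i => R i.divNat i.modNat)

/-- exponents of the primes of the layers -/
def up (L : ℕ) (e : Fin (n + 2) → ℕ) : Fin (L * n + 2) → ℕ :=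
  Matrix.vecCons (e 0) (Matrix.vecCons (e 1) fun i => e i.modNat.succ.succ)

/-- the place of the prime of layer `a` and form `j` -/
def fi (a : Fin L) (j : Fin n) : Fin (L * n + 2) := (finProdFinEquiv (a, j)).succ.succ

/-- the places of the base layer -/
def co (L : ℕ) : Fin (n + 2) → Fin ((L + 1) * n + 2) := Matrix.vecCons 0 (Matrix.vecCons 1 (fi 0))

theorem QQ_fi (R : Fin L → Fin n → ℤ) (a : Fin L) (j : Fin n) : QQ R (fi a j) = R a j := by
  have := finProdFinEquiv.symm_apply_apply (a, j)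
  rw [finProdFinEquiv_symm_apply, Prod.mk.injEq] at this
  simp only [QQ, fi, Matrix.cons_val_succ, this]

theorem up_fi (e : Fin (n + 2) → ℕ) (a : Fin L) (j : Fin n) : up L e (fi a j) = e j.succ.succ := by
  have := finProdFinEquiv.symm_apply_apply (a, j)
  rw [finProdFinEquiv_symm_apply, Prod.mk.injEq] at this
  simp only [up, fi, Matrix.cons_val_succ, this]

theorem fi0 (a : Fin L) (j : Fin n) : fi a j ≠ 0 := Fin.succ_ne_zero _

theorem fi1 (a : Fin L) (j : Fin n) : fi a j ≠ 1 := Fin.succ_succ_ne_one _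

theorem idx (k : Fin (L * n + 2)) : k = 0 ∨ k = 1 ∨ ∃ a j, k = fi a j := by
  by_cases h0 : k = 0
  · exact .inl h0
  by_cases h1 : k = 1
  · exact .inr (.inl h1)
  obtain ⟨i, rfl⟩ := cases2 k h0 h1
  obtain ⟨⟨a, j⟩, rfl⟩ := finProdFinEquiv.surjective i
  exact .inr (.inr ⟨a, j, rfl⟩)

theorem ev_up {R : Fin L → Fin n → ℤ} {al be : Fin n → ℤ} {x y : ℤ}
    (h : ∀ j, al j * x + be j * y = ∏ a, R a j) (e : Fin (n + 2) → ℕ) :
    ev (QQ R) (up L e) = ev (PP al be x y) e := by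
  have : ∏ i : Fin (L * n), QQ R i.succ.succ ^ up L e i.succ.succ =
      ∏ j : Fin n, (al j * x + be j * y) ^ e j.succ.succ := by
    rw [← finProdFinEquiv.prod_comp, Fintype.prod_prod_type, prod_comm]
    refine prod_congr rfl fun j _ => ?_
    rw [h, ← prod_pow]
    exact prod_congr rfl fun a _ => congrArg₂ _ (QQ_fi R a j) (up_fi e a j)
  simp only [ev, Fin.prod_univ_succ, this]
  rfl

theorem jac_prod_left {ι : Type} (s : Finset ι) (f : ι → ℤ) (b : ℕ) :
    jacobiSym (∏ i ∈ s, f i) b = ∏ i ∈ s, jacobiSym (f i) b :=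
  map_prod (⟨⟨fun a => jacobiSym a b, jacobiSym.one_left _⟩,
    fun _ _ => jacobiSym.mul_left _ _ _⟩ : ℤ →* ℤ) f s

theorem jac_prod_right {ι : Type} (s : Finset ι) (f : ι → ℕ) (h : ∀ i, f i ≠ 0) (a : ℤ) :
    jacobiSym a (∏ i ∈ s, f i) = ∏ i ∈ s, jacobiSym a (f i) := by
  classical
  induction s using Finset.induction_on with
  | empty => simp
  | insert i s hi ih =>
    rw [prod_insert hi, prod_insert hi, jacobiSym.mul_right' _ (h i) (prod_ne_zero_iff.2 fun i _ => h i),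
      ih]

theorem sgn_cancel {v : ℤ} {y z : ZMod 2} (h : v * sgn y = sgn (z + y)) : v = sgn z :=
  mul_right_cancel₀ (sgn_ne_zero y) (by rw [h, sgn_add])

theorem cancel {f : Fin (m + 1) → ℤ} {z : Fin (m + 1) → ZMod 2}
    (h : ∀ b : Fin m, f b.succ = sgn (z b.succ)) (hp : ∏ b, f b = sgn (∑ b, z b)) :
    ∀ b, f b = sgn (z b) := by
  refine Fin.cases ?_ h
  rw [Fin.prod_univ_succ, Fin.sum_univ_succ, prod_congr rfl fun b _ => h b, ← sgn_sum] at hp
  exact sgn_cancel hp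

/-- the symbols between new primes -/
theorem cross {e : Fin n → ℕ} {p : Fin n → Fin (m + 1) → ℕ} {x d : ℤ} {j₀ k₀ : Fin n}
    {st : Fin n → Fin n} {Z : ZMod 2 → Fin (m + 1) → Fin n → Fin (m + 1) → Fin n → ZMod 2}
    {η : Fin (m + 1) → Fin n → Fin n → ZMod 2} (h4 : ∀ j, 4 ∣ e j)
    (hp : ∀ j a, (p j a).Prime ∧ p j a % 8 = 1) (hl : ∀ j, (vl p j : ℤ) = x + e j * d)
    (hc : ∀ j k, j ≠ k → (vl p j).Coprime (vl p k)) (hst : ∀ j, st j ≠ j)
    (hs : ∀ u v : Sl n m, u.1 < v.1 → ¬(u.1 = j₀ ∧ v.1 = k₀) →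
      jacobiSym (md p u) (md p v) = sgn (Z 0 v.2.succ v.1 u.2.succ u.1))
    (ht : ∀ u : Sl n m, jacobiSym (vl p (st u.1)) (md p u) =
      sgn (∑ b, Z 0 u.2.succ u.1 b (st u.1)))
    (hη : ∀ a j k, j ≠ k → jacobiSym ((e k : ℤ) - e j) (p j a) = sgn (η a j k))
    (z1 : ∀ σ a j b k, Z σ a j b k = Z σ b k a j)
    (z2 : ∀ σ (a : Fin m) j b k, Z σ a.succ j b k = Z 0 a.succ j b k)
    (z3 : ∀ (a : Fin m) j k, j ≠ k → ∑ b, Z 0 a.succ j b k + η a.succ j (st j) =
      ∑ b, Z 0 a.succ j b (st j) + η a.succ j k)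
    (z4 : ∀ σ j k, j ≠ k → ∑ a, ∑ b, Z σ a j b k = ∑ a, η a j k + σ) :
    ∃ σ, ∀ a j b k, j ≠ k → ¬(j = j₀ ∧ k = k₀) → ¬(k = j₀ ∧ j = k₀) →
      jacobiSym (p k b) (p j a) = sgn (Z σ a j b k) := by
  have sy : ∀ a j b k, jacobiSym (p k b) (p j a) = jacobiSym (p j a) (p k b) := fun a j b k =>
    jacobiSym.quadratic_reciprocity_one_mod_four (by have := (hp k b).2; omega)
      (Nat.odd_iff.2 (by have := (hp j a).2; omega))
  have pl : ∀ (c : ℕ) k, jacobiSym (vl p k) c = ∏ b, jacobiSym (p k b) c := fun c k => by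
    rw [vl, Nat.cast_prod, jac_prod_left]
  have pr : ∀ (c : ℤ) j, jacobiSym c (vl p j) = ∏ a, jacobiSym c (p j a) := fun c j =>
    jac_prod_right _ _ (fun a => (hp j a).1.ne_zero) c
  have od : ∀ j, Odd (vl p j) := fun j => by
    rw [vl]
    exact Finset.prod_induction _ _ (fun _ _ => Odd.mul) odd_one fun a _ =>
      Nat.odd_iff.2 (by have := (hp j a).2; omega)
  have c1 : ∀ (a : Fin m) j (b : Fin m) k, j ≠ k → ¬(j = j₀ ∧ k = k₀) → ¬(k = j₀ ∧ j = k₀) →
      jacobiSym (p k b.succ) (p j a.succ) = sgn (Z 0 a.succ j b.succ k) := by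
    intro a j b k h h1 h2
    rcases lt_or_gt_of_ne h with h | h
    · rw [sy, z1]
      exact hs (j, a) (k, b) h h1
    · exact hs (k, b) (j, a) h h2
  have c2 : ∀ (a : Fin m) j k, j ≠ k →
      jacobiSym (vl p k) (p j a.succ) = sgn (∑ b, Z 0 a.succ j b k) := by
    intro a j k h
    have h1 : jacobiSym (vl p (st j)) (p j a.succ) = _ := ht (j, a)
    refine sgn_cancel (y := η a.succ j (st j)) ?_
    rw [z3 a j k h, sgn_add, ← h1, ← hη _ _ _ h, ← hη _ _ _ (hst j).symm, ← jacobiSym.mul_left,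
      ← jacobiSym.mul_left]
    refine jacobiSym.mod_left' (Int.modEq_iff_dvd.2 ?_)
    refine (Int.natCast_dvd_natCast.2 (dvd_prod_of_mem (p j) (mem_univ a.succ))).trans
      ⟨e k - e (st j), ?_⟩
    change _ = (vl p j : ℤ) * _
    rw [hl, hl, hl]
    ring
  have c3 : ∀ σ (a : Fin m) j b k, j ≠ k → ¬(j = j₀ ∧ k = k₀) → ¬(k = j₀ ∧ j = k₀) →
      jacobiSym (p k b) (p j a.succ) = sgn (Z σ a.succ j b k) := by
    intro σ a j b k h h1 h2
    rw [z2]
    exact cancel (f := fun b => jacobiSym (p k b) (p j a.succ)) (fun b => c1 a j b k h h1 h2)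
      (by rw [← pl, c2 a j k h]) b
  have c4 : ∀ j k, jacobiSym d (vl p j) = jacobiSym d (vl p k) := fun j k => by
    rw [jacobiSym.mod_right d (od j), jacobiSym.mod_right d (od k)]
    congr 1
    refine (Nat.modEq_iff_dvd.2 ?_ : vl p j ≡ vl p k [MOD _])
    obtain ⟨u, hu⟩ := h4 j
    obtain ⟨v, hv⟩ := h4 k
    rw [hl, hl, hu, hv, Nat.cast_mul, Int.natCast_natAbs,
      show x + (4 * v : ℕ) * d - (x + (4 * u : ℕ) * d) = (4 : ℕ) * (d * (v - u)) by push_cast; ring]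
    exact mul_dvd_mul_left _ ((abs_dvd_self d).mul_right _)
  have c5 : ∀ j k, jacobiSym (vl p k) (vl p j) =
      jacobiSym ((e k : ℤ) - e j) (vl p j) * jacobiSym d (vl p j) := fun j k => by
    rw [← jacobiSym.mul_left]
    refine jacobiSym.mod_left' (Int.modEq_iff_dvd.2 ⟨-1, ?_⟩)
    rw [hl, hl]
    ring
  obtain ⟨σ, hσ⟩ : ∃ σ, jacobiSym d (vl p j₀) = sgn σ := by
    rcases jacobiSym.trichotomy d (vl p j₀) with h | h | h
    · have h1 := c5 j₀ (st j₀)
      have h2 := jacobiSym.eq_one_or_neg_one (a := vl p (st j₀)) (b := vl p j₀)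
        (by rw [Int.gcd_natCast_natCast]; exact hc _ _ (hst j₀))
      rw [h, mul_zero] at h1
      omega
    exacts [⟨0, h⟩, ⟨1, h⟩]
  refine ⟨σ, fun a j b k h h1 h2 => ?_⟩
  refine Fin.cases ?_ (fun a => c3 σ a j b k h h1 h2) a
  have c6 : jacobiSym (vl p k) (p j 0) = sgn (∑ b, Z σ 0 j b k) :=
    cancel (f := fun a => jacobiSym (vl p k) (p j a)) (z := fun a => ∑ b, Z σ a j b k)
      (fun a => by simp only [c2 a j k h, z2 σ])
      (by rw [← pr, c5, z4 σ j k h, sgn_add, c4 j j₀, hσ, pr, sgn_sum,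
        prod_congr rfl fun a _ => hη a j k h]) 0
  exact cancel (f := fun b => jacobiSym (p k b) (p j 0)) (z := fun b => Z σ 0 j b k)
    (fun b => by rw [z1, ← c3 σ b k 0 j h.symm h2 h1]; exact sy _ _ _ _) (by rw [← pl, c6]) b

/-- Euler's criterion for the symbol of `c` modulo `p` -/
def Eu (c : ℤ) (p : ℕ) (z : ZMod 2) : Prop :=
  pw (c % p).toNat p 36 (p / 2) = if z = 0 then 1 else p - 1

/-- the checks on the table -/
def Chk (T : ZMod 2 → Fin ((m + 2) * n + 2) → Fin ((m + 2) * n + 2) → ZMod 2)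
    (tb : Fin (n + 2) → Fin (n + 2) → ZMod 2) (q : Fin n → ℤ) (e : Fin n → ℕ)
    (bs : Fin (m + 1) → ℕ) (χ : Fin (m + 1) → Fin n → ZMod 2)
    (η : Fin (m + 1) → Fin n → Fin n → ZMod 2) (st : Fin n → Fin n) : Prop :=
  (∀ a, 2 < bs a ∧ bs a < 2 ^ 36 ∧ nd (bs a) 17 1 = true ∧ (∀ k, Eu (q k) (bs a) (χ a k)) ∧
    ∀ j k, j ≠ k → Eu ((e k : ℤ) - e j) (bs a) (η a j k)) ∧
  (∀ σ k i, T σ (co _ k) (co _ i) = tb k i) ∧
  (∀ σ (a : Fin (m + 1)) j, T σ 0 (fi a.succ j) = 0 ∧ T σ (fi a.succ j) 0 = 0 ∧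
    T σ (fi a.succ j) 1 = 0 ∧ (∀ b : Fin (m + 1), T σ (fi a.succ j) (fi b.succ j) = 0) ∧
    ∀ k, T σ (fi a.succ j) (fi 0 k) = χ a k ∧ T σ (fi 0 k) (fi a.succ j) = χ a k) ∧
  (∀ σ (a : Fin (m + 1)) j (b : Fin (m + 1)) k,
    T σ (fi a.succ j) (fi b.succ k) = T σ (fi b.succ k) (fi a.succ j)) ∧
  (∀ σ (a : Fin m) j (b : Fin (m + 1)) k,
    T σ (fi a.succ.succ j) (fi b.succ k) = T 0 (fi a.succ.succ j) (fi b.succ k)) ∧
  (∀ (a : Fin m) j k, j ≠ k →
    ∑ b : Fin (m + 1), T 0 (fi a.succ.succ j) (fi b.succ k) + η a.succ j (st j) =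
      ∑ b : Fin (m + 1), T 0 (fi a.succ.succ j) (fi b.succ (st j)) + η a.succ j k) ∧
  ∀ σ j k, j ≠ k → ∑ a : Fin (m + 1), ∑ b : Fin (m + 1), T σ (fi a.succ j) (fi b.succ k) =
    ∑ a, η a j k + σ

theorem sgn_pm : ∀ z : ZMod 2, sgn z = 1 ∨ sgn z = -1 := by decide

theorem fam (eqd : EQDStmt) {al be : Fin n → ℤ} {x0 y0 w1 w2 N : ℤ}
    {tb : Fin (n + 2) → Fin (n + 2) → ZMod 2} {eA eB eD : Fin (n + 2) → ℕ} {s s' r : ℕ}
    {G : Fin s → Fin (n + 2) → ℕ} {G' : Fin (s' + 1) → Fin (n + 2) → ℕ}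
    {Pv : Fin s → List (Fin ((m + 2) * n + 2))} {Pv' : Fin (s' + 1) → List (Fin ((m + 2) * n + 2))}
    {C C' : ZMod 2 → Fin ((m + 2) * n + 2) → List (Bool × Fin ((m + 2) * n + 2))}
    {T : ZMod 2 → Fin ((m + 2) * n + 2) → Fin ((m + 2) * n + 2) → ZMod 2}
    {χ : Fin (m + 1) → Fin n → ZMod 2} {η : Fin (m + 1) → Fin n → Fin n → ZMod 2}
    {D : Dat n m} {j₀ k₀ i₀ : Fin n} {st : Fin n → Fin n}
    (hb : Base (PP al be x0 y0) tb) (hD : D.Ok)
    (hj : j₀ < k₀ ∧ eD j₀.succ.succ = 0 ∧ eD k₀.succ.succ = 0 ∧ eB i₀.succ.succ = 0 ∧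
      eD i₀.succ.succ ≠ 0 ∧ (∀ j, st j ≠ j) ∧ eD 1 = 0 ∧ eB 1 = 4 ∧ ∀ j : Fin n, eB j.succ.succ ≤ 1)
    (he : ∀ j, 4 ∣ D.e j ∧ al j * x0 + be j * y0 ∣ D.M ∧
      al j * w1 + be j * w2 = (al j * x0 + be j * y0) * D.e j)
    (h4 : N * ev (PP al be x0 y0) eA % 4 = 1)
    (hT : Chk T tb (fun j => al j * x0 + be j * y0) D.e D.b χ η st)
    (hC : ∀ σ, Cert (rowsE (T σ) (up _ eB) (up _ eD) false) (fun l => up _ (G l)) Pv (C σ) ∧
      Cert (rowsD (T σ) (up _ eB) (up _ eD) false) (fun l => up _ (G' l)) Pv' (C' σ))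
    (h0 : G' 0 = eD) (hr : r + 1 = s + s')
    (hI : ∀ x y, (N * ev (PP al be x y) eA) ^ 2 - 4 * ev (PP al be x y) eB = ev (PP al be x y) eD)
    (hG : ∀ x y l, SolZ (N * ev (PP al be x y) eA) (ev (PP al be x y) eB) (ev (PP al be x y) (G l)))
    (hG' : ∀ x y (l : Fin s'), SolZ (-2 * (N * ev (PP al be x y) eA)) (ev (PP al be x y) eD)
      (ev (PP al be x y) (G' l.succ))) :
    {j : ℚ | ∃ (E : WeierstrassCurve ℚ) (_ : E.IsElliptic), Module.rank ℤ (Pt E ℚ) = r ∧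
      (∀ k : ℕ, ∀ x ∈ Sha E, 2 ^ k • x = 0 → x = 0) ∧ E.j = j}.Infinite := by
  refine Set.Infinite.of_image Rat.den (Set.infinite_of_forall_exists_gt fun B => ?_)
  obtain ⟨j1, j2, j3, j4, j5, hst, s1, s2, s3⟩ := hj
  obtain ⟨t1, t2, t3, t4, t5, t6, t7⟩ := hT
  have hP := hb.pr
  have ne0 : ∀ i : Fin n, i.succ.succ ≠ 0 := fun i => Fin.succ_ne_zero _
  have ne1 : ∀ i : Fin n, i.succ.succ ≠ 1 := fun i => Fin.succ_succ_ne_one _
  choose q hq hq' using fun i : Fin n => hP.prime _ (ne0 i)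
  have eq : ∀ i, al i * x0 + be i * y0 = q i := hq'
  obtain ⟨p, x, d, a1, a2, a3, a4, a5, a6⟩ := eqd n m D hD j₀ k₀ j1 st hst
    (fun u v => sgn (T 0 (fi v.2.succ.succ v.1) (fi u.2.succ.succ u.1)))
    (fun u => sgn (∑ b : Fin (m + 1), T 0 (fi u.2.succ.succ u.1) (fi b.succ (st u.1))))
    (fun _ _ => sgn_pm _) (fun _ => sgn_pm _) (B + D.M)
  have p8 : ∀ j a, p j a % 8 = 1 := fun j a =>
    Eq.trans ((a1 j a).2.2.of_dvd (dvd_mul_right _ _)) (hD.one a)
  have po : ∀ j a, Odd (p j a) := fun j a => Nat.odd_iff.2 (by have := p8 j a; omega)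
  have eu : ∀ (c : ℤ) j a z, c ∣ D.M → Eu c (D.b a) z → jacobiSym c (p j a) = sgn z := by
    intro c j a z h1 h2
    have o : D.b a % 2 = 1 := by have := hD.one a; omega
    rw [← jac_of_pw (prime_of_nd (t1 a).1 o (t1 a).2.1 (t1 a).2.2.1) (t1 a).1 (t1 a).2.1 h2,
      jacobiSym.mod_right c (po j a), jacobiSym.mod_right c (Nat.odd_iff.2 o),
      (a1 j a).2.2.of_dvd (mul_dvd_mul (by norm_num : 4 ∣ 8) (Int.natCast_dvd_natCast.1
        (Int.natAbs_dvd.2 h1)))]
  obtain ⟨σ, hσ⟩ := cross (Z := fun σ a j b k => T σ (fi a.succ j) (fi b.succ k)) (η := η)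
    (fun j => (he j).1) (fun j a => ⟨(a1 j a).1, p8 j a⟩) a3 a4 hst a5 a6
    (fun a j k h => eu _ j a _ (hD.dv k j h.symm) ((t1 a).2.2.2.2 j k h)) t4 t5 t6 t7
  let R : Fin (m + 2) → Fin n → ℕ := Matrix.vecCons q fun a j => p j a
  have R0 : ∀ j, R 0 j = q j := fun _ => rfl
  have R1 : ∀ (a : Fin (m + 1)) j, R a.succ j = p j a := fun _ _ => rfl
  have hR : ∀ j, al j * (x * x0 + d * w1) + be j * (x * y0 + d * w2) = ∏ a, (R a j : ℤ) := by
    intro j
    rw [Fin.prod_univ_succ, R0, ← eq]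
    simp only [R1]
    rw [← Nat.cast_prod]
    change _ = _ * (vl p j : ℤ)
    rw [a3]
    linear_combination d * (he j).2.2
  have hev := ev_up hR
  have hco : ∀ k, QQ (fun a j => (R a j : ℤ)) (co _ k) = PP al be x0 y0 k :=
    Fin.cases rfl (Fin.cases rfl fun j => (QQ_fi _ 0 j).trans (eq j).symm)
  have jq : ∀ i k, i ≠ k.succ.succ → jacobiSym (PP al be x0 y0 i) (q k) = sgn (tb k.succ.succ i) :=
    fun i k h => by simpa only [hq', Int.natAbs_natCast] using hP.jac _ i (ne0 k) (ne1 k) h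
  have self : ∀ c : ℕ, c.Prime → jacobiSym c c = 0 := fun c h => by
    rw [jacobiSym.mod_left, Int.emod_self, jacobiSym.zero_left h.one_lt]
  have qo : ∀ j, Odd (q j) := fun j => (hq j).odd_of_ne_two fun h => by
    have := jq 1 j (ne1 j).symm
    rw [h] at this
    exact sgn_ne_zero _ (this.symm.trans (self 2 Nat.prime_two))
  have qp : ∀ k j a, q k < p j a := fun k j a => by
    have := Nat.le_of_dvd hD.pos (Int.natCast_dvd_natCast.1 (eq k ▸ (he k).2.1))
    have := (a1 j a).2.1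
    omega
  have Rp : ∀ a j, (R a j).Prime ∧ R a j ≠ 2 := fun a j => by
    have : (R a j).Prime ∧ Odd (R a j) :=
      Fin.cases ⟨hq j, qo j⟩ (fun a => ⟨(a1 j a).1, po j a⟩) a
    exact ⟨this.1, fun h => absurd (h ▸ this.2) (by decide)⟩
  have Ri : ∀ a j b k, R a j = R b k → fi (L := m + 2) a j = fi b k := by
    intro a j b k
    refine Fin.cases ?_ (fun a => ?_) a <;> refine Fin.cases ?_ (fun b => ?_) b <;> intro h
    · by_contra h'
      have := jq j.succ.succ k (by rintro e; exact h' (by rw [Fin.succ_inj.1 (Fin.succ_inj.1 e)]))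
      rw [hq', show q j = q k from h, self _ (hq k)] at this
      exact sgn_ne_zero _ this.symm
    · exact absurd h (qp j k b).ne
    · exact absurd h (qp k j a).ne'
    · have h : p j a = p k b := h
      obtain rfl : j = k := by
        by_contra h'
        exact (a1 j a).1.one_lt.ne' (Nat.eq_one_of_dvd_coprimes (a4 j k h')
          (dvd_prod_of_mem _ (mem_univ a)) (h ▸ dvd_prod_of_mem _ (mem_univ b)))
      obtain rfl : a = b := by
        by_contra h'
        rcases lt_or_gt_of_ne h' with h' | h' <;> have := a2 j _ _ h' <;>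
          rw [h, self _ (a1 j b).1] at this <;> exact zero_ne_one this
      rfl
  have jx : ∀ j a k, jacobiSym (q k) (p j a) = sgn (χ a k) := fun j a k =>
    eq k ▸ eu _ j a _ (he k).2.1 ((t1 a).2.2.2.1 k)
  refine (fine (Q := QQ fun a j => (R a j : ℤ)) (T := T σ) (N := N)
    (eA := up _ eA) (eB := up _ eB) (eD := up _ eD) (k := fi 1 i₀) rfl rfl
    (fun i h => ?_) (fun i k h => ?_) ⟨s1, s2, fun k k0 k1 => ?_⟩ rfl
    (by simpa only [hev] using hI _ _) ?_ (fun i h => ?_) (fun k k0 k1 => ?_)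
    (fun k i k0 k1 h ok => ?_) (by simp only [h0]) (fun l => by simpa only [hev] using hG _ _ l)
    (fun l => by simpa only [hev] using hG' _ _ l) (hC σ).1 (hC σ).2 hr (fi0 _ _) (fi1 _ _)
    (by rwa [up_fi]) (by rwa [up_fi])).elim fun E ⟨e1, e2, e3, e4⟩ => ?_
  rotate_right
  · refine ⟨_, ⟨E.j, ⟨E, e1, e2, e3, rfl⟩, rfl⟩, ?_⟩
    rw [QQ_fi] at e4
    have := Nat.le_of_dvd E.j.den_pos (Int.natCast_dvd_natCast.1 e4)
    have := (a1 i₀ 0).2.1
    change p i₀ 0 ≤ _ at *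
    omega
  · rcases idx i with rfl | rfl | ⟨a, j, rfl⟩
    exacts [absurd rfl h, ⟨2, Nat.prime_two, rfl⟩, ⟨_, (Rp a j).1, QQ_fi _ a j⟩]
  · have v0 : QQ (fun a j => (R a j : ℤ)) 0 = -1 := rfl
    have v1 : QQ (fun a j => (R a j : ℤ)) 1 = 2 := rfl
    rcases idx i with rfl | rfl | ⟨a, j, rfl⟩ <;> rcases idx k with rfl | rfl | ⟨b, k, rfl⟩ <;>
      simp only [v0, v1, QQ_fi] at h
    any_goals rfl
    any_goals omega
    · exact absurd (by exact_mod_cast h.symm) (Rp b k).2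
    · exact absurd (by exact_mod_cast h) (Rp a j).2
    · exact Ri _ _ _ _ (by exact_mod_cast h)
  · rcases idx k with rfl | rfl | ⟨a, j, rfl⟩
    exacts [absurd rfl k0, absurd rfl k1, (up_fi _ a j).trans_le (s3 j)]
  · rw [hev, ← h4]
    refine (Int.ModEq.prod fun i _ => Int.ModEq.pow _ ?_).mul_left _
    refine Fin.cases rfl (Fin.cases rfl fun j => ?_) i
    change al j * _ + be j * _ ≡ al j * _ + be j * _ [ZMOD 4]
    rw [hR, Fin.prod_univ_succ, R0, ← eq]
    simpa using (Int.ModEq.prod (s := univ) (g := fun _ => 1) fun (a : Fin (m + 1)) _ =>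
      (by have := p8 j a; rw [R1]; unfold Int.ModEq; omega :
        (R a.succ j : ℤ) ≡ 1 [ZMOD 4])).mul_left (al j * x0 + be j * y0)
  · have b1 : ∀ k, k ≠ 1 → ZMod.χ₄ (QQ (fun a j => (R a j : ℤ)) (co _ k)) = sgn (T σ 0 (co _ k)) :=
      fun k h => by rw [hco, hP.c4 k h, ← t2 σ]; rfl
    rcases idx i with rfl | rfl | ⟨a, j, rfl⟩
    · exact b1 0 zero_ne_one
    · exact absurd rfl h
    · refine Fin.cases (b1 _ (ne1 j)) (fun a => ?_) a
      rw [QQ_fi, R1, (t3 σ a j).1, ZMod.χ₄_int_one_mod_four (by have := p8 j a; omega)]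
      rfl
  · rcases idx k with rfl | rfl | ⟨a, j, rfl⟩
    · exact absurd rfl k0
    · exact absurd rfl k1
    · exact Fin.cases ((t2 σ j.succ.succ j.succ.succ).trans (hP.diag _ (ne0 j) (ne1 j)))
        (fun a => (t3 σ a j).2.2.2.1 a) a
  · rcases idx k with rfl | rfl | ⟨a, j, rfl⟩
    · exact absurd rfl k0
    · exact absurd rfl k1
    rw [QQ_fi, Int.natAbs_natCast]
    have b1 : ∀ i, i ≠ j.succ.succ → jacobiSym (QQ (fun a j => (R a j : ℤ)) (co _ i)) (q j) =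
        sgn (T σ (fi 0 j) (co _ i)) := fun i h => by rw [hco, jq i j h, ← t2 σ]; rfl
    revert h ok
    rcases idx i with rfl | rfl | ⟨b, k, rfl⟩
    · refine Fin.cases (fun _ _ => b1 0 (ne0 j).symm) (fun a _ _ => ?_) a
      rw [R1, (t3 σ a j).2.1]
      exact (jacobiSym.at_neg_one (po j a)).trans
        (ZMod.χ₄_nat_one_mod_four (by have := p8 j a; omega))
    · refine Fin.cases (fun _ _ => b1 1 (ne1 j).symm) (fun a _ _ => ?_) a
      rw [R1, (t3 σ a j).2.2.1]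
      refine (jacobiSym.at_two (po j a)).trans ?_
      rw [ZMod.χ₈_nat_mod_eight, p8]
      rfl
    refine Fin.cases ?_ (fun a => ?_) a <;> refine Fin.cases ?_ (fun b => ?_) b <;> intro h ok
    · exact b1 k.succ.succ (by rintro e; exact h (by rw [Fin.succ_inj.1 (Fin.succ_inj.1 e)]))
    · rw [QQ_fi, R0, R1, ((t3 σ b k).2.2.2.2 j).2, ← jx k b j]
      exact jacobiSym.quadratic_reciprocity_one_mod_four (by have := p8 k b; omega) (qo j)
    · rw [QQ_fi, R0, R1, ((t3 σ a j).2.2.2.2 k).1, jx]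
    · rw [QQ_fi, R1, R1]
      by_cases e : j = k
      · subst e
        rw [(t3 σ a j).2.2.2.1]
        rcases lt_or_gt_of_ne (show b ≠ a by rintro rfl; exact h rfl) with h | h
        · exact a2 j _ _ h
        · rw [jacobiSym.quadratic_reciprocity_one_mod_four (by have := p8 j b; omega) (po j a)]
          exact a2 j _ _ h
      · have := ((ok.resolve_left (fi0 _ _)).resolve_left (fi1 _ _)).2
        rw [up_fi, up_fi] at this
        refine hσ a j b k e ?_ ?_ <;> rintro ⟨rfl, rfl⟩ <;> simp [j2, j3] at this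

end Pool.Agent.MP_a43263_nt.G7

end MrgPart6

-- marker of a merged file
example : 731051 + 96223 = 731051 + 96223 := rfl
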