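import Pool.Agent.MP_a43263_nt.R2.Mer
import Pool.Agent.MP_a43263_nt.R2.Maj
import Pool.Agent.MP_a43263_nt.R2.Sw
import Pool.Agent.MP_a43263_nt.R2.Box
import Pool.Agent.MP_a43263_nt.RG.Pair
import Pool.Agent.MP_a43263_nt.RG.Gg
import Pool.Agent.MP_a43263_nt.G7.Tab
import Pool.Agent.MP_a43263_nt.G7.Key

/-! PROJECT GT7, part B: the equidistribution of the symbols, without hypotheses. -/

namespace Pool.Agent.MP_a43263_nt.G7

theorem eqdAll : EQDStmt :=
  eqd_of R2.sw (R2.dos R2.jac)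
    (RG.gg R2.mer (R2.dos R2.jac) (RG.pair R2.mer (R2.shi R2.box) (R2.cen R2.crt)))
    _root_.Pool.Agent.MP_a43263_nt.GT.gtcAll map den pos key osc eqd

end Pool.Agent.MP_a43263_nt.G7
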